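import Mathlib

set_option autoImplicit false

/-!
# Four functions theorem on the real line
-/

namespace Pool.Agent.BFT

open MeasureTheory

/-- If `a, b ≤ c` and `a b ≤ c d` then `a + b ≤ c + d` (for real numbers: if `c > 0`,
`(c - a)(c - b) ≥ 0` gives `a + b ≤ c + a b / c ≤ c + d`; infinite values and `c = 0` are
immediate). -/
theorem ad_pt (a b c d : ENNReal) (h1 : a ≤ c) (h2 : b ≤ c) (h3 : a * b ≤ c * d) :
    a + b ≤ c + d := by
  by_cases hc : c = ⊤
  · rw [hc, top_add]; exact le_top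
  by_cases hd : d = ⊤
  · rw [hd, add_top]; exact le_top
  by_cases hc0 : c = 0
  · rw [hc0] at h1 h2
    rw [nonpos_iff_eq_zero.mp h1, nonpos_iff_eq_zero.mp h2]
    simp
  have ha : a ≠ ⊤ := ne_top_of_le_ne_top hc h1
  have hb : b ≠ ⊤ := ne_top_of_le_ne_top hc h2
  lift a to NNReal using ha
  lift b to NNReal using hb
  lift c to NNReal using hc
  lift d to NNReal using hd
  have h1' : a ≤ c := by exact_mod_cast h1
  have h2' : b ≤ c := by exact_mod_cast h2
  have h3' : a * b ≤ c * d := by exact_mod_cast h3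
  have hc0' : c ≠ 0 := by
    intro h
    apply hc0
    rw [h]
    simp
  have key : a + b ≤ c + d := by
    rw [← NNReal.coe_le_coe] at h1' h2' h3' ⊢
    push_cast at h3' ⊢
    have hcp : (0:ℝ) < c := by
      have := pos_iff_ne_zero.mpr hc0'
      exact_mod_cast this
    have h4 : (c:ℝ) * (a + b) ≤ c * (c + d) := by
      nlinarith [mul_nonneg (sub_nonneg.mpr h1') (sub_nonneg.mpr h2')]
    exact le_of_mul_le_mul_left h4 hcp
  exact_mod_cast key

private theorem AdOne_diag : (volume.prod volume : Measure (ℝ × ℝ)) {p | p.1 = p.2} = 0 := by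
  have hm : MeasurableSet {p : ℝ × ℝ | p.1 = p.2} := measurableSet_eq_fun measurable_fst measurable_snd
  rw [Measure.measure_prod_null hm]
  filter_upwards with x
  have : (Prod.mk x ⁻¹' {p : ℝ × ℝ | p.1 = p.2}) = {x} := by
    ext y
    simp [eq_comm]
  rw [this]
  simp

private theorem AdOne_half (F : ℝ × ℝ → ENNReal) (hF : Measurable F) :
    ∫⁻ p, F p ∂(volume.prod volume : Measure (ℝ × ℝ)) =
      ∫⁻ p in {p : ℝ × ℝ | p.1 < p.2}, (F p + F p.swap) ∂(volume.prod volume : Measure (ℝ × ℝ)) := by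
  have hS : MeasurableSet {p : ℝ × ℝ | p.1 < p.2} := measurableSet_lt measurable_fst measurable_snd
  have hS' : MeasurableSet {p : ℝ × ℝ | p.2 < p.1} := measurableSet_lt measurable_snd measurable_fst
  rw [← lintegral_add_compl F hS, lintegral_add_left hF]
  congr 1
  have h1 : (({p : ℝ × ℝ | p.1 < p.2}ᶜ : Set (ℝ × ℝ)) =ᵐ[(volume.prod volume : Measure (ℝ × ℝ))]
      ({p : ℝ × ℝ | p.2 < p.1} : Set (ℝ × ℝ))) := by
    have h2 : ∀ᵐ p ∂(volume.prod volume : Measure (ℝ × ℝ)), p.1 ≠ p.2 := by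
      rw [ae_iff]
      simpa using AdOne_diag
    filter_upwards [h2] with p hp
    apply propext
    change ¬ (p.1 < p.2) ↔ p.2 < p.1
    constructor
    · intro h
      exact lt_of_le_of_ne (not_lt.mp h) (Ne.symm hp)
    · intro h
      exact not_lt.mpr h.le
  rw [setLIntegral_congr h1]
  have h3 : MeasurePreserving (Prod.swap : ℝ × ℝ → ℝ × ℝ) (volume.prod volume) (volume.prod volume) :=
    Measure.measurePreserving_swap
  have h4 := h3.setLIntegral_comp_preimage hS' hF
  rw [← h4]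
  rfl

/-- The four functions theorem on `ℝ`.
Proof. `(∫ f1)(∫ f2) = ∫∫ f1 x * f2 y` over the plane. The diagonal is null and the plane is the
disjoint union of `{x < y}`, `{y < x}` and the diagonal; swapping the variables on `{y < x}`,
`(∫ f1)(∫ f2) = ∫∫_{x<y} (f1 x * f2 y + f1 y * f2 x)`, and the same for `f3, f4` in the form
`∫∫_{x<y} (f3 y * f4 x + f3 x * f4 y)`. For `x < y` apply `ad_pt` with `a = f1 x * f2 y`,
`b = f1 y * f2 x`, `c = f3 y * f4 x`, `d = f3 x * f4 y`: `a ≤ c` is `H x y`, `b ≤ c` is `H y x`,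
`a * b ≤ c * d` is `H x x` times `H y y`. Use `lintegral_lintegral_mul`,
`lintegral_lintegral_swap` / `lintegral_prod`, `Measure.addHaar` null diagonal (or
`ae` in `y` for fixed `x`: `y ≠ x`). -/
theorem ad_one (f1 f2 f3 f4 : ℝ → ENNReal) (m1 : Measurable f1) (m2 : Measurable f2)
    (m3 : Measurable f3) (m4 : Measurable f4)
    (H : ∀ x y, f1 x * f2 y ≤ f3 (x ⊔ y) * f4 (x ⊓ y)) :
    (∫⁻ x, f1 x) * (∫⁻ x, f2 x) ≤ (∫⁻ x, f3 x) * (∫⁻ x, f4 x) := by
  rw [← lintegral_prod_mul m1.aemeasurable m2.aemeasurable,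
    ← lintegral_prod_mul m3.aemeasurable m4.aemeasurable]
  rw [AdOne_half (fun z : ℝ × ℝ => f1 z.1 * f2 z.2) (by fun_prop),
    AdOne_half (fun z : ℝ × ℝ => f3 z.1 * f4 z.2) (by fun_prop)]
  apply setLIntegral_mono (by fun_prop)
  rintro ⟨x, y⟩ (hxy : x < y)
  change f1 x * f2 y + f1 y * f2 x ≤ f3 x * f4 y + f3 y * f4 x
  rw [add_comm (f3 x * f4 y)]
  apply ad_pt
  · have := H x y
    rwa [sup_of_le_right hxy.le, inf_of_le_left hxy.le] at this
  · have := H y x
    rwa [sup_of_le_left hxy.le, inf_of_le_right hxy.le] at this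
  · have h1 := H x x
    have h2 := H y y
    rw [sup_idem, inf_idem] at h1 h2
    calc f1 x * f2 y * (f1 y * f2 x) = (f1 x * f2 x) * (f1 y * f2 y) := by ring
      _ ≤ (f3 x * f4 x) * (f3 y * f4 y) := mul_le_mul' h1 h2
      _ = f3 y * f4 x * (f3 x * f4 y) := by ring

end Pool.Agent.BFT
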