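import Mathlib
import Pool.Agent.Lib_MP_33fb9b_bft.AdOne

set_option autoImplicit false

/-!
# Four functions theorem on `ι → ℝ`
-/

namespace Pool.Agent.BFT

open MeasureTheory

theorem adpi_zero (f : (Fin 0 → ℝ) → ENNReal) : ∫⁻ x, f x = f default := by
  rw [lintegral_unique]
  have h : (volume : Measure (Fin 0 → ℝ)) Set.univ = 1 := by
    rw [volume_pi, Measure.pi_univ]
    simp
  rw [h, mul_one]
  congr 1
  exact Subsingleton.elim _ _

theorem adpi_cons (n : ℕ) : Measurable (fun q : ℝ × (Fin n → ℝ) => (Fin.cons q.1 q.2 : Fin (n+1) → ℝ)) := by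
  rw [measurable_pi_iff]
  intro j
  refine Fin.cases ?_ (fun j => ?_) j
  · exact measurable_fst
  · exact (measurable_pi_apply j).comp measurable_snd

theorem adpi_meas' (n : ℕ) (f : (Fin (n+1) → ℝ) → ENNReal) (hf : Measurable f) (x : Fin n → ℝ) :
    Measurable (fun t : ℝ => f (Fin.cons t x)) :=
  hf.comp ((adpi_cons n).comp (measurable_id.prodMk measurable_const))

theorem adpi_meas (n : ℕ) (f : (Fin (n+1) → ℝ) → ENNReal) (hf : Measurable f) :
    Measurable (fun x : Fin n → ℝ => ∫⁻ t : ℝ, f (Fin.cons t x)) :=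
  Measurable.lintegral_prod_left' (f := fun q : ℝ × (Fin n → ℝ) => f (Fin.cons q.1 q.2))
    (hf.comp (adpi_cons n))

theorem adpi_succ (n : ℕ) (f : (Fin (n+1) → ℝ) → ENNReal) (hf : Measurable f) :
    ∫⁻ x, f x = ∫⁻ x : Fin n → ℝ, ∫⁻ t : ℝ, f (Fin.cons t x) := by
  have h1 := (volume_preserving_piFinSuccAbove (fun _ : Fin (n+1) => ℝ) 0).symm.lintegral_comp hf
  rw [← h1]
  have h2 : ∀ q : ℝ × (Fin n → ℝ),
      (MeasurableEquiv.piFinSuccAbove (fun _ : Fin (n+1) => ℝ) 0).symm q = Fin.cons q.1 q.2 := by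
    intro q
    funext j
    refine Fin.cases ?_ (fun j => ?_) j
    · rfl
    · rfl
  have h3 : (fun q => f ((MeasurableEquiv.piFinSuccAbove (fun _ : Fin (n+1) => ℝ) 0).symm q))
      = fun q : ℝ × (Fin n → ℝ) => f (Fin.cons q.1 q.2) := by
    funext q
    rw [h2]
  rw [h3]
  exact lintegral_prod_symm' _ (hf.comp (adpi_cons n))

/-- The four functions theorem on `Fin n → ℝ`, by induction on `n`.
`n = 0`: the space is one point. Step: `Fin (n+1) → ℝ` is `ℝ × (Fin n → ℝ)`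
(`MeasurableEquiv.piFinSuccAbove (fun _ => ℝ) 0`, `volume_preserving_piFinSuccAbove`), so
`∫ f = ∫ t, ∫ x, f (Fin.cons t x)` and by Tonelli `= ∫ x, F x` with `F x = ∫ t, f (Fin.cons t x)`.
For fixed `x, y` the functions `t ↦ f1 (cons t x)`, `f2 (cons t y)`, `f3 (cons t (x ⊔ y))`,
`f4 (cons t (x ⊓ y))` satisfy the hypothesis of `ad_one` (`cons s x ⊔ cons t y = cons (s ⊔ t) (x ⊔ y)`),
hence `F1 x * F2 y ≤ F3 (x ⊔ y) * F4 (x ⊓ y)`; apply the induction hypothesis to `F1, …, F4`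
(measurable by `Measurable.lintegral_prod_right'`). -/
theorem ad_fin (n : ℕ) (f1 f2 f3 f4 : (Fin n → ℝ) → ENNReal) (m1 : Measurable f1)
    (m2 : Measurable f2) (m3 : Measurable f3) (m4 : Measurable f4)
    (H : ∀ x y, f1 x * f2 y ≤ f3 (x ⊔ y) * f4 (x ⊓ y)) :
    (∫⁻ x, f1 x) * (∫⁻ x, f2 x) ≤ (∫⁻ x, f3 x) * (∫⁻ x, f4 x) := by
  induction n with
  | zero =>
    rw [adpi_zero f1, adpi_zero f2, adpi_zero f3, adpi_zero f4]
    have h := H default default
    rwa [sup_idem, inf_idem] at h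
  | succ n ih =>
    rw [adpi_succ n f1 m1, adpi_succ n f2 m2, adpi_succ n f3 m3, adpi_succ n f4 m4]
    refine ih _ _ _ _ (adpi_meas n f1 m1) (adpi_meas n f2 m2) (adpi_meas n f3 m3)
      (adpi_meas n f4 m4) fun x y => ?_
    refine ad_one _ _ _ _ (adpi_meas' n f1 m1 x) (adpi_meas' n f2 m2 y) (adpi_meas' n f3 m3 _)
      (adpi_meas' n f4 m4 _) fun s t => ?_
    have h := H (Fin.cons s x) (Fin.cons t y)
    have h1 : (Fin.cons s x : Fin (n+1) → ℝ) ⊔ Fin.cons t y = Fin.cons (s ⊔ t) (x ⊔ y) := by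
      funext j
      refine Fin.cases ?_ (fun j => ?_) j
      · rfl
      · rfl
    have h2 : (Fin.cons s x : Fin (n+1) → ℝ) ⊓ Fin.cons t y = Fin.cons (s ⊓ t) (x ⊓ y) := by
      funext j
      refine Fin.cases ?_ (fun j => ?_) j
      · rfl
      · rfl
    rwa [h1, h2] at h

/-- The four functions theorem on `ι → ℝ` for a finite type `ι`: transport along
`Fintype.equivFin ι` (`volume_measurePreserving_piCongrLeft` or
`volume_measurePreserving_arrowCongr'`); the lattice operations are coordinatewise. -/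
theorem ad_pi (ι : Type) [Fintype ι] (f1 f2 f3 f4 : (ι → ℝ) → ENNReal) (m1 : Measurable f1)
    (m2 : Measurable f2) (m3 : Measurable f3) (m4 : Measurable f4)
    (H : ∀ x y, f1 x * f2 y ≤ f3 (x ⊔ y) * f4 (x ⊓ y)) :
    (∫⁻ x, f1 x) * (∫⁻ x, f2 x) ≤ (∫⁻ x, f3 x) * (∫⁻ x, f4 x) := by
  let e := Fintype.equivFin ι
  have hmp := volume_measurePreserving_piCongrLeft (fun _ : ι => ℝ) e.symm
  have key : ∀ f : (ι → ℝ) → ENNReal, Measurable f →
      ∫⁻ x, f x = ∫⁻ y : Fin (Fintype.card ι) → ℝ, f (fun i => y (e i)) := by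
    intro f hf
    rw [← hmp.lintegral_comp hf]
    refine lintegral_congr fun y => ?_
    congr 1
    funext i
    have h := MeasurableEquiv.piCongrLeft_apply_apply e.symm (β := fun _ : ι => ℝ) y (e i)
    rw [Equiv.symm_apply_apply] at h
    exact h
  have hm : Measurable (fun y : Fin (Fintype.card ι) → ℝ => fun i => y (e i)) := by
    rw [measurable_pi_iff]
    exact fun i => measurable_pi_apply _
  rw [key f1 m1, key f2 m2, key f3 m3, key f4 m4]
  refine ad_fin _ _ _ _ _ (m1.comp hm) (m2.comp hm) (m3.comp hm) (m4.comp hm) fun x y => ?_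
  exact H _ _

end Pool.Agent.BFT
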