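import Mathlib

set_option autoImplicit false

/-!
# The lower bound function for pairs
-/

namespace Pool.Agent.BFT

/-- the maximum of the four lower bounds for the distance of a pair with inversion probability `a` and
adjacency probability `a * k` -/
noncomputable def BB (a k : ℝ) : ℝ :=
  max (max (5 / 2 - a * (5 / 2 + 2 * k + 1 / k)) (3 - a * (3 + 3 * k + k ^ 2 + 1 / k)))
    (max ((Real.log (1 / a) - 1) / k) (4 - a * (4 + 7 * k + 4 * k ^ 2 + 1 / k)))

end Pool.Agent.BFT
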