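import Mathlib

set_option autoImplicit false

/-!
# The substitution `z ↦ (z with coordinate b replaced by τ) - z b`
-/

namespace Pool.Agent.BFT

open MeasureTheory

open Classical in
/-- the linear part of the substitution -/
private noncomputable def Invol_lin (ι : Type) (b : ι) : (ι → ℝ) →ₗ[ℝ] (ι → ℝ) where
  toFun z := fun w => if w = b then - z b else z w - z b
  map_add' x y := by
    funext w
    by_cases h : w = b
    · simp [h]; ring
    · simp [h]; ring
  map_smul' c x := by
    funext w
    by_cases h : w = b
    · simp [h]
    · simp [h]; ring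

private theorem Invol_sq (ι : Type) (b : ι) : Invol_lin ι b ∘ₗ Invol_lin ι b = LinearMap.id := by
  apply LinearMap.ext
  intro z
  funext w
  by_cases h : w = b
  · simp [Invol_lin, h]
  · simp [Invol_lin, h]

private theorem Invol_mp (ι : Type) [Fintype ι] (b : ι) :
    MeasurePreserving (Invol_lin ι b) volume volume := by
  have hd : LinearMap.det (Invol_lin ι b) * LinearMap.det (Invol_lin ι b) = 1 := by
    rw [← LinearMap.det_comp, Invol_sq, LinearMap.det_id]
  have hd0 : LinearMap.det (Invol_lin ι b) ≠ 0 := by
    intro h
    rw [h] at hd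
    norm_num at hd
  refine ⟨(LinearMap.continuous_of_finiteDimensional _).measurable, ?_⟩
  rw [Real.map_linearMap_volume_pi_eq_smul_volume_pi hd0]
  have h1 : |(LinearMap.det (Invol_lin ι b))⁻¹| = 1 := by
    rw [abs_inv]
    have h2 : |LinearMap.det (Invol_lin ι b)| * |LinearMap.det (Invol_lin ι b)| = 1 := by
      rw [← abs_mul, hd, abs_one]
    have h3 : |LinearMap.det (Invol_lin ι b)| = 1 := by
      nlinarith [abs_nonneg (LinearMap.det (Invol_lin ι b))]
    rw [h3, inv_one]
  rw [h1]
  simp

open Classical in
/-- The map `T z w = (update z b τ) w - z b` preserves Lebesgue measure on `P → ℝ`.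
Proof: its linear part `L z b = - z b`, `L z w = z w - z b` (`w ≠ b`) satisfies `L (L z) = z`, so
`(det L)^2 = 1` and `L` preserves Lebesgue measure
(`Measure.map_linearMap_addHaar_eq_smul_addHaar`), and `T z = L z + Pi.single b τ`
(`measurePreserving_add_right`). -/
theorem subst_mp (ι : Type) [Fintype ι] (b : ι) (τ : ℝ) :
    MeasurePreserving (fun z : ι → ℝ => fun w => Function.update z b τ w - z b) volume volume := by
  have h1 := (measurePreserving_add_right (volume : Measure (ι → ℝ)) (Pi.single b τ)).comp
    (Invol_mp ι b)
  have h2 : (fun z : ι → ℝ => fun w => Function.update z b τ w - z b) =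
      (fun x : ι → ℝ => x + Pi.single b τ) ∘ (Invol_lin ι b) := by
    funext z w
    by_cases h : w = b
    · subst h
      simp [Invol_lin]
      ring
    · simp [Invol_lin, h]
  rw [h2]
  exact h1

end Pool.Agent.BFT
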