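import Mathlib
import Pool.Agent.Lib_MP_33fb9b_gap.Mod

set_option autoImplicit false

/-!
# Definitions: uniform random linear extensions, expectations, and the basic API
-/

namespace Pool.Agent.BFT

open Pool.Agent.Gap

/-- linear extensions: order preserving bijections onto `Fin |P|` -/
abbrev LE (P : Type) [Fintype P] [PartialOrder P] : Type :=
  {e : P ≃ Fin (Fintype.card P) // Monotone e}

noncomputable instance instFintypeLE (P : Type) [Fintype P] [PartialOrder P] : Fintype (LE P) :=
  Fintype.ofFinite _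

instance instNonemptyLE (P : Type) [Fintype P] [PartialOrder P] : Nonempty (LE P) := by
  obtain ⟨e, he⟩ := exists_linext P
  exact ⟨⟨e, he⟩⟩

open Classical in
/-- indicator of a proposition -/
noncomputable def ind (q : Prop) : ℝ := if q then 1 else 0

theorem ind_true {q : Prop} (h : q) : ind q = 1 := by unfold ind; rw [if_pos h]
theorem ind_false {q : Prop} (h : ¬ q) : ind q = 0 := by unfold ind; rw [if_neg h]
theorem ind_nonneg (q : Prop) : 0 ≤ ind q := by unfold ind; split_ifs <;> norm_num
theorem ind_le_one (q : Prop) : ind q ≤ 1 := by unfold ind; split_ifs <;> norm_num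
theorem ind_mono {q r : Prop} (h : q → r) : ind q ≤ ind r := by
  by_cases hq : q
  · rw [ind_true hq, ind_true (h hq)]
  · rw [ind_false hq]; exact ind_nonneg r
theorem ind_not (q : Prop) : ind (¬ q) = 1 - ind q := by
  by_cases hq : q
  · rw [ind_true hq, ind_false (not_not.mpr hq)]; norm_num
  · rw [ind_false hq, ind_true hq]; norm_num

section

variable {P : Type} [Fintype P] [PartialOrder P]

/-- position (from `0`) of an element in a linear extension -/
def pos (σ : LE P) (v : P) : ℕ := (σ.1 v : ℕ)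

/-- expectation over the uniform linear extension -/
noncomputable def Ex (f : LE P → ℝ) : ℝ := (∑ σ : LE P, f σ) / (Fintype.card (LE P) : ℝ)

/-- probability over the uniform linear extension -/
noncomputable def Pr (Q : LE P → Prop) : ℝ := Ex (fun σ => ind (Q σ))

/-- `lt u v` is the probability that `u` comes before `v` -/
noncomputable def lt (u v : P) : ℝ := Pr (fun σ : LE P => pos σ u < pos σ v)

/-- `nxt u v i` is the probability that `v` comes exactly `i` places after `u` -/
noncomputable def nxt (u v : P) (i : ℕ) : ℝ := Pr (fun σ : LE P => pos σ v = pos σ u + i)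

/-- mean position (from `0`) -/
noncomputable def ht (v : P) : ℝ := Ex (fun σ : LE P => (pos σ v : ℝ))

/-- `dd u v = E (pos u - pos v)^+` -/
noncomputable def dd (u v : P) : ℝ := Ex (fun σ : LE P => max ((pos σ u : ℝ) - pos σ v) 0)

theorem cardLE_pos : (0 : ℝ) < (Fintype.card (LE P) : ℝ) := by
  exact_mod_cast Fintype.card_pos

theorem Ex_const (c : ℝ) : Ex (fun _ : LE P => c) = c := by
  unfold Ex
  rw [Finset.sum_const, Finset.card_univ, nsmul_eq_mul, mul_comm, mul_div_assoc,
    div_self (cardLE_pos (P := P)).ne', mul_one]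

theorem Ex_add (f g : LE P → ℝ) : Ex (fun σ => f σ + g σ) = Ex f + Ex g := by
  unfold Ex
  rw [Finset.sum_add_distrib, add_div]

theorem Ex_sub (f g : LE P → ℝ) : Ex (fun σ => f σ - g σ) = Ex f - Ex g := by
  unfold Ex
  rw [Finset.sum_sub_distrib, sub_div]

theorem Ex_mul (c : ℝ) (f : LE P → ℝ) : Ex (fun σ => c * f σ) = c * Ex f := by
  unfold Ex
  rw [← Finset.mul_sum, mul_div_assoc]

theorem Ex_neg (f : LE P → ℝ) : Ex (fun σ => - f σ) = - Ex f := by
  have := Ex_mul (-1) f
  simpa using this

theorem Ex_mono {f g : LE P → ℝ} (h : ∀ σ, f σ ≤ g σ) : Ex f ≤ Ex g := by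
  unfold Ex
  exact div_le_div_of_nonneg_right (Finset.sum_le_sum fun σ _ => h σ) (cardLE_pos (P := P)).le

theorem Ex_congr {f g : LE P → ℝ} (h : ∀ σ, f σ = g σ) : Ex f = Ex g := by
  rw [funext h]

theorem Ex_nonneg {f : LE P → ℝ} (h : ∀ σ, 0 ≤ f σ) : 0 ≤ Ex f := by
  have := Ex_mono h
  rwa [Ex_const] at this

theorem Ex_sum {ι : Type} (s : Finset ι) (f : ι → LE P → ℝ) :
    Ex (fun σ => ∑ i ∈ s, f i σ) = ∑ i ∈ s, Ex (f i) := by
  unfold Ex
  rw [Finset.sum_comm, Finset.sum_div]

theorem Pr_nonneg (Q : LE P → Prop) : 0 ≤ Pr Q := Ex_nonneg fun _ => ind_nonneg _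

theorem Pr_le_one (Q : LE P → Prop) : Pr Q ≤ 1 := by
  have := Ex_mono (P := P) (f := fun σ => ind (Q σ)) (g := fun _ => 1) fun _ => ind_le_one _
  rwa [Ex_const] at this

theorem Pr_mono {Q R : LE P → Prop} (h : ∀ σ, Q σ → R σ) : Pr Q ≤ Pr R :=
  Ex_mono fun σ => ind_mono (h σ)

theorem Pr_congr {Q R : LE P → Prop} (h : ∀ σ, Q σ ↔ R σ) : Pr Q = Pr R :=
  le_antisymm (Pr_mono fun σ => (h σ).1) (Pr_mono fun σ => (h σ).2)

theorem Pr_true {Q : LE P → Prop} (h : ∀ σ, Q σ) : Pr Q = 1 := by
  unfold Pr
  rw [Ex_congr (g := fun _ => 1) fun σ => ind_true (h σ), Ex_const]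

theorem Pr_false {Q : LE P → Prop} (h : ∀ σ, ¬ Q σ) : Pr Q = 0 := by
  unfold Pr
  rw [Ex_congr (g := fun _ => 0) fun σ => ind_false (h σ), Ex_const]

theorem Pr_not (Q : LE P → Prop) : Pr (fun σ => ¬ Q σ) = 1 - Pr Q := by
  unfold Pr
  rw [Ex_congr (g := fun σ => 1 - ind (Q σ)) fun σ => ind_not _, Ex_sub, Ex_const]

/-- a probability as a normalised number of linear extensions -/
theorem Pr_eq_card (Q : LE P → Prop) [DecidablePred Q] :
    Pr Q = ((Finset.univ.filter Q).card : ℝ) / (Fintype.card (LE P) : ℝ) := by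
  unfold Pr Ex ind
  congr 1
  rw [Finset.card_filter]
  push_cast
  apply Finset.sum_congr rfl
  intro σ _
  by_cases h : Q σ <;> simp [h]

/-- a finite weighted inequality between indicators gives one between expectations -/
theorem Pr_pos {Q : LE P → Prop} (σ : LE P) (h : Q σ) : 0 < Pr Q := by
  classical
  rw [Pr_eq_card]
  apply div_pos _ cardLE_pos
  have : (Finset.univ.filter Q).Nonempty := ⟨σ, by simp [h]⟩
  exact_mod_cast Finset.card_pos.mpr this

/-- injections of linear extensions -/
theorem Pr_le_of_inj {Q R : LE P → Prop} (f : LE P → LE P) (hf : ∀ σ, Q σ → R (f σ))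
    (hi : ∀ σ τ, Q σ → Q τ → f σ = f τ → σ = τ) : Pr Q ≤ Pr R := by
  classical
  rw [Pr_eq_card, Pr_eq_card]
  apply div_le_div_of_nonneg_right _ (cardLE_pos (P := P)).le
  have : (Finset.univ.filter Q).card ≤ (Finset.univ.filter R).card := by
    apply Finset.card_le_card_of_injOn f
    · intro σ hσ
      have : Q σ := by simpa using hσ
      simpa using hf σ this
    · intro σ hσ τ hτ h
      exact hi σ τ (by simpa using hσ) (by simpa using hτ) h
  exact_mod_cast this

theorem pos_lt_card (σ : LE P) (v : P) : pos σ v < Fintype.card P := (σ.1 v).2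

theorem pos_inj {σ : LE P} {u v : P} (h : pos σ u = pos σ v) : u = v :=
  σ.1.injective (Fin.ext h)

theorem pos_ne {σ : LE P} {u v : P} (h : u ≠ v) : pos σ u ≠ pos σ v := fun hc => h (pos_inj hc)

theorem pos_lt_of_lt (σ : LE P) {u v : P} (h : u < v) : pos σ u < pos σ v := by
  have h1 : pos σ u ≤ pos σ v := σ.2 h.le
  exact lt_of_le_of_ne h1 (fun hc => h.ne (pos_inj hc))

theorem LE_ext {σ τ : LE P} (h : ∀ v, pos σ v = pos τ v) : σ = τ := by
  apply Subtype.ext
  apply Equiv.ext
  intro v
  exact Fin.ext (h v)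

theorem lt_nonneg (u v : P) : 0 ≤ lt u v := Pr_nonneg _
theorem lt_le_one (u v : P) : lt u v ≤ 1 := Pr_le_one _

theorem lt_add {u v : P} (h : u ≠ v) : lt u v + lt v u = 1 := by
  have h1 : lt v u = 1 - lt u v := by
    unfold lt
    rw [← Pr_not]
    apply Pr_congr
    intro σ
    have := pos_ne (σ := σ) h
    omega
  rw [h1]; ring

theorem lt_of_lt {u v : P} (h : u < v) : lt u v = 1 := Pr_true fun σ => pos_lt_of_lt σ h

theorem lt_of_gt {u v : P} (h : v < u) : lt u v = 0 :=
  Pr_false fun σ => not_lt.mpr (pos_lt_of_lt σ h).le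

theorem dd_nonneg (u v : P) : 0 ≤ dd u v := Ex_nonneg fun _ => le_max_right _ _

theorem dd_sub (u v : P) : dd v u - dd u v = ht v - ht u := by
  unfold dd ht
  rw [← Ex_sub, ← Ex_sub]
  apply Ex_congr
  intro σ
  rcases le_total (pos σ u : ℝ) (pos σ v) with h | h
  · rw [max_eq_left (by linarith), max_eq_right (by linarith)]; ring
  · rw [max_eq_right (by linarith), max_eq_left (by linarith)]; ring

theorem dd_triangle (u v w : P) : dd u w ≤ dd u v + dd v w := by
  unfold dd
  rw [← Ex_add]
  apply Ex_mono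
  intro σ
  apply max_le
  · have h1 := le_max_left ((pos σ u : ℝ) - pos σ v) 0
    have h2 := le_max_left ((pos σ v : ℝ) - pos σ w) 0
    linarith
  · have h1 := le_max_right ((pos σ u : ℝ) - pos σ v) 0
    have h2 := le_max_right ((pos σ v : ℝ) - pos σ w) 0
    linarith

/-- the probability of the statement -/
theorem prob_eq_lt (x y : P) : prob P x y = lt x y := by
  classical
  unfold lt
  rw [Pr_eq_card]
  have h1 : Nat.card {e : P ≃ Fin (Fintype.card P) // Monotone e ∧ e x < e y} =
      (Finset.univ.filter (fun σ : LE P => pos σ x < pos σ y)).card := by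
    have h2 : (Finset.univ.filter (fun σ : LE P => pos σ x < pos σ y)).card =
        Nat.card {σ : LE P // pos σ x < pos σ y} := by
      rw [Nat.card_eq_fintype_card, Fintype.card_subtype]
    rw [h2]
    apply Nat.card_congr
    exact (Equiv.subtypeSubtypeEquivSubtypeInter (fun e : P ≃ Fin (Fintype.card P) => Monotone e)
      (fun e => e x < e y)).symm
  have h3 : Nat.card {e : P ≃ Fin (Fintype.card P) // Monotone e} = Fintype.card (LE P) :=
    Nat.card_eq_fintype_card
  unfold prob
  rw [h1, h3]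

end

end Pool.Agent.BFT
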