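import Mathlib
import Pool.Agent.Lib_MP_33fb9b_bft.Defs

set_option autoImplicit false

/-!
# Definitions: the continuous model

`expo` is the exponential law, `gam n` the law of `n` independent exponential spacings,
`Xv σ y v = ∑_{j ≤ pos v} y j` and `XL P` the law of the random vector `X` on `P → ℝ` (a uniform
linear extension and independent exponential spacings).
-/

namespace Pool.Agent.BFT

open MeasureTheory

/-- the exponential law on the real line -/
noncomputable def expo : Measure ℝ :=
  volume.withDensity (fun x => ENNReal.ofReal (if 0 < x then Real.exp (-x) else 0))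

theorem expo_meas : Measurable (fun x : ℝ => ENNReal.ofReal (if 0 < x then Real.exp (-x) else 0)) :=
  ENNReal.measurable_ofReal.comp
    (Measurable.ite measurableSet_Ioi (Real.measurable_exp.comp measurable_neg) measurable_const)

theorem expo_Iic_eq (s : ℝ) (hs : 0 ≤ s) : expo (Set.Iio s) = ENNReal.ofReal (1 - Real.exp (-s)) := by
  unfold expo
  rw [withDensity_apply _ measurableSet_Iio]
  have h1 : ∀ x : ℝ, ENNReal.ofReal (if 0 < x then Real.exp (-x) else 0) =
      (Set.Ioi (0:ℝ)).indicator (fun x => ENNReal.ofReal (Real.exp (-x))) x := by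
    intro x
    by_cases h : 0 < x
    · simp [h]
    · simp [h]
  simp_rw [h1]
  rw [← lintegral_indicator measurableSet_Iio]
  rw [Set.indicator_indicator, lintegral_indicator (measurableSet_Iio.inter measurableSet_Ioi)]
  have h2 : Set.Iio s ∩ Set.Ioi 0 = Set.Ioo 0 s := by ext x; simp [and_comm]
  rw [h2, ← ofReal_integral_eq_lintegral_ofReal]
  · congr 1
    rw [← integral_Ioc_eq_integral_Ioo, ← intervalIntegral.integral_of_le hs]
    rw [intervalIntegral.integral_comp_neg (fun x => Real.exp x), integral_exp]
    simp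
  · exact (Continuous.integrableOn_Icc (by fun_prop)).mono_set Set.Ioo_subset_Icc_self
  · exact Filter.Eventually.of_forall fun x => (Real.exp_pos _).le

theorem expo_univ : expo Set.univ = 1 := by
  have h1 : Filter.Tendsto (fun k : ℕ => expo (Set.Iio (k:ℝ))) Filter.atTop
      (nhds (expo (⋃ k : ℕ, Set.Iio (k:ℝ)))) := by
    apply tendsto_measure_iUnion_atTop
    intro a b hab
    exact Set.Iio_subset_Iio (by exact_mod_cast hab)
  have h2 : (⋃ k : ℕ, Set.Iio (k:ℝ)) = Set.univ := by
    ext x
    simp only [Set.mem_iUnion, Set.mem_Iio, Set.mem_univ, iff_true]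
    exact exists_nat_gt x
  rw [h2] at h1
  have h3 : Filter.Tendsto (fun k : ℕ => expo (Set.Iio (k:ℝ))) Filter.atTop (nhds 1) := by
    have h4 : ∀ k : ℕ, expo (Set.Iio (k:ℝ)) = ENNReal.ofReal (1 - Real.exp (-(k:ℝ))) :=
      fun k => expo_Iic_eq _ (Nat.cast_nonneg k)
    simp_rw [h4]
    have h5 : Filter.Tendsto (fun k : ℕ => 1 - Real.exp (-(k:ℝ))) Filter.atTop (nhds (1 - 0)) :=
      Filter.Tendsto.sub tendsto_const_nhds
        (Real.tendsto_exp_neg_atTop_nhds_zero.comp tendsto_natCast_atTop_atTop)
    have h6 := (ENNReal.continuous_ofReal.tendsto _).comp h5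
    have h7 : ENNReal.ofReal (1 - 0) = 1 := by simp
    rw [h7] at h6
    exact h6
  exact tendsto_nhds_unique h1 h3

instance instProbExpo : IsProbabilityMeasure expo := ⟨expo_univ⟩

/-- the law of `n` independent exponential spacings -/
noncomputable def gam (n : ℕ) : Measure (Fin n → ℝ) := Measure.pi (fun _ => expo)

instance instProbGam (n : ℕ) : IsProbabilityMeasure (gam n) := by
  unfold gam; infer_instance

variable {P : Type} [Fintype P] [PartialOrder P]

/-- the random vector -/
noncomputable def Xv (σ : LE P) (y : Fin (Fintype.card P) → ℝ) (v : P) : ℝ :=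
  ∑ j : Fin (Fintype.card P), if j ≤ σ.1 v then y j else 0

theorem Xv_measurable (σ : LE P) : Measurable (Xv σ) := by
  rw [measurable_pi_iff]
  intro v
  unfold Xv
  apply Finset.measurable_sum
  intro j _
  by_cases h : j ≤ σ.1 v
  · simp only [h, if_true]; exact measurable_pi_apply j
  · simp only [h, if_false]; exact measurable_const

/-- the law of the random vector -/
noncomputable def XL (P : Type) [Fintype P] [PartialOrder P] : Measure (P → ℝ) :=
  ((Fintype.card (LE P) : ENNReal))⁻¹ • ∑ σ : LE P, (gam (Fintype.card P)).map (Xv σ)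

theorem XL_lintegral (f : (P → ℝ) → ENNReal) (hf : Measurable f) :
    ∫⁻ x, f x ∂(XL P) = ((Fintype.card (LE P) : ENNReal))⁻¹ *
      ∑ σ : LE P, ∫⁻ y, f (Xv σ y) ∂(gam (Fintype.card P)) := by
  unfold XL
  rw [lintegral_smul_measure, lintegral_finsetSum_measure, smul_eq_mul]
  congr 1
  apply Finset.sum_congr rfl
  intro σ _
  rw [lintegral_map hf (Xv_measurable σ)]

instance instProbXL : IsProbabilityMeasure (XL P) := by
  constructor
  have h := XL_lintegral (P := P) (fun _ => 1) measurable_const
  simp only [lintegral_const, measure_univ, mul_one, Finset.sum_const, Finset.card_univ,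
    nsmul_eq_mul, one_mul] at h
  rw [h]
  apply ENNReal.inv_mul_cancel
  · exact_mod_cast (Fintype.card_pos (α := LE P)).ne'
  · exact ENNReal.natCast_ne_top _

/-- probabilities in the continuous model -/
theorem XL_real (A : Set (P → ℝ)) (hA : MeasurableSet A) :
    (XL P).real A = Ex (fun σ => (gam (Fintype.card P)).real {y | Xv σ y ∈ A}) := by
  unfold Ex
  have h : (XL P) A = ((Fintype.card (LE P) : ENNReal))⁻¹ *
      ∑ σ : LE P, (gam (Fintype.card P)) {y | Xv σ y ∈ A} := by
    unfold XL
    rw [Measure.smul_apply, Measure.finsetSum_apply, smul_eq_mul]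
    congr 1
    apply Finset.sum_congr rfl
    intro σ _
    rw [Measure.map_apply (Xv_measurable σ) hA]
    rfl
  rw [Measure.real, h, ENNReal.toReal_mul, ENNReal.toReal_inv, ENNReal.toReal_natCast,
    ENNReal.toReal_sum (fun σ _ => measure_ne_top _ _), div_eq_inv_mul]
  rfl

end Pool.Agent.BFT
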