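import Mathlib
import Pool.Agent.Lib_MP_33fb9b_bft.Cont

set_option autoImplicit false

/-!
# The density of the spacings
-/

namespace Pool.Agent.BFT

open MeasureTheory

/-- the exponential density -/
noncomputable def gdg (x : ℝ) : ENNReal := ENNReal.ofReal (if 0 < x then Real.exp (-x) else 0)

theorem gdg_meas : Measurable gdg := expo_meas

theorem gd_zero (f : (Fin 0 → ℝ) → ENNReal) (μ : Measure ℝ) [SigmaFinite μ] :
    ∫⁻ x, f x ∂(Measure.pi fun _ : Fin 0 => μ) = f default := by
  rw [lintegral_unique, Measure.pi_univ]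
  simp only [Finset.univ_eq_empty, Finset.prod_empty, mul_one]
  congr 1
  exact Subsingleton.elim _ _

theorem gd_cons (n : ℕ) :
    Measurable (fun q : ℝ × (Fin n → ℝ) => (Fin.cons q.1 q.2 : Fin (n+1) → ℝ)) := by
  rw [measurable_pi_iff]
  intro j
  refine Fin.cases ?_ (fun j => ?_) j
  · exact measurable_fst
  · exact (measurable_pi_apply j).comp measurable_snd

theorem gd_succ (n : ℕ) (μ : Measure ℝ) [SigmaFinite μ] (f : (Fin (n+1) → ℝ) → ENNReal)
    (hf : Measurable f) :
    ∫⁻ x, f x ∂(Measure.pi fun _ : Fin (n+1) => μ)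
      = ∫⁻ t : ℝ, ∫⁻ x : Fin n → ℝ, f (Fin.cons t x) ∂(Measure.pi fun _ : Fin n => μ) ∂μ := by
  have h1 := (measurePreserving_piFinSuccAbove (fun _ : Fin (n+1) => μ) 0).symm.lintegral_comp hf
  rw [← h1]
  have h3 : (fun q => f ((MeasurableEquiv.piFinSuccAbove (fun _ : Fin (n+1) => ℝ) 0).symm q))
      = fun q : ℝ × (Fin n → ℝ) => f (Fin.cons q.1 q.2) := by
    funext q
    congr 1
    funext j
    refine Fin.cases ?_ (fun j => ?_) j
    · rfl
    · rfl
  rw [h3]
  exact lintegral_prod _ (hf.comp (gd_cons n)).aemeasurable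

theorem gd_prod (n : ℕ) (f : (Fin n → ℝ) → ENNReal) (hf : Measurable f) :
    ∫⁻ y, f y ∂(gam n) = ∫⁻ y : Fin n → ℝ, (∏ j, gdg (y j)) * f y := by
  unfold gam
  induction n with
  | zero =>
    rw [gd_zero, volume_pi, gd_zero]
    simp
  | succ n ih =>
    have hm : Measurable (fun y : Fin (n+1) → ℝ => (∏ j, gdg (y j)) * f y) :=
      (Finset.measurable_prod _ fun j _ => gdg_meas.comp (measurable_pi_apply j)).mul hf
    rw [gd_succ n expo f hf, volume_pi, gd_succ n volume _ hm]
    have h1 : ∀ t : ℝ, ∫⁻ x : Fin n → ℝ, f (Fin.cons t x) ∂(Measure.pi fun _ : Fin n => expo)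
        = ∫⁻ x : Fin n → ℝ, (∏ j, gdg (x j)) * f (Fin.cons t x) := fun t =>
      ih _ (hf.comp ((gd_cons n).comp (measurable_const.prodMk measurable_id)))
    rw [lintegral_congr h1]
    have hm2 : Measurable (fun q : ℝ × (Fin n → ℝ) => (∏ j, gdg (q.2 j)) * f (Fin.cons q.1 q.2)) :=
      (Finset.measurable_prod _ fun j _ =>
        gdg_meas.comp ((measurable_pi_apply j).comp measurable_snd)).mul (hf.comp (gd_cons n))
    have h2 : ∫⁻ t, (∫⁻ x : Fin n → ℝ, (∏ j, gdg (x j)) * f (Fin.cons t x)) ∂expo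
        = ∫⁻ t : ℝ, gdg t * ∫⁻ x : Fin n → ℝ, (∏ j, gdg (x j)) * f (Fin.cons t x) :=
      lintegral_withDensity_eq_lintegral_mul _ gdg_meas hm2.lintegral_prod_right'
    rw [h2]
    refine lintegral_congr fun t => ?_
    have hm3 : Measurable (fun x : Fin n → ℝ => (∏ j, gdg (x j)) * f (Fin.cons t x)) :=
      hm2.comp (measurable_const.prodMk measurable_id)
    rw [← lintegral_const_mul _ hm3, volume_pi]
    refine lintegral_congr fun x => ?_
    rw [Fin.prod_univ_succ, ← mul_assoc]
    rfl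

open Classical in
/-- The density of `gam n` is `exp (- ∑ y)` on the positive orthant.
Proof: `gam n = Measure.pi (fun _ => volume.withDensity g)` with `g x = ofReal (if 0 < x then exp (-x)
else 0)`, and this is `volume.withDensity (fun y => ∏ j, g (y j))` (`Measure.pi_eq`: on a rectangle
`Set.pi univ s` both sides are `∏ j, ∫⁻ x in s j, g x`; for the product of lower integrals use
`lintegral_fintype_prod_eq_prod` or induction on `n` with `volume_preserving_piFinSuccAbove`). Finally
`∏ j, g (y j) = ofReal (exp (-∑ y))` if all `y j > 0` and `0` otherwise. -/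
theorem gam_lintegral (n : ℕ) (f : (Fin n → ℝ) → ENNReal) (hf : Measurable f) :
    ∫⁻ y, f y ∂(gam n) =
      ∫⁻ y : Fin n → ℝ, (if ∀ j, 0 < y j then ENNReal.ofReal (Real.exp (-∑ j, y j)) else 0) * f y := by
  rw [gd_prod n f hf]
  refine lintegral_congr fun y => ?_
  congr 1
  unfold gdg
  by_cases h : ∀ j, 0 < y j
  · rw [if_pos h]
    rw [← ENNReal.ofReal_prod_of_nonneg fun j _ => by rw [if_pos (h j)]; exact (Real.exp_pos _).le]
    congr 1
    rw [← Finset.sum_neg_distrib, Real.exp_sum]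
    exact Finset.prod_congr rfl fun j _ => if_pos (h j)
  · rw [if_neg h]
    obtain ⟨j, hj⟩ := not_forall.mp h
    refine Finset.prod_eq_zero (Finset.mem_univ j) ?_
    rw [if_neg hj, ENNReal.ofReal_zero]

end Pool.Agent.BFT
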