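import Mathlib
import Pool.Agent.Lib_MP_33fb9b_bft.Cont

set_option autoImplicit false

/-!
# The weight `W c x = exp (c - max x)` on order preserving `x` with `x > c`
-/

namespace Pool.Agent.BFT

open MeasureTheory

variable {P : Type} [Fintype P] [PartialOrder P]

/-- the maximal coordinate -/
noncomputable def mx (x : P → ℝ) : ℝ := ⨆ v, x v

open Classical in
/-- the weight -/
noncomputable def W (c : ℝ) (x : P → ℝ) : ENNReal :=
  if (∀ v, c < x v) ∧ Monotone x then ENNReal.ofReal (Real.exp (c - mx x)) else 0

end Pool.Agent.BFT
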