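import Mathlib
import Pool.Agent.Lib_MP_33fb9b_bft.Cont

set_option autoImplicit false

/-!
# The map from spacings to the vector preserves Lebesgue measure
-/

namespace Pool.Agent.BFT

open MeasureTheory

/-- the lower triangular matrix of ones -/
private noncomputable def XvVol_M (n : ℕ) : Matrix (Fin n) (Fin n) ℝ :=
  fun k j => if j ≤ k then 1 else 0

private theorem XvVol_det (n : ℕ) : (XvVol_M n).det = 1 := by
  rw [Matrix.det_of_lowerTriangular]
  · apply Finset.prod_eq_one
    intro i _
    simp [XvVol_M]
  · intro i j hij
    have h : i < j := by simpa using hij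
    simp [XvVol_M, h]

private theorem XvVol_mp (n : ℕ) :
    MeasurePreserving (Matrix.toLin' (XvVol_M n)) volume volume := by
  refine ⟨(LinearMap.continuous_of_finiteDimensional _).measurable, ?_⟩
  rw [Real.map_matrix_volume_pi_eq_smul_volume_pi (by rw [XvVol_det]; norm_num), XvVol_det]
  simp

variable {P : Type} [Fintype P] [PartialOrder P]

/-- `y ↦ Xv σ y` preserves Lebesgue measure.
Proof: it is the composition of the reindexing `(Fin n → ℝ) ≃ (P → ℝ)` by `σ` (measure preserving,
`volume_measurePreserving_piCongrLeft`) with the linear map of `Fin n → ℝ` given by the matrix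
`M k j = if j ≤ k then 1 else 0`, which is lower triangular with ones on the diagonal, so its
determinant is `1` (`Matrix.det_of_lowerTriangular`), hence it preserves Lebesgue measure
(`Measure.map_linearMap_addHaar_eq_smul_addHaar` / `Real.map_matrix_volume_pi_eq_smul_volume_pi`). -/
theorem Xv_vol (σ : LE P) : MeasurePreserving (Xv σ) volume volume := by
  have h1 := (volume_measurePreserving_piCongrLeft (fun _ : P => ℝ) σ.1.symm).comp
    (XvVol_mp (Fintype.card P))
  have h2 : Xv σ = (MeasurableEquiv.piCongrLeft (fun _ : P => ℝ) σ.1.symm) ∘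
      (Matrix.toLin' (XvVol_M (Fintype.card P))) := by
    funext y v
    have h3 : (MeasurableEquiv.piCongrLeft (fun _ : P => ℝ) σ.1.symm)
        ((Matrix.toLin' (XvVol_M (Fintype.card P))) y) v =
        ((Matrix.toLin' (XvVol_M (Fintype.card P))) y) (σ.1 v) := by
      have h4 := MeasurableEquiv.piCongrLeft_apply_apply (β := fun _ : P => ℝ) σ.1.symm
        ((Matrix.toLin' (XvVol_M (Fintype.card P))) y) (σ.1 v)
      rw [Equiv.symm_apply_apply] at h4
      exact h4
    rw [Function.comp_apply, h3]
    unfold Xv
    simp only [Matrix.toLin'_apply, Matrix.mulVec, dotProduct, XvVol_M]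
    apply Finset.sum_congr rfl
    intro j _
    split_ifs <;> simp
  rw [h2]
  exact h1

end Pool.Agent.BFT
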