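import Mathlib
import Pool.Agent.Lib_MP_33fb9b_bft.WDef
import Pool.Agent.Lib_MP_33fb9b_bft.GamDens
import Pool.Agent.Lib_MP_33fb9b_bft.XvVol

set_option autoImplicit false

/-!
# The law of the random vector for one linear extension
-/

namespace Pool.Agent.BFT

open MeasureTheory

variable {P : Type} [Fintype P] [PartialOrder P]

theorem mx_measurable : Measurable (fun x : P → ℝ => mx x) := by
  unfold mx
  exact Measurable.iSup fun v => measurable_pi_apply v

/-- the set of positive vectors sorted by `σ` -/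
theorem lo_set (σ : LE P) :
    MeasurableSet {x : P → ℝ | (∀ v, 0 < x v) ∧ (∀ u v, x u < x v ↔ σ.1 u < σ.1 v)} := by
  have h1 : ∀ v : P, MeasurableSet {x : P → ℝ | 0 < x v} := fun v =>
    measurableSet_lt measurable_const (measurable_pi_apply v)
  have h2 : ∀ u v : P, MeasurableSet {x : P → ℝ | x u < x v} := fun u v =>
    measurableSet_lt (measurable_pi_apply u) (measurable_pi_apply v)
  have h3 : ∀ u v : P, MeasurableSet {x : P → ℝ | x u < x v ↔ σ.1 u < σ.1 v} := fun u v => by
    by_cases h : σ.1 u < σ.1 v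
    · simp only [h, iff_true]
      exact h2 u v
    · simp only [h, iff_false]
      exact (h2 u v).compl
  have h4 : {x : P → ℝ | (∀ v, 0 < x v) ∧ (∀ u v, x u < x v ↔ σ.1 u < σ.1 v)}
      = (⋂ v, {x : P → ℝ | 0 < x v}) ∩ ⋂ u, ⋂ v, {x : P → ℝ | x u < x v ↔ σ.1 u < σ.1 v} := by
    ext x
    simp only [Set.mem_ofPred_eq, Set.mem_inter_iff, Set.mem_iInter]
  rw [h4]
  exact (MeasurableSet.iInter fun v => h1 v).inter
    (MeasurableSet.iInter fun u => MeasurableSet.iInter fun v => h3 u v)

theorem lo_diff (σ : LE P) (y : Fin (Fintype.card P) → ℝ) (u v : P) (h : σ.1 u ≤ σ.1 v) :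
    Xv σ y v = Xv σ y u + ∑ j : Fin (Fintype.card P), if σ.1 u < j ∧ j ≤ σ.1 v then y j else 0 := by
  unfold Xv
  rw [← Finset.sum_add_distrib]
  refine Finset.sum_congr rfl fun j _ => ?_
  by_cases h1 : j ≤ σ.1 u
  · rw [if_pos (h1.trans h), if_pos h1, if_neg (fun hc => absurd hc.1 (not_lt.mpr h1)), add_zero]
  · by_cases h2 : j ≤ σ.1 v
    · rw [if_pos h2, if_neg h1, if_pos ⟨not_le.mp h1, h2⟩, zero_add]
    · rw [if_neg h2, if_neg h1, if_neg (fun hc => h2 hc.2), zero_add]

theorem lo_mono (σ : LE P) (y : Fin (Fintype.card P) → ℝ) (hy : ∀ j, 0 < y j) (u v : P)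
    (h : σ.1 u < σ.1 v) : Xv σ y u < Xv σ y v := by
  rw [lo_diff σ y u v h.le]
  have h1 : 0 < ∑ j : Fin (Fintype.card P), if σ.1 u < j ∧ j ≤ σ.1 v then y j else 0 := by
    refine Finset.sum_pos' (fun j _ => ?_) ⟨σ.1 v, Finset.mem_univ _, ?_⟩
    · split_ifs
      · exact (hy j).le
      · exact le_rfl
    · rw [if_pos ⟨h, le_rfl⟩]
      exact hy _
  linarith

theorem lo_iff (σ : LE P) (y : Fin (Fintype.card P) → ℝ) :
    (∀ j, 0 < y j) ↔
      ((∀ v, 0 < Xv σ y v) ∧ (∀ u v, Xv σ y u < Xv σ y v ↔ σ.1 u < σ.1 v)) := by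
  constructor
  · intro hy
    constructor
    · intro v
      unfold Xv
      refine Finset.sum_pos' (fun j _ => ?_) ⟨σ.1 v, Finset.mem_univ _, ?_⟩
      · split_ifs
        · exact (hy j).le
        · exact le_rfl
      · rw [if_pos le_rfl]
        exact hy _
    · intro u v
      constructor
      · intro h
        by_contra hc
        rcases (not_lt.mp hc).eq_or_lt with h1 | h1
        · rw [σ.1.injective h1] at h
          exact lt_irrefl _ h
        · exact lt_asymm h (lo_mono σ y hy v u h1)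
      · exact lo_mono σ y hy u v
  · rintro ⟨h1, h2⟩ j
    rcases Nat.eq_zero_or_pos j.1 with hj | hj
    · have h3 : Xv σ y (σ.1.symm j) = y j := by
        unfold Xv
        rw [Equiv.apply_symm_apply, Finset.sum_eq_single j]
        · rw [if_pos le_rfl]
        · intro i _ hi
          rw [if_neg]
          intro hc
          apply hi
          apply Fin.ext
          have : i.1 ≤ j.1 := hc
          omega
        · intro h
          exact absurd (Finset.mem_univ _) h
      rw [← h3]
      exact h1 _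
    · let i : Fin (Fintype.card P) := ⟨j.1 - 1, by omega⟩
      have hij : i < j := by
        rw [Fin.lt_def]
        change j.1 - 1 < j.1
        omega
      have h3 := (h2 (σ.1.symm i) (σ.1.symm j)).mpr (by simpa using hij)
      rw [lo_diff σ y (σ.1.symm i) (σ.1.symm j) (by simpa using hij.le)] at h3
      simp only [Equiv.apply_symm_apply] at h3
      rw [Finset.sum_eq_single j] at h3
      · rw [if_pos ⟨hij, le_rfl⟩] at h3
        linarith
      · intro k _ hk
        rw [if_neg]
        rintro ⟨h4, h5⟩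
        apply hk
        apply Fin.ext
        have h6 : j.1 - 1 < k.1 := h4
        have h7 : k.1 ≤ j.1 := h5
        omega
      · intro h
        exact absurd (Finset.mem_univ _) h

theorem lo_mx [Nonempty P] (σ : LE P) (y : Fin (Fintype.card P) → ℝ) (hy : ∀ j, 0 < y j) :
    mx (Xv σ y) = ∑ j, y j := by
  have hc : 0 < Fintype.card P := Fintype.card_pos
  let l : Fin (Fintype.card P) := ⟨Fintype.card P - 1, by omega⟩
  have hl : ∀ j, j ≤ l := fun j => by
    rw [Fin.le_def]
    change j.1 ≤ Fintype.card P - 1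
    have := j.2
    omega
  have h1 : Xv σ y (σ.1.symm l) = ∑ j, y j := by
    unfold Xv
    rw [Equiv.apply_symm_apply]
    exact Finset.sum_congr rfl fun j _ => if_pos (hl j)
  have h2 : ∀ v, Xv σ y v ≤ ∑ j, y j := fun v => by
    unfold Xv
    refine Finset.sum_le_sum fun j _ => ?_
    split_ifs
    · exact le_rfl
    · exact (hy j).le
  unfold mx
  apply le_antisymm
  · exact ciSup_le h2
  · rw [← h1]
    exact le_ciSup (Set.finite_range _).bddAbove (σ.1.symm l)

open Classical in
/-- One linear extension. Proof: by `gam_lintegral`, the left side is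
`∫⁻ y, (if ∀ j, 0 < y j then ofReal (exp (-∑ y)) else 0) * f (Xv σ y)`. If all `y j > 0` then
`x = Xv σ y` satisfies `x u < x v ↔ σ u < σ v`, all `x v > 0`, and `∑ y = mx x` (the value at the top
element); conversely, if `x = Xv σ y` is positive and sorted by `σ` then all `y j > 0` (consecutive
differences `Xv σ y (σ⁻¹ (j+1)) - Xv σ y (σ⁻¹ j) = y (j+1)`, and `Xv σ y (σ⁻¹ 0) = y 0`). So the
integrand is `g (Xv σ y)` with `g x = (if (∀ v, 0 < x v) ∧ (∀ u v, x u < x v ↔ σ u < σ v) then
ofReal (exp (0 - mx x)) else 0) * f x`; use `Xv_vol` (`MeasurePreserving.lintegral_comp`). -/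
theorem law_one [Nonempty P] (σ : LE P) (f : (P → ℝ) → ENNReal) (hf : Measurable f) :
    ∫⁻ y, f (Xv σ y) ∂(gam (Fintype.card P)) =
      ∫⁻ x : P → ℝ, (if (∀ v, 0 < x v) ∧ (∀ u v, x u < x v ↔ σ.1 u < σ.1 v) then
        ENNReal.ofReal (Real.exp (0 - mx x)) else 0) * f x := by
  have h0 := gam_lintegral (Fintype.card P) (fun y => f (Xv σ y)) (hf.comp (Xv_measurable σ))
  rw [h0]
  have hg : Measurable (fun x : P → ℝ =>
      (if (∀ v, 0 < x v) ∧ (∀ u v, x u < x v ↔ σ.1 u < σ.1 v) then
        ENNReal.ofReal (Real.exp (0 - mx x)) else 0) * f x) := by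
    refine Measurable.mul ?_ hf
    refine Measurable.ite (lo_set σ) ?_ measurable_const
    exact ENNReal.measurable_ofReal.comp
      (Real.measurable_exp.comp (measurable_const.sub mx_measurable))
  rw [← (Xv_vol σ).lintegral_comp hg]
  refine lintegral_congr fun y => ?_
  congr 1
  by_cases h : ∀ j, 0 < y j
  · rw [if_pos h, if_pos ((lo_iff σ y).mp h), lo_mx σ y h, zero_sub]
  · rw [if_neg h, if_neg (fun hc => h ((lo_iff σ y).mpr hc))]

end Pool.Agent.BFT
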