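import Mathlib
import Pool.Agent.Lib_MP_33fb9b_bft.WDef

set_option autoImplicit false

/-!
# Almost every vector is sorted by exactly one bijection
-/

namespace Pool.Agent.BFT

open MeasureTheory

variable {P : Type} [Fintype P] [PartialOrder P]

/-- almost every vector has different coordinates (the hyperplane `x u = x v` is null:
`Measure.addHaar_submodule` for the kernel of `x ↦ x u - x v`, or `Measure.addHaar_affineSubspace`) -/
theorem ae_inj (ι : Type) [Fintype ι] :
    ∀ᵐ x : ι → ℝ ∂volume, Function.Injective x := by
  have key : ∀ u v : ι, u ≠ v → ∀ᵐ x : ι → ℝ ∂volume, x u ≠ x v := by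
    intro u v huv
    rw [ae_iff]
    simp only [ne_eq, not_not]
    set f : (ι → ℝ) →ₗ[ℝ] ℝ := LinearMap.proj (R := ℝ) (φ := fun _ : ι => ℝ) u -
      LinearMap.proj (R := ℝ) (φ := fun _ : ι => ℝ) v with hf
    have h1 : {x : ι → ℝ | x u = x v} = (LinearMap.ker f : Set (ι → ℝ)) := by
      ext x
      simp only [Set.mem_setOf_eq, SetLike.mem_coe, LinearMap.mem_ker, hf, LinearMap.sub_apply,
        LinearMap.proj_apply, sub_eq_zero]
    rw [h1]
    apply Measure.addHaar_submodule
    intro htop
    classical
    have h2 : (Pi.single u (1:ℝ) : ι → ℝ) ∈ LinearMap.ker f := by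
      rw [htop]; trivial
    rw [LinearMap.mem_ker, hf, LinearMap.sub_apply, LinearMap.proj_apply, LinearMap.proj_apply,
      Pi.single_eq_same, Pi.single_eq_of_ne (Ne.symm huv)] at h2
    norm_num at h2
  have h3 : ∀ᵐ x : ι → ℝ ∂volume, ∀ u v : ι, u ≠ v → x u ≠ x v := by
    rw [ae_all_iff]
    intro u
    rw [ae_all_iff]
    intro v
    by_cases huv : u = v
    · exact Filter.Eventually.of_forall fun x h => absurd huv h
    · filter_upwards [key u v huv] with x hx _ using hx
  filter_upwards [h3] with x hx u v huv
  by_contra hne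
  exact hx u v hne huv

/-- for an injective vector there is a bijection sorting it (`LinearOrder.lift' x hx` and
`Fintype.orderIsoFinOfCardEq`) -/
theorem exists_sort (x : P → ℝ) (hx : Function.Injective x) :
    ∃ e : P ≃ Fin (Fintype.card P), ∀ u v, x u < x v ↔ e u < e v := by
  classical
  have hcard : (Finset.univ.image x).card = Fintype.card P := by
    rw [Finset.card_image_of_injective _ hx, Finset.card_univ]
  have hmem : ∀ v, x v ∈ Finset.univ.image x := fun v =>
    Finset.mem_image_of_mem x (Finset.mem_univ v)
  set f : P → Fin (Fintype.card P) :=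
    fun v => ((Finset.univ.image x).orderIsoOfFin hcard).symm ⟨x v, hmem v⟩ with hf
  have hlt : ∀ u v, x u < x v ↔ f u < f v := by
    intro u v
    rw [hf]
    simp only
    rw [OrderIso.lt_iff_lt]
    exact Iff.rfl
  have hinj : Function.Injective f := by
    intro u v huv
    apply hx
    have h1 : ¬ x u < x v := by rw [hlt, huv]; exact lt_irrefl _
    have h2 : ¬ x v < x u := by rw [hlt, huv]; exact lt_irrefl _
    exact le_antisymm (not_lt.mp h2) (not_lt.mp h1)
  have hbij : Function.Bijective f := by
    rw [Fintype.bijective_iff_injective_and_card]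
    exact ⟨hinj, by rw [Fintype.card_fin]⟩
  exact ⟨Equiv.ofBijective f hbij, hlt⟩

open Classical in
/-- For almost every `x` the sum over linear extensions of the indicators of the event that `x` is
sorted by `σ` is the indicator of the event that `x` is order preserving: if `x` is injective there
is exactly one bijection with `x u < x v ↔ σ u < σ v` (uniqueness: `Pool.Agent.Gap.enum_unique`), and
it is monotone iff `x` is. -/
theorem sorted_sum [Nonempty P] : ∀ᵐ x : P → ℝ ∂volume,
    ∑ σ : LE P, (if (∀ v, 0 < x v) ∧ (∀ u v, x u < x v ↔ σ.1 u < σ.1 v) then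
        ENNReal.ofReal (Real.exp (0 - mx x)) else 0) = W 0 x := by
  filter_upwards [ae_inj P] with x hx
  unfold W
  by_cases hpos : ∀ v, 0 < x v
  swap
  · rw [if_neg (fun h => hpos h.1)]
    apply Finset.sum_eq_zero
    intro σ _
    rw [if_neg (fun h => hpos h.1)]
  by_cases hmono : Monotone x
  · rw [if_pos ⟨hpos, hmono⟩]
    obtain ⟨e, he⟩ := exists_sort x hx
    have hem : Monotone e := by
      intro u v huv
      rw [← not_lt, ← he, not_lt]
      exact hmono huv
    rw [Finset.sum_eq_single (⟨e, hem⟩ : LE P)]
    · rw [if_pos ⟨hpos, he⟩]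
    · intro σ _ hσ
      rw [if_neg]
      rintro ⟨-, h⟩
      apply hσ
      apply Subtype.ext
      exact Pool.Agent.Gap.enum_unique (fun u v => x u < x v) σ.1 e (fun u v => (h u v).symm)
        (fun u v => (he u v).symm)
    · intro h
      exact absurd (Finset.mem_univ _) h
  · rw [if_neg (fun h => hmono h.2)]
    apply Finset.sum_eq_zero
    intro σ _
    rw [if_neg]
    rintro ⟨-, h⟩
    apply hmono
    intro u v huv
    rw [← not_lt, h, not_lt]
    exact σ.2 huv

end Pool.Agent.BFT
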