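import Mathlib
import Pool.Agent.Lib_MP_33fb9b_bft.LawOne
import Pool.Agent.Lib_MP_33fb9b_bft.Sorted

set_option autoImplicit false

/-!
# The law of the random vector has density `W 0`
-/

namespace Pool.Agent.BFT

open MeasureTheory

variable {P : Type} [Fintype P] [PartialOrder P]

/-- The law of the random vector: `N E f(X) = ∫ W 0 x * f x`. (From `XL_lintegral`, `law_one`,
`lintegral_finset_sum` (measurability of the indicators), and `sorted_sum` with
`lintegral_congr_ae`.) -/
theorem law [Nonempty P] (f : (P → ℝ) → ENNReal) (hf : Measurable f) :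
    (Fintype.card (LE P) : ENNReal) * ∫⁻ x, f x ∂(XL P) = ∫⁻ x : P → ℝ, W 0 x * f x := by
  classical
  rw [XL_lintegral f hf, ← mul_assoc, ENNReal.mul_inv_cancel
    (by exact_mod_cast (Fintype.card_pos (α := LE P)).ne') (ENNReal.natCast_ne_top _), one_mul]
  rw [Finset.sum_congr rfl fun σ _ => law_one σ f hf]
  have hg : ∀ σ : LE P, Measurable (fun x : P → ℝ =>
      (if (∀ v, 0 < x v) ∧ (∀ u v, x u < x v ↔ σ.1 u < σ.1 v) then
        ENNReal.ofReal (Real.exp (0 - mx x)) else 0) * f x) := by
    intro σ
    refine Measurable.mul ?_ hf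
    refine Measurable.ite (lo_set σ) ?_ measurable_const
    exact ENNReal.measurable_ofReal.comp
      (Real.measurable_exp.comp (measurable_const.sub mx_measurable))
  rw [← lintegral_finsetSum _ fun σ _ => hg σ]
  refine lintegral_congr_ae ?_
  filter_upwards [sorted_sum (P := P)] with x hx
  rw [← hx, Finset.sum_mul]

end Pool.Agent.BFT
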