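import Mathlib
import Pool.Agent.Lib_MP_33fb9b_bft.WDef

set_option autoImplicit false

/-!
# The weight is log-supermodular, shift invariant and measurable
-/

namespace Pool.Agent.BFT

open MeasureTheory

variable {P : Type} [Fintype P] [PartialOrder P] [Nonempty P]

omit [PartialOrder P] [Nonempty P] in
private theorem wlat_bdd (x : P → ℝ) : BddAbove (Set.range x) := (Set.finite_range x).bddAbove

omit [PartialOrder P] [Nonempty P] in
private theorem wlat_le_mx (x : P → ℝ) (v : P) : x v ≤ mx x := le_ciSup (wlat_bdd x) v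

omit [PartialOrder P] in
private theorem wlat_mx (x y : P → ℝ) : mx (x ⊔ y) + mx (x ⊓ y) ≤ mx x + mx y := by
  have h1 : mx (x ⊔ y) ≤ mx x ⊔ mx y := by
    unfold mx
    apply ciSup_le
    intro v
    exact sup_le_sup (wlat_le_mx x v) (wlat_le_mx y v)
  have h2 : mx (x ⊓ y) ≤ mx x ⊓ mx y := by
    unfold mx
    apply ciSup_le
    intro v
    exact inf_le_inf (wlat_le_mx x v) (wlat_le_mx y v)
  have h3 : (mx x ⊔ mx y) + (mx x ⊓ mx y) = mx x + mx y := max_add_min (mx x) (mx y)
  linarith

/-- `max (x ⊔ y) + max (x ⊓ y) ≤ max x + max y`, `(c ⊔ c') + (c ⊓ c') = c + c'`, and the conditions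
`c < x`, monotone are preserved by `⊔` and `⊓`. -/
theorem W_lsm (c c' : ℝ) (x y : P → ℝ) :
    W c x * W c' y ≤ W (c ⊔ c') (x ⊔ y) * W (c ⊓ c') (x ⊓ y) := by
  unfold W
  by_cases hx : (∀ v, c < x v) ∧ Monotone x
  · by_cases hy : (∀ v, c' < y v) ∧ Monotone y
    · have h1 : (∀ v, c ⊔ c' < (x ⊔ y) v) ∧ Monotone (x ⊔ y) := by
        refine ⟨fun v => ?_, hx.2.sup hy.2⟩
        show c ⊔ c' < x v ⊔ y v
        exact sup_lt_iff.2 ⟨lt_sup_of_lt_left (hx.1 v), lt_sup_of_lt_right (hy.1 v)⟩
      have h2 : (∀ v, c ⊓ c' < (x ⊓ y) v) ∧ Monotone (x ⊓ y) := by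
        refine ⟨fun v => ?_, hx.2.inf hy.2⟩
        show c ⊓ c' < x v ⊓ y v
        exact lt_inf_iff.2 ⟨inf_lt_of_left_lt (hx.1 v), inf_lt_of_right_lt (hy.1 v)⟩
      rw [if_pos hx, if_pos hy, if_pos h1, if_pos h2, ← ENNReal.ofReal_mul (Real.exp_pos _).le,
        ← ENNReal.ofReal_mul (Real.exp_pos _).le, ← Real.exp_add, ← Real.exp_add]
      apply ENNReal.ofReal_le_ofReal
      apply Real.exp_le_exp.2
      have h3 := wlat_mx x y
      have h4 : (c ⊔ c') + (c ⊓ c') = c + c' := max_add_min c c'
      linarith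
    · rw [if_neg hy, mul_zero]
      exact zero_le
  · rw [if_neg hx, zero_mul]
    exact zero_le

theorem W_shift (c t : ℝ) (x : P → ℝ) : W (c + t) (fun v => x v + t) = W c x := by
  unfold W
  have h1 : mx (fun v => x v + t) = mx x + t := by
    unfold mx
    exact (ciSup_add (wlat_bdd x) t).symm
  have h2 : ((∀ v, c + t < x v + t) ∧ Monotone (fun v => x v + t)) ↔ ((∀ v, c < x v) ∧ Monotone x) := by
    constructor
    · rintro ⟨h3, h4⟩
      refine ⟨fun v => by linarith [h3 v], fun a b hab => ?_⟩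
      have := h4 hab
      simp only at this
      linarith
    · rintro ⟨h3, h4⟩
      refine ⟨fun v => by linarith [h3 v], fun a b hab => ?_⟩
      have := h4 hab
      simp only
      linarith
  by_cases h : (∀ v, c < x v) ∧ Monotone x
  · rw [if_pos h, if_pos (h2.2 h), h1]
    congr 2
    ring
  · rw [if_neg h, if_neg (fun h' => h (h2.1 h'))]

theorem W_measurable : Measurable (fun p : ℝ × (P → ℝ) => W p.1 p.2) := by
  unfold W
  refine Measurable.ite ?_ ?_ measurable_const
  · have h1 : MeasurableSet {p : ℝ × (P → ℝ) | ∀ v, p.1 < p.2 v} := by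
      have e : {p : ℝ × (P → ℝ) | ∀ v, p.1 < p.2 v} = ⋂ v, {p | p.1 < p.2 v} := by
        ext p; simp
      rw [e]
      exact MeasurableSet.iInter fun v =>
        measurableSet_lt measurable_fst ((measurable_pi_apply v).comp measurable_snd)
    have h2 : MeasurableSet {p : ℝ × (P → ℝ) | Monotone p.2} := by
      have e : {p : ℝ × (P → ℝ) | Monotone p.2} =
          ⋂ a : P, ⋂ b : P, {p | a ≤ b → p.2 a ≤ p.2 b} := by
        ext p
        simp only [Set.mem_setOf_eq, Set.mem_iInter]
        exact ⟨fun h a b hab => h hab, fun h a b hab => h a b hab⟩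
      rw [e]
      refine MeasurableSet.iInter fun a => MeasurableSet.iInter fun b => ?_
      by_cases hab : a ≤ b
      · have e2 : {p : ℝ × (P → ℝ) | a ≤ b → p.2 a ≤ p.2 b} = {p | p.2 a ≤ p.2 b} := by
          ext p; simp [hab]
        rw [e2]
        exact measurableSet_le ((measurable_pi_apply a).comp measurable_snd)
          ((measurable_pi_apply b).comp measurable_snd)
      · have e2 : {p : ℝ × (P → ℝ) | a ≤ b → p.2 a ≤ p.2 b} = Set.univ := by
          ext p; simp [hab]
        rw [e2]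
        exact MeasurableSet.univ
    exact h1.inter h2
  · have h3 : Measurable (fun p : ℝ × (P → ℝ) => mx p.2) := by
      unfold mx
      exact Measurable.iSup fun v => (measurable_pi_apply v).comp measurable_snd
    exact ((measurable_fst.sub h3).exp).ennreal_ofReal

end Pool.Agent.BFT
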