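import Mathlib
import Pool.Agent.Lib_MP_33fb9b_bft.Law
import Pool.Agent.Lib_MP_33fb9b_bft.Invol
import Pool.Agent.Lib_MP_33fb9b_bft.WLat

set_option autoImplicit false

/-!
# Base change: the differences `X - X_b`
-/

namespace Pool.Agent.BFT

open MeasureTheory

variable {P : Type} [Fintype P] [PartialOrder P] [Nonempty P]

private theorem W_meas_zero : Measurable (fun x : P → ℝ => W 0 x) :=
  W_measurable.comp (measurable_const.prodMk measurable_id)

open Classical in
/-- `N E f(X - X_b + τ) = ∫ W (z b) (z[b := τ]) f(z[b := τ]) dz`.
Proof: `law` for `g x = f (x - x b + τ)`, then the substitution `x = T z` of `subst_mp`: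
`T z b = τ - z b`, `T z w - T z b + τ = (update z b τ) w`, and
`W 0 (T z) = W (z b) (update z b τ)` by `W_shift` with `t = z b`. -/
theorem base_change (b : P) (τ : ℝ) (f : (P → ℝ) → ENNReal) (hf : Measurable f) :
    (Fintype.card (LE P) : ENNReal) * ∫⁻ x, f (fun w => x w - x b + τ) ∂(XL P) =
      ∫⁻ z : P → ℝ, W (z b) (Function.update z b τ) * f (Function.update z b τ) := by
  have hg : Measurable (fun x : P → ℝ => f (fun w => x w - x b + τ)) := by
    apply hf.comp
    rw [measurable_pi_iff]
    intro w
    exact ((measurable_pi_apply w).sub (measurable_pi_apply b)).add measurable_const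
  rw [law _ hg]
  have hmeas : Measurable (fun x : P → ℝ => W 0 x * f (fun w => x w - x b + τ)) :=
    W_meas_zero.mul hg
  rw [← (subst_mp P b τ).lintegral_comp hmeas]
  apply lintegral_congr
  intro z
  have e1 : (fun w => (Function.update z b τ w - z b) - (Function.update z b τ b - z b) + τ) =
      Function.update z b τ := by
    funext w
    rw [Function.update_self]
    ring
  have e2 : W 0 (fun w => Function.update z b τ w - z b) = W (z b) (Function.update z b τ) := by
    have := W_shift 0 (z b) (fun w => Function.update z b τ w - z b)
    rw [← this]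
    congr 1
    · ring
    · funext w; ring
  rw [e2]
  congr 1
  rw [e1]

end Pool.Agent.BFT
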