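import Mathlib

set_option autoImplicit false

/-!
# The telescoping argument for an array of inversion probabilities
-/

namespace Pool.Agent.BFT

/-- the type of a triple of consecutive elements: defect, chain, `A1` -/
inductive Ty where
  | df : Ty
  | ch : Ty
  | aa : Ty
deriving DecidableEq

/-- one step of the comparison of the `Ψ` values -/
theorem CArr_psi (n : ℕ) (a : ℕ → ℕ → ℝ) (k : ℕ) (hk : k + 3 < n) (hk1 : 1 ≤ k)
    (e : ℕ → ℝ)
    (he : ∀ k, k < n → e k = ∑ j ∈ Finset.Ico (k + 1) n, a k j - ∑ i ∈ Finset.range k, a i k)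
    (h1 : a k (k + 2) = 0) (h2 : ∀ j, k + 2 < j → j < n → a k j ≤ a (k + 2) j)
    (h3 : ∀ i, i < k → a i (k + 2) ≤ a i k) (h4 : a k (k + 3) = 0)
    (h5 : a (k - 1) (k + 2) = 0) :
    a (k + 2) (k + 3) - a (k + 1) (k + 2) - a k (k + 1) + a (k - 1) k ≤ e (k + 2) - e k := by
  obtain ⟨l, rfl⟩ : ∃ l, k = l + 1 := ⟨k - 1, by omega⟩
  have e1 := he (l + 1) (by omega)
  have e2 := he (l + 1 + 2) (by omega)
  rw [Finset.sum_eq_sum_Ico_succ_bot (by omega : l + 1 + 1 < n)] at e1
  rw [Finset.sum_eq_sum_Ico_succ_bot (by omega : l + 1 + 1 + 1 < n)] at e1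
  rw [Finset.sum_eq_sum_Ico_succ_bot (by omega : l + 1 + 1 + 1 + 1 < n)] at e1
  rw [Finset.sum_eq_sum_Ico_succ_bot (by omega : l + 1 + 2 + 1 < n)] at e2
  rw [Finset.sum_range_succ] at e1
  rw [Finset.sum_range_succ, Finset.sum_range_succ, Finset.sum_range_succ] at e2
  have s1 : ∑ j ∈ Finset.Ico (l + 1 + 1 + 1 + 1 + 1) n, a (l + 1) j ≤
      ∑ j ∈ Finset.Ico (l + 1 + 2 + 1 + 1) n, a (l + 1 + 2) j := by
    apply Finset.sum_le_sum
    intro j hj
    rw [Finset.mem_Ico] at hj
    exact h2 j (by omega) hj.2
  have s2 : ∑ i ∈ Finset.range l, a i (l + 1 + 2) ≤ ∑ i ∈ Finset.range l, a i (l + 1) := by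
    apply Finset.sum_le_sum
    intro i hi
    rw [Finset.mem_range] at hi
    exact h3 i (by omega)
  have h5' : a l (l + 1 + 2) = 0 := by simpa using h5
  have h6 : l + 1 - 1 = l := by omega
  rw [h6]
  have t1 : l + 1 + 1 + 1 = l + 1 + 2 := by omega
  have t2 : l + 1 + 1 = l + 2 := by omega
  have t3 : l + 1 + 1 + 1 + 1 = l + 1 + 3 := by omega
  simp only [t1, t2, t3] at *
  linarith

theorem array_thm (n : ℕ) (a : ℕ → ℕ → ℝ) (c μ η : ℝ) (hμ : 0 ≤ μ) (hη : 2 * μ ≤ η) (hη0 : 0 < η)
    (ha0 : ∀ i j, i < j → j < n → 0 ≤ a i j) (hac : ∀ i j, i < j → j < n → a i j ≤ c)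
    (e : ℕ → ℝ)
    (he : ∀ k, k < n → e k = ∑ j ∈ Finset.Ico (k + 1) n, a k j - ∑ i ∈ Finset.range k, a i k)
    (T : ℕ → Ty)
    (hDf : ∀ k, k + 2 < n → T k = Ty.df → η ≤ e (k + 2) - e k)
    (hCh : ∀ k, k + 2 < n → T k = Ty.ch → 0 ≤ e (k + 2) - e k)
    (hA : ∀ k, k + 2 < n → T k = Ty.aa → -μ ≤ e (k + 2) - e k ∧
      c - μ ≤ e (k + 2) - e k + a k (k + 1) ∧ c - μ ≤ e (k + 2) - e k + a (k + 1) (k + 2))
    (hAm : ∀ k, k + 2 < n → T k = Ty.aa → a k (k + 2) = 0 ∧
      (∀ j, k + 2 < j → j < n → a k j ≤ a (k + 2) j) ∧ (∀ i, i < k → a i (k + 2) ≤ a i k))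
    (hCA : ∀ k, k + 3 < n → T k = Ty.ch → T (k + 1) ≠ Ty.aa)
    (hAC : ∀ k, k + 3 < n → T k = Ty.aa → T (k + 1) ≠ Ty.ch)
    (h0 : 2 < n → T 0 ≠ Ty.aa) (hlast : ∀ k, k + 3 = n → T k ≠ Ty.aa)
    (hAA : ∀ k, k + 3 < n → T k = Ty.aa → T (k + 1) = Ty.aa → a k (k + 3) = 0) :
    ∀ k, k + 2 < n → T k = Ty.ch := by
  classical
  -- partial sums
  obtain ⟨S, hS0, hS⟩ : ∃ S : ℕ → ℝ, S 0 = 0 ∧ ∀ k, S (k + 1) = S k + (e (k + 2) - e k) :=
    ⟨fun k => ∑ i ∈ Finset.range k, (e (i + 2) - e i), by simp,
      fun k => Finset.sum_range_succ _ _⟩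
  -- telescoping
  have htel : ∀ k, S k = e (k + 1) + e k - e 1 - e 0 := by
    intro k
    induction k with
    | zero => rw [hS0]; simp
    | succ k ih => rw [hS k, ih]; ring_nf
  have key : ∀ k, k + 2 ≤ n →
      ((k = 0 ∨ T (k - 1) ≠ Ty.aa) → 0 ≤ S k ∧ ((∃ i, i < k ∧ T i = Ty.df) → η ≤ S k)) ∧
      (∀ b, k = b + 1 → T b = Ty.aa → ∃ s, s ≤ b ∧ (∀ i, s ≤ i → i ≤ b → T i = Ty.aa) ∧
        η ≤ S s ∧ (s < b → a b (b + 1) * 0 + a (b + 1) (b + 2) - a (s + 1 + 1) (s + 1 + 2) +
          a s (s + 1) - a (b - 1) b ≤ S b - S (s + 1))) := by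
    intro k
    induction k with
    | zero =>
      intro _
      refine ⟨fun _ => ⟨hS0.ge, ?_⟩, ?_⟩
      · rintro ⟨i, hi, _⟩; omega
      · intro b hb; omega
    | succ k ih =>
      intro hk
      obtain ⟨ih1, ih2⟩ := ih (by omega)
      -- the bound at the end of a stretch
      have hend : ∀ b, k = b + 1 → T b = Ty.aa → η - 2 * μ ≤ S k := by
        intro b hb hTb
        obtain ⟨s, hsb, hs1, hs2, hs3⟩ := ih2 b hb hTb
        subst hb
        have hb1 := hA b (by omega) hTb
        have hs := hA s (by omega) (hs1 s le_rfl hsb)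
        rcases hsb.eq_or_lt with h | h
        · subst h
          rw [hS s]
          linarith [hb1.1]
        · have g := hs3 h
          have g1 := hS s
          have g2 := hS b
          have g3 : a (s + 1 + 1) (s + 1 + 2) ≤ c := hac _ _ (by omega) (by omega)
          have g4 : a (b - 1) b ≤ c := hac _ _ (by omega) (by omega)
          linarith [hb1.2.2, hs.2.1]
      rcases hT : T k with _ | _ | _
      · -- defect
        have hd := hDf k (by omega) hT
        refine ⟨fun _ => ?_, ?_⟩
        · have hge : 0 ≤ S k := by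
            by_cases hk0 : k = 0
            · exact (ih1 (Or.inl hk0)).1
            · by_cases hT' : T (k - 1) = Ty.aa
              · have := hend (k - 1) (by omega) hT'
                linarith
              · exact (ih1 (Or.inr hT')).1
          rw [hS k]
          exact ⟨by linarith, fun _ => by linarith⟩
        · intro b hb hTb
          obtain rfl : k = b := by omega
          rw [hT] at hTb
          exact absurd hTb (by decide)
      · -- chain
        have hd := hCh k (by omega) hT
        refine ⟨fun _ => ?_, ?_⟩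
        · have hh : k = 0 ∨ T (k - 1) ≠ Ty.aa := by
            by_cases hk0 : k = 0
            · exact Or.inl hk0
            · right
              intro hT'
              have := hAC (k - 1) (by omega) hT'
              rw [show k - 1 + 1 = k by omega] at this
              exact this hT
          obtain ⟨g1, g2⟩ := ih1 hh
          rw [hS k]
          refine ⟨by linarith, ?_⟩
          rintro ⟨i, hi, hTi⟩
          have hik : i ≠ k := by
            rintro rfl
            rw [hT] at hTi
            exact absurd hTi (by decide)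
          have := g2 ⟨i, by omega, hTi⟩
          linarith
        · intro b hb hTb
          obtain rfl : k = b := by omega
          rw [hT] at hTb
          exact absurd hTb (by decide)
      · -- A1
        refine ⟨?_, ?_⟩
        · rintro (h | h)
          · omega
          · exact absurd hT h
        · intro b hb hTb
          obtain rfl : k = b := by omega
          have hk0 : k ≠ 0 := by
            rintro rfl
            exact h0 (by omega) hT
          obtain ⟨l, rfl⟩ : ∃ l, k = l + 1 := ⟨k - 1, by omega⟩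
          by_cases hT' : T l = Ty.aa
          · obtain ⟨s, hsb, hs1, hs2, hs3⟩ := ih2 l rfl hT'
            refine ⟨s, by omega, ?_, hs2, ?_⟩
            · intro i h1 h2
              rcases h2.eq_or_lt with h | h
              · rw [h]; exact hT
              · exact hs1 i h1 (by omega)
            · intro _
              rcases hsb.eq_or_lt with h | h
              · subst h
                rw [show s + 1 - 1 = s by omega]
                linarith
              · have g := hs3 h
                have hl : 1 ≤ l := by omega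
                have p1 := hAm l (by omega) hT'
                have p4 := hAA l (by omega) hT' hT
                have p5 := hAA (l - 1) (by omega) (hs1 (l - 1) (by omega) (by omega))
                  (by rw [show l - 1 + 1 = l by omega]; exact hT')
                rw [show l - 1 + 3 = l + 2 by omega] at p5
                have p := CArr_psi n a l (by omega) hl e he p1.1 p1.2.1 p1.2.2 p4 p5
                have q := hS l
                rw [show l + 1 - 1 = l by omega, show l + 1 + 1 = l + 2 by omega,
                  show l + 1 + 2 = l + 3 by omega]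
                linarith
          · have hdf : T l = Ty.df := by
              rcases hTl : T l with _ | _ | _
              · rfl
              · exact absurd hT (hCA l (by omega) hTl)
              · exact absurd hTl hT'
            have g := (ih1 (Or.inr (by simpa using hT'))).2 ⟨l, by omega, hdf⟩
            refine ⟨l + 1, le_rfl, ?_, g, ?_⟩
            · intro i h1 h2
              obtain rfl : i = l + 1 := by omega
              exact hT
            · intro h; omega
  -- no defect
  intro k0 hk0
  have hn3 : 3 ≤ n := by omega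
  obtain ⟨m, rfl⟩ : ∃ m, n = m + 3 := ⟨n - 3, by omega⟩
  have hfin := (key (m + 1) (by omega)).1 (Or.inr (by simpa using hlast m rfl))
  have hle : S (m + 1) ≤ 0 := by
    rw [htel]
    have e0 := he 0 (by omega)
    have e1 := he 1 (by omega)
    have em := he (m + 1) (by omega)
    have em1 := he (m + 2) (by omega)
    have c0 : 0 ≤ ∑ j ∈ Finset.Ico (1 + 1) (m + 3), a 0 j :=
      Finset.sum_nonneg fun j hj => by
        rw [Finset.mem_Ico] at hj
        exact ha0 _ _ (by omega) (by omega)
    have c1 : 0 ≤ ∑ j ∈ Finset.Ico (1 + 1) (m + 3), a 1 j :=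
      Finset.sum_nonneg fun j hj => by
        rw [Finset.mem_Ico] at hj
        exact ha0 _ _ (by omega) (by omega)
    have d0 : 0 ≤ ∑ i ∈ Finset.range (m + 1), a i (m + 1) :=
      Finset.sum_nonneg fun i hi => by
        rw [Finset.mem_range] at hi
        exact ha0 _ _ (by omega) (by omega)
    have d1 : 0 ≤ ∑ i ∈ Finset.range (m + 1), a i (m + 2) :=
      Finset.sum_nonneg fun i hi => by
        rw [Finset.mem_range] at hi
        exact ha0 _ _ (by omega) (by omega)
    rw [Finset.sum_eq_sum_Ico_succ_bot (by omega : 0 + 1 < m + 3)] at e0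
    simp only [Finset.range_zero, Finset.sum_empty, sub_zero, zero_add, Finset.range_one,
      Finset.sum_singleton] at e0 e1
    rw [show m + 1 + 1 = m + 2 by omega, Finset.sum_eq_sum_Ico_succ_bot (by omega : m + 2 < m + 3)]
      at em
    rw [show m + 2 + 1 = m + 3 by omega] at em em1
    rw [Finset.Ico_self, Finset.sum_empty] at em em1
    rw [Finset.sum_range_succ] at em1
    rw [show m + 1 + 1 = m + 2 by omega]
    linarith
  have hnodf : ∀ i, i < m + 1 → T i ≠ Ty.df := by
    intro i hi hTi
    have := hfin.2 ⟨i, hi, hTi⟩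
    linarith
  have hnoaa : ∀ i, i < m + 1 → T i = Ty.ch := by
    intro i
    induction i with
    | zero =>
      intro hi
      rcases hT : T 0 with _ | _ | _
      · exact absurd hT (hnodf 0 hi)
      · rfl
      · exact absurd hT (h0 (by omega))
    | succ i ih =>
      intro hi
      have hi' := ih (by omega)
      rcases hT : T (i + 1) with _ | _ | _
      · exact absurd hT (hnodf (i + 1) hi)
      · rfl
      · exact absurd hT (hCA i (by omega) hi')
  exact hnoaa k0 (by omega)

end Pool.Agent.BFT
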