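import Mathlib
import Pool.Agent.Lib_MP_33fb9b_bft.Defs

set_option autoImplicit false

/-!
# Exchanging the elements at two consecutive places of a linear extension
-/

namespace Pool.Agent.BFT

open Pool.Agent.Gap

variable {P : Type} [Fintype P] [PartialOrder P]

/-- the exchange of the places `i` and `i + 1`, as a function on places -/
def sw (i k : ℕ) : ℕ := if k = i then i + 1 else if k = i + 1 then i else k

theorem sw_left (i : ℕ) : sw i i = i + 1 := by simp [sw]
theorem sw_right (i : ℕ) : sw i (i + 1) = i := by simp [sw]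
theorem sw_other {i k : ℕ} (h1 : k ≠ i) (h2 : k ≠ i + 1) : sw i k = k := by simp [sw, h1, h2]
theorem sw_sw (i k : ℕ) : sw i (sw i k) = k := by unfold sw; split_ifs <;> omega

/-- `IsTr i σ τ`: the linear extension `τ` arises from `σ` by exchanging the places `i`, `i+1` -/
def IsTr (i : ℕ) (σ τ : LE P) : Prop := ∀ w, pos τ w = sw i (pos σ w)

theorem IsTr.symm {i : ℕ} {σ τ : LE P} (h : IsTr i σ τ) : IsTr i τ σ := by
  intro w
  rw [h w, sw_sw]

theorem IsTr.inj {i : ℕ} {σ σ' τ : LE P} (h : IsTr i σ τ) (h' : IsTr i σ' τ) : σ = σ' := by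
  apply LE_ext
  intro w
  rw [h.symm w, h'.symm w]

/-- if the consecutive elements `u`, `v` are not in the relation `u < v`, they can be exchanged -/
theorem exists_isTr (σ : LE P) {u v : P} {i : ℕ} (hu : pos σ u = i) (hv : pos σ v = i + 1)
    (huv : ¬ u < v) : ∃ τ : LE P, IsTr i σ τ := by
  classical
  have hi : i < Fintype.card P := hu ▸ pos_lt_card σ u
  have hi1 : i + 1 < Fintype.card P := hv ▸ pos_lt_card σ v
  let s : Equiv.Perm (Fin (Fintype.card P)) := Equiv.swap ⟨i, hi⟩ ⟨i + 1, hi1⟩
  have hs : ∀ w, ((s (σ.1 w) : Fin (Fintype.card P)) : ℕ) = sw i (pos σ w) := by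
    intro w
    unfold sw pos
    by_cases h1 : (σ.1 w : ℕ) = i
    · have h2 : σ.1 w = ⟨i, hi⟩ := Fin.ext h1
      rw [if_pos h1, h2]
      simp [s]
    · rw [if_neg h1]
      by_cases h3 : (σ.1 w : ℕ) = i + 1
      · have h2 : σ.1 w = ⟨i + 1, hi1⟩ := Fin.ext h3
        rw [if_pos h3, h2]
        simp [s]
      · rw [if_neg h3]
        have h4 : s (σ.1 w) = σ.1 w := by
          apply Equiv.swap_apply_of_ne_of_ne
          · intro h; exact h1 (congrArg Fin.val h)
          · intro h; exact h3 (congrArg Fin.val h)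
        rw [h4]
  refine ⟨⟨σ.1.trans s, ?_⟩, ?_⟩
  · intro a b hab
    rcases hab.eq_or_lt with rfl | hlt
    · exact le_refl _
    have h1 := pos_lt_of_lt σ hlt
    apply Fin.mk_le_of_le_val
    show ((s (σ.1 a) : Fin (Fintype.card P)) : ℕ) ≤ ((s (σ.1 b) : Fin (Fintype.card P)) : ℕ)
    rw [hs, hs]
    unfold sw
    by_cases ha : pos σ a = i
    · by_cases hb : pos σ b = i + 1
      · exfalso
        apply huv
        have e1 : a = u := pos_inj (ha.trans hu.symm)
        have e2 : b = v := pos_inj (hb.trans hv.symm)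
        rw [← e1, ← e2]
        exact hlt
      · split_ifs <;> omega
    · split_ifs <;> omega
  · intro w
    exact hs w

open Classical in
/-- the exchange as a total function (the identity when impossible) -/
noncomputable def tr (i : ℕ) (σ : LE P) : LE P := if h : ∃ τ, IsTr i σ τ then h.choose else σ

theorem tr_isTr (σ : LE P) {u v : P} {i : ℕ} (hu : pos σ u = i) (hv : pos σ v = i + 1)
    (huv : ¬ u < v) : IsTr i σ (tr i σ) := by
  have h := exists_isTr σ hu hv huv
  unfold tr
  rw [dif_pos h]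
  exact h.choose_spec

/-- the element at a given place -/
theorem exists_at (σ : LE P) {k : ℕ} (hk : k < Fintype.card P) : ∃ w : P, pos σ w = k :=
  ⟨σ.1.symm ⟨k, hk⟩, by unfold pos; simp⟩

/-- the element strictly between two places -/
theorem exists_at_of_lt (σ : LE P) {k : ℕ} {v : P} (hk : k ≤ pos σ v) : ∃ w : P, pos σ w = k :=
  exists_at σ (lt_of_le_of_lt hk (pos_lt_card σ v))

/-- injections into linear extensions given by a relation -/
theorem Pr_le_of_rel {Q R : LE P → Prop} (T : LE P → LE P → Prop)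
    (hT : ∀ σ, Q σ → ∃ τ, T σ τ ∧ R τ)
    (hi : ∀ σ σ' τ, Q σ → Q σ' → T σ τ → T σ' τ → σ = σ') : Pr Q ≤ Pr R := by
  classical
  choose! f hf using hT
  refine Pr_le_of_inj f (fun σ hσ => (hf σ hσ).2) ?_
  intro σ τ hσ hτ h
  apply hi σ τ (f σ) hσ hτ (hf σ hσ).1
  rw [h]
  exact (hf τ hτ).1

end Pool.Agent.BFT
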