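import Mathlib
import Pool.Agent.Lib_MP_33fb9b_bft.CTr

set_option autoImplicit false

/-!
# The mean distance of `x < z` with a middle element `y` incomparable to both
-/

namespace Pool.Agent.BFT

variable {P : Type} [Fintype P] [PartialOrder P]

/-- `x y z` consecutive -/
def F11 (x y z : P) (σ : LE P) : Prop := pos σ y = pos σ x + 1 ∧ pos σ z = pos σ y + 1
/-- `x y . z` -/
def F12 (x y z : P) (σ : LE P) : Prop := pos σ y = pos σ x + 1 ∧ pos σ z = pos σ y + 2
/-- `x . y z` -/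
def F21 (x y z : P) (σ : LE P) : Prop := pos σ y = pos σ x + 2 ∧ pos σ z = pos σ y + 1
/-- `x y . . ... z` -/
def F13 (x y z : P) (σ : LE P) : Prop := pos σ y = pos σ x + 1 ∧ pos σ y + 3 ≤ pos σ z
/-- `x ... . . y z` -/
def F31 (x y z : P) (σ : LE P) : Prop := pos σ x + 3 ≤ pos σ y ∧ pos σ z = pos σ y + 1
/-- both distances at least `2`, not both equal to `2` -/
def Fg (x y z : P) (σ : LE P) : Prop :=
  pos σ x + 2 ≤ pos σ y ∧ pos σ y + 2 ≤ pos σ z ∧ pos σ x + 5 ≤ pos σ z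

/-- exchanging the consecutive elements `u`, `v` -/
theorem CTri_exch {Q R : LE P → Prop} (u v : P) (huv : ¬ u < v)
    (hQ : ∀ σ, Q σ → pos σ v = pos σ u + 1)
    (hR : ∀ σ τ, Q σ → IsTr (pos σ u) σ τ → R τ) : Pr Q ≤ Pr R := by
  refine Pr_le_of_rel (fun σ τ => IsTr (pos σ u) σ τ) ?_ ?_
  · intro σ hσ
    have h := tr_isTr σ rfl (hQ σ hσ) huv
    exact ⟨_, h, hR σ _ hσ h⟩
  · intro σ σ' τ h h' ht ht'
    have e1 := ht v
    have e2 := ht' v
    rw [hQ σ h, sw_right] at e1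
    rw [hQ σ' h', sw_right] at e2
    have e3 : pos σ u = pos σ' u := by omega
    rw [← e3] at ht'
    exact IsTr.inj ht ht'

/-- `P(x<y<z) = 1 - P(y<x) - P(z<y)` -/
theorem CTri_mid (x y z : P) (hxz : x < z) (h1 : ¬ x ≤ y) (h2 : ¬ y ≤ x) (h3 : ¬ y ≤ z)
    (h4 : ¬ z ≤ y) :
    Pr (fun σ : LE P => pos σ x < pos σ y ∧ pos σ y < pos σ z) = 1 - lt y x - lt z y := by
  have hzy : z ≠ y := fun h => h4 h.le
  have hxy : x ≠ y := fun h => h1 h.le
  have key : ∀ σ : LE P, ind (pos σ x < pos σ y ∧ pos σ y < pos σ z) =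
      1 - ind (pos σ y < pos σ x) - ind (pos σ z < pos σ y) := by
    intro σ
    have n1 := pos_ne (σ := σ) hxy
    have n2 := pos_ne (σ := σ) hzy
    have n3 := pos_lt_of_lt σ hxz
    have hnat : ((if pos σ x < pos σ y ∧ pos σ y < pos σ z then 1 else 0) : ℤ) =
        1 - (if pos σ y < pos σ x then 1 else 0) - (if pos σ z < pos σ y then 1 else 0) := by
      split_ifs <;> omega
    unfold ind
    exact_mod_cast hnat
  have hE := Ex_congr key
  simp only [Ex_sub, Ex_const] at hE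
  exact hE

/-- `x ∥ y`, `y ∥ z`, `x < z`. Proof. Pointwise, with `D = pos z - pos x`:
`D ≥ 4 [x<y<z] - 2 [F11] - [F12] - [F21] + [Fg]` on `x<y<z`, on `y<x<z`:
`D ≥ 1 + [pos x = pos y + 1, pos z = pos x + 2] + 2 [pos x = pos y + 1, pos z ≥ pos x + 3]`, on `x<z<y`:
`D ≥ 1 + [pos y = pos z + 1, pos z = pos x + 2] + 2 [pos y = pos z + 1, pos z ≥ pos x + 3]`.
Exchanging `x, y` (`tr_isTr`, `Pr_le_of_rel`): `P(F12) ≤ P(pos x = pos y + 1, pos z = pos x + 2)`,
`P(F13) ≤ P(pos x = pos y + 1, pos z ≥ pos x + 3)`; exchanging `y, z`: `P(F21) ≤ ...`, `P(F31) ≤ ...`.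
Finally `P(x<y<z) = 1 - P(y<x) - P(z<y)` (as `x < z`, exactly one of `x<y<z`, `y<x`, `z<y` happens). -/
theorem tri_strong (x y z : P) (hxz : x < z) (h1 : ¬ x ≤ y) (h2 : ¬ y ≤ x) (h3 : ¬ y ≤ z)
    (h4 : ¬ z ≤ y) :
    4 - 3 * (lt y x + lt z y) - 2 * Pr (F11 x y z) + 2 * Pr (F13 x y z) + 2 * Pr (F31 x y z) +
      Pr (Fg x y z) ≤ ht z - ht x := by
  have hzy : z ≠ y := fun h => h4 h.le
  have hxy : x ≠ y := fun h => h1 h.le
  have e12 : Pr (F12 x y z) ≤
      Pr (fun σ : LE P => pos σ x = pos σ y + 1 ∧ pos σ z = pos σ x + 2) := by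
    refine CTri_exch x y (fun h => h1 h.le) (fun σ h => h.1) ?_
    rintro σ τ ⟨a, b⟩ ht
    have t1 := ht x
    have t2 := ht y
    have t3 := ht z
    unfold sw at t1 t2 t3
    split_ifs at t1 t2 t3 <;> constructor <;> omega
  have e13 : Pr (F13 x y z) ≤
      Pr (fun σ : LE P => pos σ x = pos σ y + 1 ∧ pos σ x + 3 ≤ pos σ z) := by
    refine CTri_exch x y (fun h => h1 h.le) (fun σ h => h.1) ?_
    rintro σ τ ⟨a, b⟩ ht
    have t1 := ht x
    have t2 := ht y
    have t3 := ht z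
    unfold sw at t1 t2 t3
    split_ifs at t1 t2 t3 <;> constructor <;> omega
  have e21 : Pr (F21 x y z) ≤
      Pr (fun σ : LE P => pos σ y = pos σ z + 1 ∧ pos σ z = pos σ x + 2) := by
    refine CTri_exch y z (fun h => h3 h.le) (fun σ h => h.2) ?_
    rintro σ τ ⟨a, b⟩ ht
    have t1 := ht x
    have t2 := ht y
    have t3 := ht z
    unfold sw at t1 t2 t3
    split_ifs at t1 t2 t3 <;> constructor <;> omega
  have e31 : Pr (F31 x y z) ≤
      Pr (fun σ : LE P => pos σ y = pos σ z + 1 ∧ pos σ x + 3 ≤ pos σ z) := by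
    refine CTri_exch y z (fun h => h3 h.le) (fun σ h => h.2) ?_
    rintro σ τ ⟨a, b⟩ ht
    have t1 := ht x
    have t2 := ht y
    have t3 := ht z
    unfold sw at t1 t2 t3
    split_ifs at t1 t2 t3 <;> constructor <;> omega
  have hmid := CTri_mid x y z hxz h1 h2 h3 h4
  classical
  have key : ∀ σ : LE P,
      4 * ind (pos σ x < pos σ y ∧ pos σ y < pos σ z) - 2 * ind (F11 x y z σ) - ind (F12 x y z σ) -
        ind (F21 x y z σ) + ind (Fg x y z σ) + ind (pos σ y < pos σ x) + ind (pos σ z < pos σ y) +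
        ind (pos σ x = pos σ y + 1 ∧ pos σ z = pos σ x + 2) +
        2 * ind (pos σ x = pos σ y + 1 ∧ pos σ x + 3 ≤ pos σ z) +
        ind (pos σ y = pos σ z + 1 ∧ pos σ z = pos σ x + 2) +
        2 * ind (pos σ y = pos σ z + 1 ∧ pos σ x + 3 ≤ pos σ z) ≤ (pos σ z : ℝ) - pos σ x := by
    intro σ
    have n1 := pos_ne (σ := σ) hxy
    have n2 := pos_ne (σ := σ) hzy
    have n3 := pos_lt_of_lt σ hxz
    have hnat : (4 * (if pos σ x < pos σ y ∧ pos σ y < pos σ z then 1 else 0) -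
        2 * (if F11 x y z σ then 1 else 0) - (if F12 x y z σ then 1 else 0) -
        (if F21 x y z σ then 1 else 0) + (if Fg x y z σ then 1 else 0) +
        (if pos σ y < pos σ x then 1 else 0) + (if pos σ z < pos σ y then 1 else 0) +
        (if pos σ x = pos σ y + 1 ∧ pos σ z = pos σ x + 2 then 1 else 0) +
        2 * (if pos σ x = pos σ y + 1 ∧ pos σ x + 3 ≤ pos σ z then 1 else 0) +
        (if pos σ y = pos σ z + 1 ∧ pos σ z = pos σ x + 2 then 1 else 0) +
        2 * (if pos σ y = pos σ z + 1 ∧ pos σ x + 3 ≤ pos σ z then 1 else 0) : ℤ) ≤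
        (pos σ z : ℤ) - pos σ x := by
      unfold F11 F12 F21 Fg
      split_ifs <;> omega
    unfold ind
    exact_mod_cast hnat
  have hE := Ex_mono key
  simp only [Ex_add, Ex_sub, Ex_mul] at hE
  unfold lt at hmid ⊢
  unfold ht
  unfold Pr at *
  linarith

/-- `P(x<y<z) = 1 - P(y<x) - P(z<y)` -/
theorem mid_eq (x y z : P) (hxz : x < z) (h1 : ¬ x ≤ y) (h2 : ¬ y ≤ x) (h3 : ¬ y ≤ z)
    (h4 : ¬ z ≤ y) :
    Pr (fun σ : LE P => pos σ x < pos σ y ∧ pos σ y < pos σ z) = 1 - lt y x - lt z y :=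
  CTri_mid x y z hxz h1 h2 h3 h4

/-- `P(y = x+1) = P(F11) + P(F12) + P(F13)` -/
theorem row_eq (x y z : P) (hxz : x < z) (h2 : ¬ y ≤ x) (h4 : ¬ z ≤ y) :
    nxt x y 1 = Pr (F11 x y z) + Pr (F12 x y z) + Pr (F13 x y z) := by
  have hzy : z ≠ y := fun h => h4 h.le
  classical
  have key : ∀ σ : LE P, ind (pos σ y = pos σ x + 1) =
      ind (F11 x y z σ) + ind (F12 x y z σ) + ind (F13 x y z σ) := by
    intro σ
    have n2 := pos_ne (σ := σ) hzy
    have n3 := pos_lt_of_lt σ hxz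
    have hnat : ((if pos σ y = pos σ x + 1 then 1 else 0) : ℤ) =
        (if F11 x y z σ then 1 else 0) + (if F12 x y z σ then 1 else 0) +
          (if F13 x y z σ then 1 else 0) := by
      unfold F11 F12 F13
      split_ifs <;> omega
    unfold ind
    exact_mod_cast hnat
  have hE := Ex_congr key
  simp only [Ex_add] at hE
  exact hE

/-- `P(z = y+1) = P(F11) + P(F21) + P(F31)` -/
theorem col_eq (x y z : P) (hxz : x < z) (h2 : ¬ y ≤ x) (h4 : ¬ z ≤ y) :
    nxt y z 1 = Pr (F11 x y z) + Pr (F21 x y z) + Pr (F31 x y z) := by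
  have hyx : y ≠ x := fun h => h2 h.le
  classical
  have key : ∀ σ : LE P, ind (pos σ z = pos σ y + 1) =
      ind (F11 x y z σ) + ind (F21 x y z σ) + ind (F31 x y z σ) := by
    intro σ
    have n2 := pos_ne (σ := σ) hyx
    have n3 := pos_lt_of_lt σ hxz
    have hnat : ((if pos σ z = pos σ y + 1 then 1 else 0) : ℤ) =
        (if F11 x y z σ then 1 else 0) + (if F21 x y z σ then 1 else 0) +
          (if F31 x y z σ then 1 else 0) := by
      unfold F11 F21 F31
      split_ifs <;> omega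
    unfold ind
    exact_mod_cast hnat
  have hE := Ex_congr key
  simp only [Ex_add] at hE
  exact hE

end Pool.Agent.BFT
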