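import Mathlib
import Pool.Agent.Lib_MP_33fb9b_bft.CTri

set_option autoImplicit false

/-!
# Two consecutive triples of type A1 whose outer elements are incomparable
-/

namespace Pool.Agent.BFT

variable {P : Type} [Fintype P] [PartialOrder P]

/-- Let `F21 y z v` hold for `σ`: `y w z v` consecutive, `pos z = pos y + 2`, `pos v = pos z + 1`.
If `w = x`: `y x z v -> y x v z -> y v x z` (exchange `z, v`, then `x, v`; `¬ z < v`, `¬ x < v`), in
`{pos x = pos y + 2} ⊆ {y < x, not adjacent}`. If `w ≠ x` then `x` is before `y` (`x < z`), and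
`y w z v -> y w v z` (exchange `z, v`) gives `pos z = pos y + 3`, `x` before `y`: type `F13` if
`pos y = pos x + 1` and `Fg` otherwise. -/
theorem break_le (x y z v : P) (hxz : x < z) (hyv : y < v) (h1 : ¬ x ≤ y) (h2 : ¬ y ≤ x)
    (h3 : ¬ z ≤ v) (hxv : ¬ x ≤ v) :
    Pr (F21 y z v) ≤ Pr (F13 x y z) + Pr (Fg x y z) + (lt y x - nxt y x 1) := by
  classical
  have hxy : x ≠ y := fun h => h1 h.le
  -- first case: `x` is the element between `y` and `z`
  have eA : Pr (fun σ : LE P => F21 y z v σ ∧ pos σ x = pos σ y + 1) ≤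
      Pr (fun σ : LE P => pos σ x = pos σ y + 1 ∧ pos σ v = pos σ x + 1) := by
    refine CTri_exch z v (fun h => h3 h.le) (fun σ h => h.1.2) ?_
    rintro σ τ ⟨⟨a, b⟩, c⟩ ht
    have t1 := ht x
    have t2 := ht y
    have t4 := ht v
    unfold sw at t1 t2 t4
    split_ifs at t1 t2 t4 <;> constructor <;> omega
  have eB : Pr (fun σ : LE P => pos σ x = pos σ y + 1 ∧ pos σ v = pos σ x + 1) ≤
      Pr (fun σ : LE P => pos σ y + 2 ≤ pos σ x) := by
    refine CTri_exch x v (fun h => hxv h.le) (fun σ h => h.2) ?_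
    rintro σ τ ⟨a, b⟩ ht
    have t1 := ht x
    have t2 := ht y
    unfold sw at t1 t2
    split_ifs at t1 t2 <;> omega
  -- second case
  have eC : Pr (fun σ : LE P => F21 y z v σ ∧ pos σ x ≠ pos σ y + 1) ≤
      Pr (fun σ : LE P => F13 x y z σ ∨ Fg x y z σ) := by
    refine CTri_exch z v (fun h => h3 h.le) (fun σ h => h.1.2) ?_
    rintro σ τ ⟨⟨a, b⟩, c⟩ ht
    have n3 := pos_lt_of_lt σ hxz
    have n1 := pos_ne (σ := σ) hxy
    have t1 := ht x
    have t2 := ht y
    have t3 := ht z
    unfold sw at t1 t2 t3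
    unfold F13 Fg
    split_ifs at t1 t2 t3 <;> omega
  have kA : ∀ σ : LE P, ind (F21 y z v σ) =
      ind (F21 y z v σ ∧ pos σ x = pos σ y + 1) + ind (F21 y z v σ ∧ pos σ x ≠ pos σ y + 1) := by
    intro σ
    have hnat : ((if F21 y z v σ then 1 else 0) : ℤ) =
        (if F21 y z v σ ∧ pos σ x = pos σ y + 1 then 1 else 0) +
          (if F21 y z v σ ∧ pos σ x ≠ pos σ y + 1 then 1 else 0) := by
      unfold F21
      split_ifs <;> omega
    unfold ind
    exact_mod_cast hnat
  have kB : ∀ σ : LE P, ind (F13 x y z σ ∨ Fg x y z σ) ≤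
      ind (F13 x y z σ) + ind (Fg x y z σ) := by
    intro σ
    have hnat : ((if F13 x y z σ ∨ Fg x y z σ then 1 else 0) : ℤ) ≤
        (if F13 x y z σ then 1 else 0) + (if Fg x y z σ then 1 else 0) := by
      unfold F13 Fg
      split_ifs <;> omega
    unfold ind
    exact_mod_cast hnat
  have kC : ∀ σ : LE P, ind (pos σ y < pos σ x) =
      ind (pos σ x = pos σ y + 1) + ind (pos σ y + 2 ≤ pos σ x) := by
    intro σ
    have hnat : ((if pos σ y < pos σ x then 1 else 0) : ℤ) =
        (if pos σ x = pos σ y + 1 then 1 else 0) + (if pos σ y + 2 ≤ pos σ x then 1 else 0) := by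
      split_ifs <;> omega
    unfold ind
    exact_mod_cast hnat
  have hA := Ex_congr kA
  have hB := Ex_mono kB
  have hC := Ex_congr kC
  simp only [Ex_add] at hA hB hC
  unfold lt nxt
  unfold Pr at *
  linarith

end Pool.Agent.BFT
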