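import Mathlib
import Pool.Agent.Lib_MP_33fb9b_bft.CTri

set_option autoImplicit false

/-!
# The first and the last triple
-/

namespace Pool.Agent.BFT

variable {P : Type} [Fintype P] [PartialOrder P]

private theorem cedge_aux (u v : P) :
    Pr (fun σ : LE P => pos σ v = pos σ u + 2) ≤ lt u v - nxt u v 1 := by
  have h : Pr (fun σ : LE P => pos σ v = pos σ u + 2) + nxt u v 1 ≤ lt u v := by
    unfold nxt lt Pr
    rw [← Ex_add]
    apply Ex_mono
    intro σ
    by_cases h1 : pos σ v = pos σ u + 2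
    · rw [ind_true h1, ind_false (by omega), ind_true (by omega)]
      norm_num
    · rw [ind_false h1, zero_add]
      exact ind_mono (fun h => by omega)
  linarith

/-- If no element except `x`, `y` (`y` is not) is below `z`: the map `x w y z -> x w z y -> x z w y`
(exchange `y, z`, then `w, z`; allowed since `¬ y < z` and `¬ w < z`) injects `F21` into
`{pos y = pos z + 2} ⊆ {z < y, not adjacent}`. -/
theorem edge_low (x y z : P) (h3 : ¬ y ≤ z) (hw : ∀ w, w ≠ x → w ≠ y → ¬ w < z) :
    Pr (F21 x y z) ≤ lt z y - nxt z y 1 := by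
  refine le_trans ?_ (cedge_aux z y)
  refine Pr_le_of_rel (fun σ τ => ∃ ρ, IsTr (pos σ x + 2) σ ρ ∧ IsTr (pos σ x + 1) ρ τ) ?_ ?_
  · intro σ hσ
    obtain ⟨e1, e2⟩ := hσ
    obtain ⟨w, hwp⟩ := exists_at_of_lt σ (k := pos σ x + 1) (v := y) (by omega)
    have hwx : w ≠ x := by rintro rfl; omega
    have hwy : w ≠ y := by rintro rfl; omega
    have hyz : ¬ y < z := fun h => h3 h.le
    have t1 := tr_isTr σ (u := y) (v := z) (i := pos σ x + 2) e1 (by omega) hyz
    have r1 := t1 w
    rw [hwp, sw_other (by omega) (by omega)] at r1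
    have r2 := t1 z
    rw [show pos σ z = (pos σ x + 2) + 1 by omega, sw_right] at r2
    have r3 := t1 y
    rw [e1, sw_left] at r3
    have t2 := tr_isTr (tr (pos σ x + 2) σ) (u := w) (v := z) (i := pos σ x + 1) r1
      (by omega) (hw w hwx hwy)
    refine ⟨_, ⟨_, t1, t2⟩, ?_⟩
    have s1 := t2 z
    have s0 : sw (pos σ x + 1) (pos σ x + 2) = pos σ x + 1 := sw_right _
    rw [r2, s0] at s1
    have s2 := t2 y
    rw [r3, sw_other (by omega) (by omega)] at s2
    omega
  · rintro σ σ' τ hσ hσ' ⟨ρ, a1, a2⟩ ⟨ρ', b1, b2⟩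
    have c1 := a2 x
    rw [a1 x, sw_other (i := pos σ x + 2) (by omega) (by omega), sw_other (by omega) (by omega)] at c1
    have c2 := b2 x
    rw [b1 x, sw_other (i := pos σ' x + 2) (by omega) (by omega),
      sw_other (by omega) (by omega)] at c2
    have e : pos σ' x = pos σ x := by omega
    rw [e] at b1 b2
    have f1 : ρ = ρ' := a2.inj b2
    subst f1
    exact a1.inj b1

/-- Mirror image: `x y w z -> y x w z -> y w x z`. -/
theorem edge_high (x y z : P) (h1 : ¬ x ≤ y) (hw : ∀ w, w ≠ y → w ≠ z → ¬ x < w) :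
    Pr (F12 x y z) ≤ lt y x - nxt y x 1 := by
  refine le_trans ?_ (cedge_aux y x)
  refine Pr_le_of_rel (fun σ τ => ∃ ρ, IsTr (pos σ x) σ ρ ∧ IsTr (pos σ x + 1) ρ τ) ?_ ?_
  · intro σ hσ
    obtain ⟨e1, e2⟩ := hσ
    obtain ⟨w, hwp⟩ := exists_at_of_lt σ (k := pos σ x + 2) (v := z) (by omega)
    have hwy : w ≠ y := by rintro rfl; omega
    have hwz : w ≠ z := by rintro rfl; omega
    have hxy : ¬ x < y := fun h => h1 h.le
    have t1 := tr_isTr σ (u := x) (v := y) (i := pos σ x) rfl e1 hxy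
    have r1 := t1 w
    rw [hwp, sw_other (by omega) (by omega)] at r1
    have r2 := t1 x
    rw [sw_left] at r2
    have r3 := t1 y
    rw [e1, sw_right] at r3
    have t2 := tr_isTr (tr (pos σ x) σ) (u := x) (v := w) (i := pos σ x + 1) r2
      (by omega) (hw w hwy hwz)
    refine ⟨_, ⟨_, t1, t2⟩, ?_⟩
    have s1 := t2 x
    rw [r2, sw_left] at s1
    have s2 := t2 y
    rw [r3, sw_other (by omega) (by omega)] at s2
    omega
  · rintro σ σ' τ hσ hσ' ⟨ρ, a1, a2⟩ ⟨ρ', b1, b2⟩
    obtain ⟨e1, e2⟩ := hσ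
    obtain ⟨e1', e2'⟩ := hσ'
    have c1 := a2 z
    rw [a1 z, sw_other (i := pos σ x) (by omega) (by omega), sw_other (by omega) (by omega)] at c1
    have c2 := b2 z
    rw [b1 z, sw_other (i := pos σ' x) (by omega) (by omega),
      sw_other (by omega) (by omega)] at c2
    have e : pos σ' x = pos σ x := by omega
    rw [e] at b1 b2
    have f1 : ρ = ρ' := a2.inj b2
    subst f1
    exact a1.inj b1

end Pool.Agent.BFT
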