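import Mathlib
import Pool.Agent.Lib_MP_33fb9b_bft.Defs

set_option autoImplicit false

/-!
# Mean heights in terms of the pair probabilities
-/

namespace Pool.Agent.BFT

variable {P : Type} [Fintype P] [PartialOrder P]

private theorem CHt_pos (σ : LE P) (v : P) :
    (pos σ v : ℝ) = ∑ w : P, ind (pos σ w < pos σ v) := by
  classical
  have h1 : ∑ w : P, ind (pos σ w < pos σ v) =
      ∑ x : Fin (Fintype.card P), ind ((x : ℕ) < pos σ v) :=
    Equiv.sum_comp σ.1 (fun x : Fin (Fintype.card P) => ind ((x : ℕ) < pos σ v))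
  rw [h1]
  unfold ind
  have h2 : ∑ x : Fin (Fintype.card P), (if (x : ℕ) < pos σ v then (1 : ℝ) else 0) =
      ∑ x ∈ Finset.range (Fintype.card P), (if x < pos σ v then (1 : ℝ) else 0) :=
    Fin.sum_univ_eq_sum_range (fun x : ℕ => if x < pos σ v then (1 : ℝ) else 0) _
  have h3 : (Finset.range (Fintype.card P)).filter (fun x => x < pos σ v) =
      Finset.range (pos σ v) := by
    ext x
    have := pos_lt_card σ v
    simp only [Finset.mem_filter, Finset.mem_range]
    omega
  have h4 : ∑ x ∈ Finset.range (Fintype.card P), (if x < pos σ v then (1 : ℝ) else 0) =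
      (pos σ v : ℝ) := by
    rw [← Finset.sum_filter, h3]
    simp
  rw [← h4, ← h2]
  apply Finset.sum_congr rfl
  intro x _
  congr

/-- `pos σ v` is the number of elements before `v`, so `ht v = ∑_w lt w v` (`lt v v = 0`). -/
theorem ht_eq (v : P) : ht v = ∑ w : P, lt w v := by
  unfold ht lt Pr
  rw [← Ex_sum]
  exact Ex_congr fun σ => CHt_pos σ v

/-- In an enumeration `f` of `P`: `ht (f k) - k = ∑_{j>k} lt (f j) (f k) - ∑_{i<k} lt (f k) (f i)`
(`lt (f i) (f k) = 1 - lt (f k) (f i)` for `i < k`). -/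
theorem ht_enum (n : ℕ) (f : Fin n ≃ P) (k : Fin n) :
    ht (f k) - (k : ℕ) = ∑ j ∈ Finset.univ.filter (fun j => k < j), lt (f j) (f k) -
      ∑ i ∈ Finset.univ.filter (fun i => i < k), lt (f k) (f i) := by
  classical
  have h0 : lt (f k) (f k) = 0 := Pr_false fun σ => lt_irrefl _
  have h1 : ht (f k) = ∑ j : Fin n, lt (f j) (f k) := by
    rw [ht_eq, ← Equiv.sum_comp f (fun w => lt w (f k))]
  have h2 : ∑ j : Fin n, lt (f j) (f k) =
      ∑ j ∈ Finset.univ.filter (fun j => k < j), lt (f j) (f k) +
        ∑ j ∈ Finset.univ.filter (fun j => ¬ k < j), lt (f j) (f k) :=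
    (Finset.sum_filter_add_sum_filter_not _ _ _).symm
  have h3 : Finset.univ.filter (fun j : Fin n => ¬ k < j) =
      insert k (Finset.univ.filter (fun j : Fin n => j < k)) := by
    ext j
    simp only [Finset.mem_filter, Finset.mem_univ, true_and, Finset.mem_insert, not_lt]
    exact le_iff_eq_or_lt
  have h4 : ∑ j ∈ Finset.univ.filter (fun j => ¬ k < j), lt (f j) (f k) =
      ∑ j ∈ Finset.univ.filter (fun j : Fin n => j < k), lt (f j) (f k) := by
    rw [h3, Finset.sum_insert (by simp), h0, zero_add]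
  have h5 : ∑ j ∈ Finset.univ.filter (fun j : Fin n => j < k), lt (f j) (f k) =
      ∑ j ∈ Finset.univ.filter (fun j : Fin n => j < k), (1 - lt (f k) (f j)) := by
    apply Finset.sum_congr rfl
    intro j hj
    have hjk : j < k := (Finset.mem_filter.mp hj).2
    have := lt_add (u := f j) (v := f k) (fun h => hjk.ne (f.injective h))
    linarith
  have h6 : ∑ j ∈ Finset.univ.filter (fun j : Fin n => j < k), (1 : ℝ) = (k : ℕ) := by
    rw [Finset.sum_const, nsmul_eq_mul, mul_one]
    have : (Finset.univ.filter (fun j : Fin n => j < k)).card = (k : ℕ) := by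
      have h7 : Finset.univ.filter (fun j : Fin n => j < k) = Finset.Iio k := by
        ext j; simp
      rw [h7, Fin.card_Iio]
    rw [this]
  rw [h1, h2, h4, h5, Finset.sum_sub_distrib, h6]
  ring

end Pool.Agent.BFT
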