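import Mathlib
import Pool.Agent.Lib_MP_33fb9b_bft.Defs

set_option autoImplicit false

/-!
# The majority order
-/

namespace Pool.Agent.BFT

variable {P : Type} [Fintype P] [PartialOrder P]

private theorem CMaj_tri (u v w : P) : lt w u ≤ lt w v + lt v u := by
  unfold lt Pr
  rw [← Ex_add]
  apply Ex_mono
  intro σ
  by_cases h : pos σ w < pos σ u
  · rw [ind_true h]
    by_cases h1 : pos σ w < pos σ v
    · rw [ind_true h1]
      have := ind_nonneg (pos σ v < pos σ u)
      linarith
    · have h2 : pos σ v < pos σ u := by omega
      rw [ind_true h2]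
      have := ind_nonneg (pos σ w < pos σ v)
      linarith
  · rw [ind_false h]
    have h1 := ind_nonneg (pos σ v < pos σ u)
    have h2 := ind_nonneg (pos σ w < pos σ v)
    linarith

/-- If every pair is unbalanced, `u ≺ v :⇔ lt v u < c` is a linear order; its enumeration.
Total by `h`; transitive: `P(w<u) ≤ P(w<v) + P(v<u) < 2c ≤ 1 - c`, so `lt w u < c` by `h` and `lt_add`;
then e.g. sort, or take an enumeration `f` by induction / `Finset.exists_minimal`, or define a
`LinearOrder` on a type synonym and use `Fintype.orderIsoFinOfCardEq`. -/
theorem majority (c : ℝ) (hc : 3 * c ≤ 1) (h : ∀ u v : P, u ≠ v → lt u v < c ∨ lt v u < c) :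
    ∃ f : Fin (Fintype.card P) ≃ P, ∀ i j, i < j → lt (f j) (f i) < c := by
  classical
  let LO : LinearOrder P :=
    { le := fun u v => u = v ∨ lt v u < c
      lt := fun u v => (u = v ∨ lt v u < c) ∧ ¬ (v = u ∨ lt u v < c)
      le_refl := fun u => Or.inl rfl
      le_trans := by
        intro u v w h1 h2
        rcases h1 with rfl | h1
        · exact h2
        rcases h2 with rfl | h2
        · exact Or.inr h1
        by_cases huw : u = w
        · exact Or.inl huw
        refine Or.inr ?_
        rcases h w u (Ne.symm huw) with h3 | h3
        · exact h3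
        · exfalso
          have h4 := CMaj_tri u v w
          have h5 := lt_add huw
          linarith
      le_antisymm := by
        intro u v h1 h2
        by_contra hne
        rcases h1 with h1 | h1
        · exact hne h1
        rcases h2 with h2 | h2
        · exact hne h2.symm
        have h5 := lt_add hne
        have h6 := lt_nonneg u v
        have h7 := lt_nonneg v u
        linarith
      le_total := by
        intro u v
        by_cases huv : u = v
        · exact Or.inl (Or.inl huv)
        rcases h u v huv with h1 | h1
        · exact Or.inr (Or.inr h1)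
        · exact Or.inl (Or.inr h1)
      toDecidableLE := Classical.decRel _
      lt_iff_le_not_ge := fun u v => Iff.rfl }
  let e := @Fintype.orderIsoFinOfCardEq P LO _ _ rfl
  refine ⟨e.toEquiv, ?_⟩
  intro i j hij
  have h1 : LO.lt (e i) (e j) := (@OrderIso.lt_iff_lt _ _ _ LO.toPreorder e i j).2 hij
  have h2 : (e i = e j ∨ lt (e j) (e i) < c) ∧ ¬ (e j = e i ∨ lt (e i) (e j) < c) := h1
  rcases h2.1 with h3 | h3
  · exact absurd (Or.inl h3.symm) h2.2
  · exact h3

end Pool.Agent.BFT
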