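import Mathlib

set_option autoImplicit false

/-!
# Numerical lemmas for triples of type A1
-/

namespace Pool.Agent.BFT

/-- upper bound for the probability of a consecutive triple -/
private theorem cnum_u (q r u : ℝ) (hq0 : 0 ≤ q) (hr0 : 0 ≤ r) (hq : q ≤ 0.277) (hr : r ≤ 0.277)
    (hu : u * (1 - q - r) ≤ q * r) : u ≤ 0.173 := by
  by_contra hc
  push Not at hc
  have hd : 0 < 1 - q - r := by linarith
  have h1 : 0.173 * (1 - q - r) < u * (1 - q - r) := mul_lt_mul_of_pos_right hc hd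
  have h2 : q * r ≤ 0.277 * r := mul_le_mul_of_nonneg_right hq hr0
  nlinarith

/-- the tight inequality at the corner -/
private theorem cnum_corner (q r : ℝ) (hq0 : 0 ≤ q) (hr0 : 0 ≤ r) (hq : q ≤ 0.277)
    (hr : r ≤ 0.277) : 2 * (q * r) ≤ (2.0061 - 3 * (q + r)) * (1 - q - r) := by
  have h1 : 4 * (q * r) ≤ (q + r) * (q + r) := by nlinarith [mul_self_nonneg (q - r)]
  have h2 : 0 ≤ (0.554 - (q + r)) * (5.0061 - 2.5 * ((q + r) + 0.554)) :=
    mul_nonneg (by linarith) (by linarith)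
  nlinarith

/-- general lower bound and its stability; `E` is the mean distance, `q, r` the inversion
probabilities, `u = P(x y z consecutive)`. From `u ≤ q r / (1-q-r)`: `4 - 3(q+r) - 2qr/(1-q-r)` is decreasing
in `q` and `r` with slope `≤ -3`, and equals `1.993924` at `q = r = 0.277`. -/
theorem num_low (q r u E : ℝ) (hq0 : 0 ≤ q) (hr0 : 0 ≤ r) (hq : q ≤ 0.277) (hr : r ≤ 0.277)
    (hu : u * (1 - q - r) ≤ q * r) (hE : 4 - 3 * (q + r) - 2 * u ≤ E) :
    2 - 0.0061 ≤ E ∧ 2 + 0.277 - 0.0061 ≤ E + q ∧ 2 + 0.277 - 0.0061 ≤ E + r := by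
  have hd : 0 < 1 - q - r := by linarith
  have key : ∀ c : ℝ, 2 * (q * r) ≤ c * (1 - q - r) → 2 * u ≤ c := by
    intro c hc
    by_contra hcon
    push Not at hcon
    have h1 : c * (1 - q - r) < 2 * u * (1 - q - r) := mul_lt_mul_of_pos_right hcon hd
    linarith
  refine ⟨?_, ?_, ?_⟩
  · have h := key _ (cnum_corner q r hq0 hr0 hq hr)
    linarith
  · have h : 2 * (q * r) ≤ (1.7291 - 2 * q - 3 * r) * (1 - q - r) := by
      have h1 := cnum_corner q r hq0 hr0 hq hr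
      have h2 : 0 ≤ (0.277 - q) * (0.277 - r) := mul_nonneg (by linarith) (by linarith)
      have h3 : 0 ≤ (0.277 - q) * q := mul_nonneg (by linarith) hq0
      have h4 : 0 ≤ (0.277 - r) * r := mul_nonneg (by linarith) hr0
      have h5 : 0 ≤ (0.277 - q) * r := mul_nonneg (by linarith) hr0
      have h6 : 0 ≤ (0.277 - r) * q := mul_nonneg (by linarith) hq0
      nlinarith
    have h' := key _ h
    linarith
  · have h : 2 * (q * r) ≤ (1.7291 - 3 * q - 2 * r) * (1 - q - r) := by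
      have h2 : 0 ≤ (0.277 - q) * (0.277 - r) := mul_nonneg (by linarith) (by linarith)
      have h3 : 0 ≤ (0.277 - q) * q := mul_nonneg (by linarith) hq0
      have h4 : 0 ≤ (0.277 - r) * r := mul_nonneg (by linarith) hr0
      have h5 : 0 ≤ (0.277 - q) * r := mul_nonneg (by linarith) hr0
      have h6 : 0 ≤ (0.277 - r) * q := mul_nonneg (by linarith) hq0
      nlinarith
    have h' := key _ h
    linarith

/-- edge triples: `C = u + m + β` (`m = F21`, `β = F31`), `R C ≥ u (1-q-r)`, `m ≤ r - C`.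
(`E ≥ 2.08` numerically.) -/
theorem num_edge (q r R C u m β E : ℝ) (hq0 : 0 ≤ q) (hr0 : 0 ≤ r) (hq : q ≤ 0.277)
    (hr : r ≤ 0.277) (hR : R ≤ q) (hC0 : 0 ≤ C) (hu0 : 0 ≤ u) (hm : 0 ≤ m) (hβ : 0 ≤ β)
    (hu : u * (1 - q - r) ≤ R * C) (hC : C = u + m + β) (hm2 : m ≤ r - C)
    (hE : 4 - 3 * (q + r) - 2 * u + 2 * β ≤ E) : 2.0125 ≤ E := by
  have hC2 : 2 * C ≤ r + u + β := by linarith
  have h1 : R * C ≤ q * C := mul_le_mul_of_nonneg_right hR hC0
  have h2 : q * (2 * C) ≤ q * (r + u + β) := mul_le_mul_of_nonneg_left hC2 hq0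
  have hD : 0 < 2 - 3 * q - 2 * r := by linarith
  have h3 : u * (2 - 3 * q - 2 * r) ≤ q * (r + β) := by nlinarith
  have h4 : q * r ≤ 0.277 * r := mul_le_mul_of_nonneg_right hq hr0
  have h5 : q * β ≤ 0.277 * β := mul_le_mul_of_nonneg_right hq hβ
  have h6 : 2 * (q * (r + β)) ≤ (1.9875 - 3 * (q + r) + 2 * β) * (2 - 3 * q - 2 * r) := by
    have e1 : 0 ≤ (0.277 - q) * (0.277 - r) := mul_nonneg (by linarith) (by linarith)
    have e2 : 0 ≤ (0.277 - q) * q := mul_nonneg (by linarith) hq0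
    have e3 : 0 ≤ (0.277 - r) * r := mul_nonneg (by linarith) hr0
    have e4 : 0 ≤ (0.277 - q) * r := mul_nonneg (by linarith) hr0
    have e5 : 0 ≤ (0.277 - r) * q := mul_nonneg (by linarith) hq0
    have e6 : 0 ≤ (0.277 - q) * β := mul_nonneg (by linarith) hβ
    have e7 : 0 ≤ (0.277 - r) * β := mul_nonneg (by linarith) hβ
    nlinarith
  by_contra hcon
  push Not at hcon
  have h7 : 1.9875 - 3 * (q + r) + 2 * β < 2 * u := by linarith
  have h8 := mul_lt_mul_of_pos_right h7 hD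
  linarith

/-- two consecutive triples `(x,y,z)`, `(y,z,v)` of type A1; `m' = F21 y z v`,
`C' = u' + m' + β'`, and `m' ≤ α + γ + (q - R)` where `α = F13 x y z`, `γ = Fg x y z`. Then one of the two mean
distances is large. (From the second triple: `E' - 2 + 2 m' ≥ 0.2038`; from the first one, with
`u (1-q-r) ≤ R C ≤ R r`: `E - 2 ≥ -0.0061 + α + γ + (q - R)` as soon as `E < 2.0125`.) -/
theorem num_break (q r R C u α γ E q' r' R' C' u' m' β' E' : ℝ)
    (hq0 : 0 ≤ q) (hr0 : 0 ≤ r) (hq : q ≤ 0.277) (hr : r ≤ 0.277) (hR0 : 0 ≤ R) (hR : R ≤ q)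
    (hC0 : 0 ≤ C) (hC : C ≤ r) (hu0 : 0 ≤ u) (hα : 0 ≤ α) (hγ : 0 ≤ γ)
    (hu : u * (1 - q - r) ≤ R * C) (hE : 4 - 3 * (q + r) - 2 * u + 2 * α + γ ≤ E)
    (hq0' : 0 ≤ q') (hr0' : 0 ≤ r') (hq' : q' ≤ 0.277) (hr' : r' ≤ 0.277) (hR' : R' ≤ q')
    (hC0' : 0 ≤ C') (hCr' : C' ≤ r') (hu0' : 0 ≤ u') (hm' : 0 ≤ m') (hβ' : 0 ≤ β')
    (hu' : u' * (1 - q' - r') ≤ R' * C') (hC' : C' = u' + m' + β')
    (hE' : 4 - 3 * (q' + r') - 2 * u' + 2 * β' ≤ E')
    (hm : m' ≤ α + γ + (q - R)) : 2.0125 ≤ E ∨ 2.0125 ≤ E' := by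
  by_contra hcon
  push Not at hcon
  obtain ⟨hE1, hE2⟩ := hcon
  -- second triple
  have a1 : R' * C' ≤ q' * C' := mul_le_mul_of_nonneg_right hR' hC0'
  have a2 : q' * C' ≤ q' * r' := mul_le_mul_of_nonneg_left hCr' hq0'
  have a3 : u' ≤ 0.173 := cnum_u q' r' u' hq0' hr0' hq' hr' (by linarith)
  have a4 : u' * (1 - 2 * q' - r') ≤ q' * (m' + β') := by
    have : q' * C' = q' * u' + q' * (m' + β') := by rw [hC']; ring
    nlinarith
  have a5 : 0.169 * u' ≤ u' * (1 - 2 * q' - r') := by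
    have : 0 ≤ u' * ((1 - 2 * q' - r') - 0.169) := mul_nonneg hu0' (by linarith)
    nlinarith
  have a6 : q' * (m' + β') ≤ 0.277 * (m' + β') :=
    mul_le_mul_of_nonneg_right hq' (by linarith)
  have a7 : 0.09 ≤ m' := by linarith
  -- first triple
  have b1 : R * C ≤ R * r := mul_le_mul_of_nonneg_left hC hR0
  have b2 : R * r ≤ q * r := mul_le_mul_of_nonneg_right hR hr0
  have b3 : u ≤ 0.173 := cnum_u q r u hq0 hr0 hq hr (by linarith)
  have b4 : 0.547 ≤ q + r := by linarith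
  have hd : 0 < 1 - q - r := by linarith
  have b5 : (1 - q - r) * (q - R) ≤ 2 * r * (q - R) :=
    mul_le_mul_of_nonneg_right (by linarith) (by linarith)
  have b6 := cnum_corner q r hq0 hr0 hq hr
  have b7 : 2 * (R * r) ≤ (2.0061 - 3 * (q + r) - (q - R)) * (1 - q - r) := by nlinarith
  have b8 : 2 * u ≤ 2.0061 - 3 * (q + r) - (q - R) := by
    by_contra hc
    push Not at hc
    have h1 := mul_lt_mul_of_pos_right hc hd
    linarith
  linarith

end Pool.Agent.BFT
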