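import Mathlib
import Pool.Agent.Lib_MP_33fb9b_bft.BaseCh
import Pool.Agent.Lib_MP_33fb9b_bft.AdPi

set_option autoImplicit false

/-!
# The master inequality
-/

namespace Pool.Agent.BFT

open MeasureTheory

variable {P : Type} [Fintype P] [PartialOrder P] [Nonempty P]

open Classical in
private theorem meas_int (b : P) (τ : ℝ) (f : (P → ℝ) → ENNReal) (hf : Measurable f) :
    Measurable (fun z : P → ℝ => W (z b) (Function.update z b τ) * f (Function.update z b τ)) := by
  have hu : Measurable (fun z : P → ℝ => Function.update z b τ) := by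
    rw [measurable_pi_iff]
    intro w
    by_cases hw : w = b
    · subst hw
      simp only [Function.update_self]
      exact measurable_const
    · simp only [Function.update_of_ne hw]
      exact measurable_pi_apply w
  exact (W_measurable.comp ((measurable_pi_apply b).prodMk hu)).mul (hf.comp hu)

/-- The master inequality. Proof: multiply by `N^2`; by `base_change` (with `τ = 0` for `f1, f3` and
`τ = -h` for `f2, f4`; note `x w - x b - h = x w - x b + (-h)`) the claim is
`(∫ g1)(∫ g2) ≤ (∫ g3)(∫ g4)` for `g1 z = W (z b) (z[b:=0]) * f1 (z[b:=0])`,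
`g2 z = W (z b) (z[b:=-h]) * f2 (z[b:=-h])`, `g3` like `g1` with `f3`, `g4` like `g2` with `f4`.
This is `ad_pi`: `z[b:=0] ⊔ z'[b:=-h] = (z ⊔ z')[b:=0]`, `z[b:=0] ⊓ z'[b:=-h] = (z ⊓ z')[b:=-h]`
(because `h ≥ 0`), `W_lsm` and the hypothesis `H`. -/
theorem master (b : P) (h : ℝ) (hh : 0 ≤ h) (f1 f2 f3 f4 : (P → ℝ) → ENNReal) (m1 : Measurable f1)
    (m2 : Measurable f2) (m3 : Measurable f3) (m4 : Measurable f4)
    (H : ∀ x y, f1 x * f2 y ≤ f3 (x ⊔ y) * f4 (x ⊓ y)) :
    (∫⁻ x, f1 (fun w => x w - x b) ∂(XL P)) * (∫⁻ x, f2 (fun w => x w - x b - h) ∂(XL P)) ≤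
      (∫⁻ x, f3 (fun w => x w - x b) ∂(XL P)) * (∫⁻ x, f4 (fun w => x w - x b - h) ∂(XL P)) := by
  classical
  have b1 := base_change b 0 f1 m1
  have b2 := base_change b (-h) f2 m2
  have b3 := base_change b 0 f3 m3
  have b4 := base_change b (-h) f4 m4
  simp only [add_zero, ← sub_eq_add_neg] at b1 b2 b3 b4
  have key := ad_pi P
    (fun z => W (z b) (Function.update z b 0) * f1 (Function.update z b 0))
    (fun z => W (z b) (Function.update z b (-h)) * f2 (Function.update z b (-h)))
    (fun z => W (z b) (Function.update z b 0) * f3 (Function.update z b 0))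
    (fun z => W (z b) (Function.update z b (-h)) * f4 (Function.update z b (-h)))
    (meas_int b 0 f1 m1) (meas_int b (-h) f2 m2) (meas_int b 0 f3 m3) (meas_int b (-h) f4 m4)
    (by
      intro x y
      have e1 : Function.update x b 0 ⊔ Function.update y b (-h) = Function.update (x ⊔ y) b 0 := by
        funext w
        by_cases hw : w = b
        · subst hw; simp [hh]
        · simp [Function.update_of_ne hw]
      have e2 : Function.update x b 0 ⊓ Function.update y b (-h) =
          Function.update (x ⊓ y) b (-h) := by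
        funext w
        by_cases hw : w = b
        · subst hw; simp [hh]
        · simp [Function.update_of_ne hw]
      have h1 := W_lsm (x b) (y b) (Function.update x b 0) (Function.update y b (-h))
      have h2 := H (Function.update x b 0) (Function.update y b (-h))
      rw [e1, e2] at h1 h2
      calc W (x b) (Function.update x b 0) * f1 (Function.update x b 0) *
            (W (y b) (Function.update y b (-h)) * f2 (Function.update y b (-h)))
          = (W (x b) (Function.update x b 0) * W (y b) (Function.update y b (-h))) *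
            (f1 (Function.update x b 0) * f2 (Function.update y b (-h))) := by ring
        _ ≤ (W (x b ⊔ y b) (Function.update (x ⊔ y) b 0) *
              W (x b ⊓ y b) (Function.update (x ⊓ y) b (-h))) *
            (f3 (Function.update (x ⊔ y) b 0) * f4 (Function.update (x ⊓ y) b (-h))) :=
            mul_le_mul' h1 h2
        _ = _ := by
            show _ = W (x b ⊔ y b) (Function.update (x ⊔ y) b 0) *
                f3 (Function.update (x ⊔ y) b 0) *
              (W (x b ⊓ y b) (Function.update (x ⊓ y) b (-h)) *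
                f4 (Function.update (x ⊓ y) b (-h)))
            ring)
  rw [← b1, ← b2, ← b3, ← b4] at key
  set N : ENNReal := (Fintype.card (LE P) : ENNReal) with hN
  have hN0 : N ≠ 0 := by
    rw [hN]
    exact_mod_cast (Fintype.card_pos (α := LE P)).ne'
  have hNt : N ≠ ⊤ := ENNReal.natCast_ne_top _
  have hNN0 : N * N ≠ 0 := mul_ne_zero hN0 hN0
  have hNNt : N * N ≠ ⊤ := ENNReal.mul_ne_top hNt hNt
  have key2 : N * N * ((∫⁻ x, f1 (fun w => x w - x b) ∂(XL P)) *
        (∫⁻ x, f2 (fun w => x w - x b - h) ∂(XL P))) ≤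
      N * N * ((∫⁻ x, f3 (fun w => x w - x b) ∂(XL P)) *
        (∫⁻ x, f4 (fun w => x w - x b - h) ∂(XL P))) := by
    calc _ = N * (∫⁻ x, f1 (fun w => x w - x b) ∂(XL P)) *
          (N * (∫⁻ x, f2 (fun w => x w - x b - h) ∂(XL P))) := by ring
      _ ≤ _ := key
      _ = _ := by ring
  exact (ENNReal.mul_le_mul_iff_right hNN0 hNNt).mp key2

end Pool.Agent.BFT
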