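import Mathlib
import Pool.Agent.Lib_MP_33fb9b_bft.Master

set_option autoImplicit false

/-!
# Consequences of the master inequality
-/

namespace Pool.Agent.BFT

open MeasureTheory

variable {P : Type} [Fintype P] [PartialOrder P]

/-- the master inequality for indicators -/
private theorem master_ind (b : P) (h : ℝ) (hh : 0 ≤ h) (A1 A2 A3 A4 : Set (P → ℝ))
    (m1 : MeasurableSet A1) (m2 : MeasurableSet A2) (m3 : MeasurableSet A3)
    (m4 : MeasurableSet A4)
    (H : ∀ x y, x ∈ A1 → y ∈ A2 → x ⊔ y ∈ A3 ∧ x ⊓ y ∈ A4) :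
    (XL P).real {x | (fun w => x w - x b) ∈ A1} * (XL P).real {x | (fun w => x w - x b - h) ∈ A2} ≤
      (XL P).real {x | (fun w => x w - x b) ∈ A3} *
        (XL P).real {x | (fun w => x w - x b - h) ∈ A4} := by
  have : Nonempty P := ⟨b⟩
  have key := master b h hh (A1.indicator 1) (A2.indicator 1) (A3.indicator 1) (A4.indicator 1)
    (measurable_one.indicator m1) (measurable_one.indicator m2) (measurable_one.indicator m3)
    (measurable_one.indicator m4) (by
      intro x y
      by_cases hx : x ∈ A1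
      · by_cases hy : y ∈ A2
        · obtain ⟨h3, h4⟩ := H x y hx hy
          simp [hx, hy, h3, h4]
        · simp [hy]
      · simp [hx])
  have hm0 : Measurable (fun x : P → ℝ => (fun w => x w - x b)) := by
    rw [measurable_pi_iff]
    intro w
    exact (measurable_pi_apply w).sub (measurable_pi_apply b)
  have hmh : Measurable (fun x : P → ℝ => (fun w => x w - x b - h)) := by
    rw [measurable_pi_iff]
    intro w
    exact ((measurable_pi_apply w).sub (measurable_pi_apply b)).sub measurable_const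
  have conv0 : ∀ A : Set (P → ℝ), MeasurableSet A →
      ∫⁻ x, A.indicator (1 : (P → ℝ) → ENNReal) (fun w => x w - x b) ∂(XL P) =
        (XL P) {x | (fun w => x w - x b) ∈ A} := by
    intro A hA
    exact lintegral_indicator_one (μ := XL P) (hm0 hA)
  have convh : ∀ A : Set (P → ℝ), MeasurableSet A →
      ∫⁻ x, A.indicator (1 : (P → ℝ) → ENNReal) (fun w => x w - x b - h) ∂(XL P) =
        (XL P) {x | (fun w => x w - x b - h) ∈ A} := by
    intro A hA
    exact lintegral_indicator_one (μ := XL P) (hmh hA)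
  rw [conv0 A1 m1, conv0 A3 m3, convh A2 m2, convh A4 m4] at key
  have k2 := ENNReal.toReal_mono (ENNReal.mul_ne_top (measure_ne_top _ _) (measure_ne_top _ _)) key
  rw [ENNReal.toReal_mul, ENNReal.toReal_mul] at k2
  exact k2

/-- Log-concavity of the distribution function of `X_v - X_u`. Proof: `master` with base `u`,
`f1 = 1{x v < s - h}`, `f2 = 1{x v < s}`, `f3 = 1{x v < s}`, `f4 = 1{x v < s - h}`; the shifted events
are `x v - x u - h < s`, i.e. `x v - x u < s + h`, and `x v - x u - h < s - h`, i.e. `x v - x u < s`. -/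
theorem F_lc (u v : P) (s h : ℝ) (hh : 0 ≤ h) :
    (XL P).real {x | x v - x u < s - h} * (XL P).real {x | x v - x u < s + h} ≤
      ((XL P).real {x | x v - x u < s}) ^ 2 := by
  have key := master_ind u h hh {x | x v < s - h} {x | x v < s} {x | x v < s} {x | x v < s - h}
    (measurableSet_lt (measurable_pi_apply v) measurable_const)
    (measurableSet_lt (measurable_pi_apply v) measurable_const)
    (measurableSet_lt (measurable_pi_apply v) measurable_const)
    (measurableSet_lt (measurable_pi_apply v) measurable_const) (by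
      intro x y hx hy
      have hx' : x v < s - h := hx
      have hy' : y v < s := hy
      refine ⟨?_, ?_⟩
      · show max (x v) (y v) < s
        exact max_lt (by linarith) hy'
      · show min (x v) (y v) < s - h
        exact lt_of_le_of_lt (min_le_left _ _) hx')
  have e1 : {x : P → ℝ | (fun w => x w - x u) ∈ {x : P → ℝ | x v < s - h}} =
      {x | x v - x u < s - h} := rfl
  have e2 : {x : P → ℝ | (fun w => x w - x u - h) ∈ {x : P → ℝ | x v < s}} =
      {x | x v - x u < s + h} := by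
    ext x
    show x v - x u - h < s ↔ x v - x u < s + h
    constructor <;> intro hx <;> linarith
  have e3 : {x : P → ℝ | (fun w => x w - x u) ∈ {x : P → ℝ | x v < s}} =
      {x | x v - x u < s} := rfl
  have e4 : {x : P → ℝ | (fun w => x w - x u - h) ∈ {x : P → ℝ | x v < s - h}} =
      {x | x v - x u < s} := by
    ext x
    show x v - x u - h < s - h ↔ x v - x u < s
    constructor <;> intro hx <;> linarith
  rw [e1, e2, e3, e4] at key
  rw [sq]
  exact key

/-- Corner inequality, base `y`, `h = 0`, in the coordinates `x' = X_x - X_y = -U`, `z' = X_z - X_y = V`: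
`f1 = 1{-ε < x' < 0, 0 < z' < ε}`, `f2 = 1{x' ≤ -ε, ε ≤ z'}`, `f3 = 1{-ε < x' < 0, ε ≤ z'}`,
`f4 = 1{x' ≤ -ε, 0 < z' < ε}` (the pointwise hypothesis holds without any assumption on `x, y, z`). -/
theorem co_box (x y z : P) (ε : ℝ) (hε : 0 < ε) :
    (XL P).real {X | (0 < X y - X x ∧ X y - X x < ε) ∧ (0 < X z - X y ∧ X z - X y < ε)} *
      (XL P).real {X | ε ≤ X y - X x ∧ ε ≤ X z - X y} ≤
    (XL P).real {X | (0 < X y - X x ∧ X y - X x < ε) ∧ ε ≤ X z - X y} *
      (XL P).real {X | ε ≤ X y - X x ∧ (0 < X z - X y ∧ X z - X y < ε)} := by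
  have mm : ∀ (v : P) (c : ℝ), MeasurableSet {X : P → ℝ | X v < c} := fun v c =>
    measurableSet_lt (measurable_pi_apply v) measurable_const
  have mg : ∀ (v : P) (c : ℝ), MeasurableSet {X : P → ℝ | c < X v} := fun v c =>
    measurableSet_lt measurable_const (measurable_pi_apply v)
  have ml : ∀ (v : P) (c : ℝ), MeasurableSet {X : P → ℝ | X v ≤ c} := fun v c =>
    measurableSet_le (measurable_pi_apply v) measurable_const
  have mq : ∀ (v : P) (c : ℝ), MeasurableSet {X : P → ℝ | c ≤ X v} := fun v c =>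
    measurableSet_le measurable_const (measurable_pi_apply v)
  have key := master_ind y 0 le_rfl
    {X | (X x < 0 ∧ -ε < X x) ∧ (0 < X z ∧ X z < ε)}
    {X | X x ≤ -ε ∧ ε ≤ X z}
    {X | (X x < 0 ∧ -ε < X x) ∧ ε ≤ X z}
    {X | X x ≤ -ε ∧ (0 < X z ∧ X z < ε)}
    (((mm x 0).inter (mg x _)).inter ((mg z 0).inter (mm z _)))
    ((ml x _).inter (mq z _))
    (((mm x 0).inter (mg x _)).inter (mq z _))
    ((ml x _).inter ((mg z 0).inter (mm z _)))
    (by
      rintro X Y ⟨⟨a1, a2⟩, a3, a4⟩ ⟨b1, b2⟩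
      refine ⟨⟨⟨?_, ?_⟩, ?_⟩, ?_, ?_, ?_⟩
      · show max (X x) (Y x) < 0
        exact max_lt a1 (by linarith)
      · show -ε < max (X x) (Y x)
        exact lt_of_lt_of_le a2 (le_max_left _ _)
      · show ε ≤ max (X z) (Y z)
        exact le_trans b2 (le_max_right _ _)
      · show min (X x) (Y x) ≤ -ε
        exact le_trans (min_le_right _ _) b1
      · show 0 < min (X z) (Y z)
        exact lt_min a3 (by linarith)
      · show min (X z) (Y z) < ε
        exact lt_of_le_of_lt (min_le_left _ _) a4)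
  have e1 : {X : P → ℝ | (fun w => X w - X y) ∈
      {X : P → ℝ | (X x < 0 ∧ -ε < X x) ∧ (0 < X z ∧ X z < ε)}} =
      {X | (0 < X y - X x ∧ X y - X x < ε) ∧ (0 < X z - X y ∧ X z - X y < ε)} := by
    ext X
    show ((X x - X y < 0 ∧ -ε < X x - X y) ∧ (0 < X z - X y ∧ X z - X y < ε)) ↔ _
    constructor
    · rintro ⟨⟨a, b⟩, c, d⟩
      exact ⟨⟨by linarith, by linarith⟩, c, d⟩
    · rintro ⟨⟨a, b⟩, c, d⟩
      exact ⟨⟨by linarith, by linarith⟩, c, d⟩
  have e2 : {X : P → ℝ | (fun w => X w - X y - 0) ∈ {X : P → ℝ | X x ≤ -ε ∧ ε ≤ X z}} =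
      {X | ε ≤ X y - X x ∧ ε ≤ X z - X y} := by
    ext X
    show (X x - X y - 0 ≤ -ε ∧ ε ≤ X z - X y - 0) ↔ _
    constructor
    · rintro ⟨a, b⟩
      exact ⟨by linarith, by linarith⟩
    · rintro ⟨a, b⟩
      exact ⟨by linarith, by linarith⟩
  have e3 : {X : P → ℝ | (fun w => X w - X y) ∈
      {X : P → ℝ | (X x < 0 ∧ -ε < X x) ∧ ε ≤ X z}} =
      {X | (0 < X y - X x ∧ X y - X x < ε) ∧ ε ≤ X z - X y} := by
    ext X
    show ((X x - X y < 0 ∧ -ε < X x - X y) ∧ ε ≤ X z - X y) ↔ _
    constructor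
    · rintro ⟨⟨a, b⟩, c⟩
      exact ⟨⟨by linarith, by linarith⟩, c⟩
    · rintro ⟨⟨a, b⟩, c⟩
      exact ⟨⟨by linarith, by linarith⟩, c⟩
  have e4 : {X : P → ℝ | (fun w => X w - X y - 0) ∈
      {X : P → ℝ | X x ≤ -ε ∧ (0 < X z ∧ X z < ε)}} =
      {X | ε ≤ X y - X x ∧ (0 < X z - X y ∧ X z - X y < ε)} := by
    ext X
    show (X x - X y - 0 ≤ -ε ∧ (0 < X z - X y - 0 ∧ X z - X y - 0 < ε)) ↔ _
    constructor
    · rintro ⟨a, b, c⟩
      exact ⟨by linarith, by linarith, by linarith⟩
    · rintro ⟨a, b, c⟩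
      exact ⟨by linarith, by linarith, by linarith⟩
  rw [e1, e2, e3, e4] at key
  exact key

end Pool.Agent.BFT
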