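import Mathlib
import Pool.Agent.Lib_MP_33fb9b_bft.Cont

set_option autoImplicit false

/-!
# Spacings: small values
-/

namespace Pool.Agent.BFT

open MeasureTheory

private theorem SpaceA_expo_pos : ∀ᵐ x ∂expo, 0 < x := by
  have h : expo (Set.Iic 0) = 0 := by
    unfold expo
    rw [withDensity_apply _ measurableSet_Iic]
    rw [setLIntegral_eq_zero_iff measurableSet_Iic expo_meas]
    filter_upwards with x hx
    have hx' : ¬ (0 < x) := not_lt.mpr hx
    simp [hx']
  rw [ae_iff]
  have h2 : {a : ℝ | ¬ 0 < a} = Set.Iic 0 := by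
    ext x; simp
  rw [h2]
  exact h

/-- all spacings are positive (`expo (Set.Iic 0) = 0`, `Measure.pi` and `ae_all_iff`,
`measurePreserving_eval`) -/
theorem gam_pos (n : ℕ) : ∀ᵐ y ∂(gam n), ∀ j, 0 < y j := by
  rw [ae_all_iff]
  intro j
  have h := (measurePreserving_eval (fun _ : Fin n => expo) j).quasiMeasurePreserving.ae
    SpaceA_expo_pos
  exact h

private theorem SpaceA_all (n : ℕ) (J : Finset (Fin n)) (s : ℝ) (hs : 0 ≤ s) :
    (gam n).real {y | ∀ j ∈ J, y j < s} = (1 - Real.exp (-s)) ^ J.card := by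
  classical
  have h1 : {y : Fin n → ℝ | ∀ j ∈ J, y j < s} =
      Set.pi Set.univ (fun i => if i ∈ J then Set.Iio s else Set.univ) := by
    ext y
    simp only [Set.mem_ofPred_eq, Set.mem_pi, Set.mem_univ, true_implies]
    constructor
    · intro h i
      by_cases hi : i ∈ J
      · simp only [hi, if_true]; exact h i hi
      · simp only [hi, if_false]; exact Set.mem_univ _
    · intro h i hi
      have := h i
      simp only [hi, if_true] at this
      exact this
  have h0 : 0 ≤ 1 - Real.exp (-s) := by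
    have : Real.exp (-s) ≤ 1 := Real.exp_le_one_iff.mpr (by linarith)
    linarith
  have h2 : (gam n) {y : Fin n → ℝ | ∀ j ∈ J, y j < s} =
      ENNReal.ofReal (1 - Real.exp (-s)) ^ J.card := by
    rw [h1]
    unfold gam
    rw [Measure.pi_pi]
    have h3 : ∀ i : Fin n, expo (if i ∈ J then Set.Iio s else Set.univ) =
        if i ∈ J then ENNReal.ofReal (1 - Real.exp (-s)) else 1 := by
      intro i
      by_cases hi : i ∈ J
      · simp only [hi, if_true]; exact expo_Iic_eq s hs
      · simp only [hi, if_false]; exact expo_univ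
    simp_rw [h3]
    rw [Finset.prod_ite_mem, Finset.univ_inter, Finset.prod_const]
  rw [Measure.real, h2, ENNReal.toReal_pow, ENNReal.toReal_ofReal h0]

/-- one spacing: `expo_Iic_eq` and `measurePreserving_eval` -/
theorem gam_one (n : ℕ) (j : Fin n) (s : ℝ) (hs : 0 ≤ s) :
    (gam n).real {y | y j < s} = 1 - Real.exp (-s) := by
  have h := SpaceA_all n {j} s hs
  simpa using h

/-- two spacings (independence: the event is the rectangle `Set.pi univ t` with
`t j = t k = Set.Iio s` and `t i = Set.univ` otherwise; `Measure.pi_pi`) -/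
theorem gam_two (n : ℕ) (j k : Fin n) (hjk : j ≠ k) (s : ℝ) (hs : 0 ≤ s) :
    (gam n).real {y | y j < s ∧ y k < s} = (1 - Real.exp (-s)) ^ 2 := by
  have h := SpaceA_all n {j, k} s hs
  rw [Finset.card_pair hjk] at h
  rw [← h]
  congr 1
  ext y
  simp

/-- three spacings -/
theorem gam_three (n : ℕ) (i j k : Fin n) (hij : i ≠ j) (hjk : j ≠ k) (hik : i ≠ k) (s : ℝ)
    (hs : 0 ≤ s) :
    (gam n).real {y | y i < s ∧ y j < s ∧ y k < s} ≤ s ^ 3 := by
  have h := SpaceA_all n {i, j, k} s hs
  have hc : ({i, j, k} : Finset (Fin n)).card = 3 := Finset.card_eq_three.mpr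
    ⟨i, j, k, hij, hik, hjk, rfl⟩
  rw [hc] at h
  have h2 : {y : Fin n → ℝ | y i < s ∧ y j < s ∧ y k < s} =
      {y | ∀ l ∈ ({i, j, k} : Finset (Fin n)), y l < s} := by
    ext y
    simp
  rw [h2, h]
  have h0 : 0 ≤ 1 - Real.exp (-s) := by
    have : Real.exp (-s) ≤ 1 := Real.exp_le_one_iff.mpr (by linarith)
    linarith
  have h1 : 1 - Real.exp (-s) ≤ s := by
    have := Real.add_one_le_exp (-s)
    linarith
  exact pow_le_pow_left₀ h0 h1 3

end Pool.Agent.BFT
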