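import Mathlib
import Pool.Agent.Lib_MP_33fb9b_bft.SpaceA

set_option autoImplicit false

/-!
# The random vector for a fixed linear extension
-/

namespace Pool.Agent.BFT

open MeasureTheory

variable {P : Type} [Fintype P] [PartialOrder P]

/-- the difference of two coordinates is a sum of spacings -/
theorem Xv_diff (σ : LE P) (y : Fin (Fintype.card P) → ℝ) (u v : P) (h : pos σ u ≤ pos σ v) :
    Xv σ y v - Xv σ y u = ∑ j ∈ Finset.Ioc (σ.1 u) (σ.1 v), y j := by
  have hle : σ.1 u ≤ σ.1 v := h
  have h1 : ∀ w : P, Xv σ y w = ∑ j ∈ Finset.Iic (σ.1 w), y j := by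
    intro w
    unfold Xv
    rw [← Finset.sum_filter]
    apply Finset.sum_congr _ fun _ _ => rfl
    ext j
    simp
  have h2 : Finset.Iic (σ.1 v) = Finset.Iic (σ.1 u) ∪ Finset.Ioc (σ.1 u) (σ.1 v) := by
    ext j
    simp only [Finset.mem_union, Finset.mem_Iic, Finset.mem_Ioc]
    constructor
    · intro hj
      rcases le_or_gt j (σ.1 u) with h3 | h3
      · exact Or.inl h3
      · exact Or.inr ⟨h3, hj⟩
    · rintro (hj | hj)
      · exact hj.trans hle
      · exact hj.2
  have h3 : Disjoint (Finset.Iic (σ.1 u)) (Finset.Ioc (σ.1 u) (σ.1 v)) := by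
    rw [Finset.disjoint_left]
    intro j hj hj'
    exact absurd (Finset.mem_Ioc.mp hj').1 (not_lt.mpr (Finset.mem_Iic.mp hj))
  rw [h1, h1, h2, Finset.sum_union h3]
  ring

/-- the number of spacings between two elements (`Fin.card_Ioc`) -/
theorem Xv_card (σ : LE P) (u v : P) :
    (Finset.Ioc (σ.1 u) (σ.1 v)).card = pos σ v - pos σ u := by
  rw [Fin.card_Ioc]
  rfl

/-- almost surely the coordinates are in the order of the linear extension -/
theorem Xv_ae (σ : LE P) : ∀ᵐ y ∂(gam (Fintype.card P)),
    ∀ u v : P, (Xv σ y u < Xv σ y v ↔ pos σ u < pos σ v) := by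
  filter_upwards [gam_pos (Fintype.card P)] with y hy u v
  have key : ∀ a b : P, pos σ a < pos σ b → Xv σ y a < Xv σ y b := by
    intro a b hab
    have h1 := Xv_diff σ y a b hab.le
    have h2 : 0 < ∑ j ∈ Finset.Ioc (σ.1 a) (σ.1 b), y j := by
      apply Finset.sum_pos fun j _ => hy j
      exact ⟨σ.1 b, Finset.mem_Ioc.mpr ⟨hab, le_rfl⟩⟩
    linarith
  constructor
  · intro h
    by_contra hc
    rcases (not_lt.mp hc).eq_or_lt with h1 | h1
    · rw [pos_inj h1] at h
      exact lt_irrefl _ h
    · exact lt_asymm h (key v u h1)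
  · exact key u v

/-- if `v` comes immediately after `u` the difference is one spacing -/
theorem Xv_one (σ : LE P) (y : Fin (Fintype.card P) → ℝ) (u v : P) (h : pos σ v = pos σ u + 1) :
    Xv σ y v - Xv σ y u = y (σ.1 v) := by
  rw [Xv_diff σ y u v (by omega)]
  have h1 : Finset.Ioc (σ.1 u) (σ.1 v) = {σ.1 v} := by
    ext j
    simp only [Finset.mem_Ioc, Finset.mem_singleton]
    constructor
    · rintro ⟨h2, h3⟩
      apply Fin.ext
      have h4 : pos σ u < j.1 := h2
      have h5 : j.1 ≤ pos σ v := h3
      change j.1 = pos σ v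
      omega
    · rintro rfl
      refine ⟨?_, le_rfl⟩
      change pos σ u < pos σ v
      omega
  rw [h1, Finset.sum_singleton]

/-- if `v` comes two places after `u` the difference is the sum of two spacings -/
theorem Xv_two (σ : LE P) (u v : P) (h : pos σ v = pos σ u + 2) :
    ∃ j k : Fin (Fintype.card P), j ≠ k ∧ ∀ y, Xv σ y v - Xv σ y u = y j + y k := by
  have hv := pos_lt_card σ v
  refine ⟨⟨pos σ u + 1, by omega⟩, σ.1 v, ?_, fun y => ?_⟩
  · intro hc
    have h1 : pos σ u + 1 = pos σ v := congrArg Fin.val hc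
    omega
  · rw [Xv_diff σ y u v (by omega)]
    have h1 : Finset.Ioc (σ.1 u) (σ.1 v)
        = {(⟨pos σ u + 1, by omega⟩ : Fin (Fintype.card P)), σ.1 v} := by
      ext j
      simp only [Finset.mem_Ioc, Finset.mem_insert, Finset.mem_singleton]
      constructor
      · rintro ⟨h2, h3⟩
        have h4 : pos σ u < j.1 := h2
        have h5 : j.1 ≤ pos σ v := h3
        rcases Nat.lt_or_ge j.1 (pos σ v) with h6 | h6
        · left
          apply Fin.ext
          change j.1 = pos σ u + 1
          omega
        · right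
          apply Fin.ext
          change j.1 = pos σ v
          omega
      · rintro (rfl | rfl)
        · refine ⟨?_, ?_⟩
          · change pos σ u < pos σ u + 1
            omega
          · change pos σ u + 1 ≤ pos σ v
            omega
        · refine ⟨?_, le_rfl⟩
          change pos σ u < pos σ v
          omega
    rw [h1, Finset.sum_pair]
    intro hc
    have h1 : pos σ u + 1 = pos σ v := congrArg Fin.val hc
    omega

/-- if `v` comes at least two places after `u` the difference is, almost surely, larger than each of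
two different spacings (all spacings are positive) -/
theorem Xv_ge_two (σ : LE P) (u v : P) (h : pos σ u + 2 ≤ pos σ v) :
    ∃ j k : Fin (Fintype.card P), j ≠ k ∧ ∀ y : Fin (Fintype.card P) → ℝ, (∀ i, 0 < y i) →
      y j ≤ Xv σ y v - Xv σ y u ∧ y k ≤ Xv σ y v - Xv σ y u := by
  have hv := pos_lt_card σ v
  refine ⟨⟨pos σ u + 1, by omega⟩, σ.1 v, ?_, fun y hy => ?_⟩
  · intro hc
    have h1 : pos σ u + 1 = pos σ v := congrArg Fin.val hc
    omega
  · rw [Xv_diff σ y u v (by omega)]
    constructor
    · apply Finset.single_le_sum (f := y) fun i _ => (hy i).le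
      rw [Finset.mem_Ioc]
      refine ⟨?_, ?_⟩
      · change pos σ u < pos σ u + 1
        omega
      · change pos σ u + 1 ≤ pos σ v
        omega
    · apply Finset.single_le_sum (f := y) fun i _ => (hy i).le
      rw [Finset.mem_Ioc]
      refine ⟨?_, le_rfl⟩
      change pos σ u < pos σ v
      omega

/-- the same with three -/
theorem Xv_ge_three (σ : LE P) (u v : P) (h : pos σ u + 3 ≤ pos σ v) :
    ∃ i j k : Fin (Fintype.card P), i ≠ j ∧ j ≠ k ∧ i ≠ k ∧
      ∀ y : Fin (Fintype.card P) → ℝ, (∀ l, 0 < y l) →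
      y i ≤ Xv σ y v - Xv σ y u ∧ y j ≤ Xv σ y v - Xv σ y u ∧ y k ≤ Xv σ y v - Xv σ y u := by
  have hv := pos_lt_card σ v
  refine ⟨⟨pos σ u + 1, by omega⟩, ⟨pos σ u + 2, by omega⟩, σ.1 v, ?_, ?_, ?_, fun y hy => ?_⟩
  · intro hc
    have h1 : pos σ u + 1 = pos σ u + 2 := congrArg Fin.val hc
    omega
  · intro hc
    have h1 : pos σ u + 2 = pos σ v := congrArg Fin.val hc
    omega
  · intro hc
    have h1 : pos σ u + 1 = pos σ v := congrArg Fin.val hc
    omega
  · rw [Xv_diff σ y u v (by omega)]
    refine ⟨?_, ?_, ?_⟩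
    · apply Finset.single_le_sum (f := y) fun i _ => (hy i).le
      rw [Finset.mem_Ioc]
      refine ⟨?_, ?_⟩
      · change pos σ u < pos σ u + 1
        omega
      · change pos σ u + 1 ≤ pos σ v
        omega
    · apply Finset.single_le_sum (f := y) fun i _ => (hy i).le
      rw [Finset.mem_Ioc]
      refine ⟨?_, ?_⟩
      · change pos σ u < pos σ u + 2
        omega
      · change pos σ u + 2 ≤ pos σ v
        omega
    · apply Finset.single_le_sum (f := y) fun i _ => (hy i).le
      rw [Finset.mem_Ioc]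
      refine ⟨?_, le_rfl⟩
      change pos σ u < pos σ v
      omega

end Pool.Agent.BFT
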