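import Mathlib
import Pool.Agent.Lib_MP_33fb9b_bft.XvBasic

set_option autoImplicit false

/-!
# Boxes at the corner

`U = X_y - X_x`, `V = X_z - X_y`.
-/

namespace Pool.Agent.BFT

open MeasureTheory

variable {P : Type} [Fintype P] [PartialOrder P]

private theorem XLC_mono {n : ℕ} {A B : Set (Fin n → ℝ)}
    (h : ∀ᵐ y ∂(gam n), y ∈ A → y ∈ B) : (gam n).real A ≤ (gam n).real B := by
  unfold Measure.real
  exact ENNReal.toReal_mono (measure_ne_top _ _) (measure_mono_ae h)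

private theorem XLC_zero {n : ℕ} {A : Set (Fin n → ℝ)}
    (h : ∀ᵐ y ∂(gam n), y ∉ A) : (gam n).real A = 0 := by
  have h1 : (gam n).real A ≤ (gam n).real (∅ : Set (Fin n → ℝ)) := by
    apply XLC_mono
    filter_upwards [h] with y hy hA
    exact absurd hA hy
  simp only [measureReal_empty] at h1
  exact le_antisymm h1 measureReal_nonneg

private theorem XLC_exp (ε : ℝ) : 1 - Real.exp (-ε) ≤ ε := by
  have := Real.add_one_le_exp (-ε)
  linarith

private theorem XLC_exp0 (ε : ℝ) (hε : 0 ≤ ε) : 0 ≤ 1 - Real.exp (-ε) := by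
  have : Real.exp (-ε) ≤ 1 := Real.exp_le_one_iff.mpr (by linarith)
  linarith

private theorem XLC_exp2 (ε : ℝ) (hε : 0 ≤ ε) : (1 - Real.exp (-ε)) ^ 2 ≤ ε ^ 2 :=
  pow_le_pow_left₀ (XLC_exp0 ε hε) (XLC_exp ε) 2

/-- a spacing below the difference -/
private theorem XLC_ge_one (σ : LE P) (u v : P) (h : pos σ u < pos σ v)
    (y : Fin (Fintype.card P) → ℝ) (hy : ∀ i, 0 < y i) :
    y (σ.1 v) ≤ Xv σ y v - Xv σ y u := by
  rw [Xv_diff σ y u v h.le]
  apply Finset.single_le_sum (f := fun j => y j) (fun i _ => (hy i).le)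
  rw [Finset.mem_Ioc]
  exact ⟨h, le_refl _⟩

omit [Fintype P] [PartialOrder P] in
private theorem XLC_meas_lt (u v : P) (a : ℝ) :
    MeasurableSet {X : P → ℝ | X v - X u < a} :=
  measurableSet_lt ((measurable_pi_apply v).sub (measurable_pi_apply u)) measurable_const

omit [Fintype P] [PartialOrder P] in
private theorem XLC_meas_gt (u v : P) (a : ℝ) :
    MeasurableSet {X : P → ℝ | a < X v - X u} :=
  measurableSet_lt measurable_const ((measurable_pi_apply v).sub (measurable_pi_apply u))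

omit [Fintype P] [PartialOrder P] in
private theorem XLC_meas_ge (u v : P) (a : ℝ) :
    MeasurableSet {X : P → ℝ | a ≤ X v - X u} :=
  measurableSet_le measurable_const ((measurable_pi_apply v).sub (measurable_pi_apply u))

private theorem XLC_one_le (n : ℕ) (j : Fin n) (ε : ℝ) (hε : 0 ≤ ε) {A : Set (Fin n → ℝ)}
    (h : ∀ᵐ y ∂(gam n), y ∈ A → y j < ε) : (gam n).real A ≤ ε := by
  calc (gam n).real A ≤ (gam n).real {y | y j < ε} := XLC_mono h
    _ = 1 - Real.exp (-ε) := gam_one n j ε hε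
    _ ≤ ε := XLC_exp ε

private theorem XLC_two_le (n : ℕ) (j k : Fin n) (hjk : j ≠ k) (ε : ℝ) (hε : 0 ≤ ε)
    {A : Set (Fin n → ℝ)} (h : ∀ᵐ y ∂(gam n), y ∈ A → y j < ε ∧ y k < ε) :
    (gam n).real A ≤ ε ^ 2 := by
  calc (gam n).real A ≤ (gam n).real {y | y j < ε ∧ y k < ε} := XLC_mono h
    _ = (1 - Real.exp (-ε)) ^ 2 := gam_two n j k hjk ε hε
    _ ≤ ε ^ 2 := XLC_exp2 ε hε

/-- `x, y, z` consecutive: `U`, `V` are two different spacings, probability `(1 - exp (-ε))^2`. -/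
theorem box_one (x y z : P) (ε : ℝ) (hε : 0 ≤ ε) :
    Pr (fun σ : LE P => pos σ y = pos σ x + 1 ∧ pos σ z = pos σ y + 1) *
        (1 - Real.exp (-ε)) ^ 2 ≤
      (XL P).real {X | (0 < X y - X x ∧ X y - X x < ε) ∧ (0 < X z - X y ∧ X z - X y < ε)} := by
  have hm : MeasurableSet {X : P → ℝ | (0 < X y - X x ∧ X y - X x < ε) ∧
      (0 < X z - X y ∧ X z - X y < ε)} :=
    ((XLC_meas_gt x y 0).inter (XLC_meas_lt x y ε)).inter
      ((XLC_meas_gt y z 0).inter (XLC_meas_lt y z ε))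
  rw [XL_real _ hm]
  unfold Pr
  rw [mul_comm, ← Ex_mul]
  apply Ex_mono
  intro σ
  by_cases h : pos σ y = pos σ x + 1 ∧ pos σ z = pos σ y + 1
  · rw [ind_true h, mul_one]
    have hne : σ.1 y ≠ σ.1 z := by
      intro hc
      have : pos σ y = pos σ z := by unfold pos; rw [hc]
      omega
    rw [← gam_two (Fintype.card P) (σ.1 y) (σ.1 z) hne ε hε]
    apply XLC_mono
    filter_upwards [gam_pos (Fintype.card P)] with w hw hA
    change w (σ.1 y) < ε ∧ w (σ.1 z) < ε at hA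
    change (0 < Xv σ w y - Xv σ w x ∧ Xv σ w y - Xv σ w x < ε) ∧
      (0 < Xv σ w z - Xv σ w y ∧ Xv σ w z - Xv σ w y < ε)
    rw [Xv_one σ w x y h.1, Xv_one σ w y z h.2]
    exact ⟨⟨hw _, hA.1⟩, ⟨hw _, hA.2⟩⟩
  · rw [ind_false h, mul_zero]
    exact measureReal_nonneg

/-- For each linear extension with `x < y < z` the complement has probability at most
`P(U < ε) + P(V < ε) ≤ 2 (1 - exp (-ε)) ≤ 2 ε` (each difference is at least one spacing). -/
theorem box_two (x y z : P) (ε : ℝ) (hε : 0 ≤ ε) :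
    Pr (fun σ : LE P => pos σ x < pos σ y ∧ pos σ y < pos σ z) - 2 * ε ≤
      (XL P).real {X | ε ≤ X y - X x ∧ ε ≤ X z - X y} := by
  have hm : MeasurableSet {X : P → ℝ | ε ≤ X y - X x ∧ ε ≤ X z - X y} :=
    (XLC_meas_ge x y ε).inter (XLC_meas_ge y z ε)
  rw [XL_real _ hm]
  unfold Pr
  rw [← Ex_const (P := P) (2 * ε), ← Ex_sub]
  apply Ex_mono
  intro σ
  by_cases h : pos σ x < pos σ y ∧ pos σ y < pos σ z
  · rw [ind_true h]
    have h1 : (1:ℝ) = (gam (Fintype.card P)).real Set.univ := by simp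
    have h2 : (gam (Fintype.card P)).real Set.univ ≤
        (gam (Fintype.card P)).real ({w | Xv σ w ∈ {X | ε ≤ X y - X x ∧ ε ≤ X z - X y}} ∪
          ({w | w (σ.1 y) < ε} ∪ {w | w (σ.1 z) < ε})) := by
      apply XLC_mono
      filter_upwards [gam_pos (Fintype.card P)] with w hw _
      by_cases h3 : w (σ.1 y) < ε
      · exact Or.inr (Or.inl h3)
      by_cases h4 : w (σ.1 z) < ε
      · exact Or.inr (Or.inr h4)
      left
      have h5 := XLC_ge_one σ x y h.1 w hw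
      have h6 := XLC_ge_one σ y z h.2 w hw
      change ε ≤ Xv σ w y - Xv σ w x ∧ ε ≤ Xv σ w z - Xv σ w y
      push Not at h3 h4
      exact ⟨by linarith, by linarith⟩
    have h3 := measureReal_union_le (μ := gam (Fintype.card P))
      ({w | Xv σ w ∈ {X | ε ≤ X y - X x ∧ ε ≤ X z - X y}})
      ({w | w (σ.1 y) < ε} ∪ {w | w (σ.1 z) < ε})
    have h4 := measureReal_union_le (μ := gam (Fintype.card P))
      ({w | w (σ.1 y) < ε}) ({w | w (σ.1 z) < ε})
    have h5 := gam_one (Fintype.card P) (σ.1 y) ε hε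
    have h6 := gam_one (Fintype.card P) (σ.1 z) ε hε
    have h7 := XLC_exp ε
    linarith
  · rw [ind_false h]
    have : (0:ℝ) ≤ (gam (Fintype.card P)).real
      {w | Xv σ w ∈ {X | ε ≤ X y - X x ∧ ε ≤ X z - X y}} := measureReal_nonneg
    linarith

/-- `0` unless `x < y < z` in the linear extension; `≤ ε` if `pos y = pos x + 1`; `≤ ε^2` if
`pos y ≥ pos x + 2`. (`ε > 0`.) -/
theorem box_three (x y z : P) (ε : ℝ) (hε : 0 < ε) :
    (XL P).real {X | (0 < X y - X x ∧ X y - X x < ε) ∧ ε ≤ X z - X y} ≤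
      Pr (fun σ : LE P => pos σ y = pos σ x + 1 ∧ pos σ y < pos σ z) * ε + ε ^ 2 := by
  have hm : MeasurableSet {X : P → ℝ | (0 < X y - X x ∧ X y - X x < ε) ∧ ε ≤ X z - X y} :=
    ((XLC_meas_gt x y 0).inter (XLC_meas_lt x y ε)).inter (XLC_meas_ge y z ε)
  rw [XL_real _ hm]
  unfold Pr
  rw [mul_comm, ← Ex_mul, ← Ex_const (P := P) (ε ^ 2), ← Ex_add]
  apply Ex_mono
  intro σ
  have hε2 : 0 ≤ ε ^ 2 := sq_nonneg ε
  by_cases h : pos σ x < pos σ y ∧ pos σ y < pos σ z
  · by_cases h1 : pos σ y = pos σ x + 1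
    · rw [ind_true ⟨h1, h.2⟩, mul_one]
      have h2 : (gam (Fintype.card P)).real
          {w | Xv σ w ∈ {X | (0 < X y - X x ∧ X y - X x < ε) ∧ ε ≤ X z - X y}} ≤ ε := by
        apply XLC_one_le _ (σ.1 y) ε hε.le
        filter_upwards with w hA
        change (0 < Xv σ w y - Xv σ w x ∧ Xv σ w y - Xv σ w x < ε) ∧
          ε ≤ Xv σ w z - Xv σ w y at hA
        rw [Xv_one σ w x y h1] at hA
        exact hA.1.2
      linarith
    · obtain ⟨j, k, hjk, hj⟩ := Xv_ge_two σ x y (by omega)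
      have h2 : (gam (Fintype.card P)).real
          {w | Xv σ w ∈ {X | (0 < X y - X x ∧ X y - X x < ε) ∧ ε ≤ X z - X y}} ≤ ε ^ 2 := by
        apply XLC_two_le _ j k hjk ε hε.le
        filter_upwards [gam_pos (Fintype.card P)] with w hw hA
        change (0 < Xv σ w y - Xv σ w x ∧ Xv σ w y - Xv σ w x < ε) ∧
          ε ≤ Xv σ w z - Xv σ w y at hA
        have h3 := hj w hw
        exact ⟨by linarith [h3.1, hA.1.2], by linarith [h3.2, hA.1.2]⟩
      have h3 := ind_nonneg (pos σ y = pos σ x + 1 ∧ pos σ y < pos σ z)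
      have h4 := mul_nonneg hε.le h3
      linarith
  · have h2 : (gam (Fintype.card P)).real
        {w | Xv σ w ∈ {X | (0 < X y - X x ∧ X y - X x < ε) ∧ ε ≤ X z - X y}} = 0 := by
      apply XLC_zero
      filter_upwards [Xv_ae σ] with w hw hA
      change (0 < Xv σ w y - Xv σ w x ∧ Xv σ w y - Xv σ w x < ε) ∧
          ε ≤ Xv σ w z - Xv σ w y at hA
      apply h
      exact ⟨(hw x y).mp (by linarith [hA.1.1]), (hw y z).mp (by linarith [hA.2])⟩
    rw [h2]
    have h3 := ind_nonneg (pos σ y = pos σ x + 1 ∧ pos σ y < pos σ z)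
    have h4 := mul_nonneg hε.le h3
    linarith

theorem box_four (x y z : P) (ε : ℝ) (hε : 0 < ε) :
    (XL P).real {X | ε ≤ X y - X x ∧ (0 < X z - X y ∧ X z - X y < ε)} ≤
      Pr (fun σ : LE P => pos σ x < pos σ y ∧ pos σ z = pos σ y + 1) * ε + ε ^ 2 := by
  have hm : MeasurableSet {X : P → ℝ | ε ≤ X y - X x ∧ (0 < X z - X y ∧ X z - X y < ε)} :=
    (XLC_meas_ge x y ε).inter ((XLC_meas_gt y z 0).inter (XLC_meas_lt y z ε))
  rw [XL_real _ hm]
  unfold Pr
  rw [mul_comm, ← Ex_mul, ← Ex_const (P := P) (ε ^ 2), ← Ex_add]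
  apply Ex_mono
  intro σ
  have hε2 : 0 ≤ ε ^ 2 := sq_nonneg ε
  by_cases h : pos σ x < pos σ y ∧ pos σ y < pos σ z
  · by_cases h1 : pos σ z = pos σ y + 1
    · rw [ind_true ⟨h.1, h1⟩, mul_one]
      have h2 : (gam (Fintype.card P)).real
          {w | Xv σ w ∈ {X | ε ≤ X y - X x ∧ (0 < X z - X y ∧ X z - X y < ε)}} ≤ ε := by
        apply XLC_one_le _ (σ.1 z) ε hε.le
        filter_upwards with w hA
        change ε ≤ Xv σ w y - Xv σ w x ∧
          (0 < Xv σ w z - Xv σ w y ∧ Xv σ w z - Xv σ w y < ε) at hA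
        rw [Xv_one σ w y z h1] at hA
        exact hA.2.2
      linarith
    · obtain ⟨j, k, hjk, hj⟩ := Xv_ge_two σ y z (by omega)
      have h2 : (gam (Fintype.card P)).real
          {w | Xv σ w ∈ {X | ε ≤ X y - X x ∧ (0 < X z - X y ∧ X z - X y < ε)}} ≤ ε ^ 2 := by
        apply XLC_two_le _ j k hjk ε hε.le
        filter_upwards [gam_pos (Fintype.card P)] with w hw hA
        change ε ≤ Xv σ w y - Xv σ w x ∧
          (0 < Xv σ w z - Xv σ w y ∧ Xv σ w z - Xv σ w y < ε) at hA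
        have h3 := hj w hw
        exact ⟨by linarith [h3.1, hA.2.2], by linarith [h3.2, hA.2.2]⟩
      have h3 := ind_nonneg (pos σ x < pos σ y ∧ pos σ z = pos σ y + 1)
      have h4 := mul_nonneg hε.le h3
      linarith
  · have h2 : (gam (Fintype.card P)).real
        {w | Xv σ w ∈ {X | ε ≤ X y - X x ∧ (0 < X z - X y ∧ X z - X y < ε)}} = 0 := by
      apply XLC_zero
      filter_upwards [Xv_ae σ] with w hw hA
      change ε ≤ Xv σ w y - Xv σ w x ∧
          (0 < Xv σ w z - Xv σ w y ∧ Xv σ w z - Xv σ w y < ε) at hA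
      apply h
      exact ⟨(hw x y).mp (by linarith [hA.1]), (hw y z).mp (by linarith [hA.2.1])⟩
    rw [h2]
    have h3 := ind_nonneg (pos σ x < pos σ y ∧ pos σ z = pos σ y + 1)
    have h4 := mul_nonneg hε.le h3
    linarith

end Pool.Agent.BFT
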