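import Mathlib
import Pool.Agent.Lib_MP_33fb9b_bft.MCons
import Pool.Agent.Lib_MP_33fb9b_bft.XLC

set_option autoImplicit false

/-!
# The corner inequality
-/

namespace Pool.Agent.BFT

open MeasureTheory

variable {P : Type} [Fintype P] [PartialOrder P]

/-- Proof: `co_box` with the four bounds `box_one, ..., box_four` gives, for `0 < ε ≤ 1`,
`a (1 - exp (-ε))^2 (g - 2ε) ≤ (b ε + ε^2)(c ε + ε^2)`; divide by `ε^2` and let `ε → 0`. -/
theorem corner (x y z : P) :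
    Pr (fun σ : LE P => pos σ y = pos σ x + 1 ∧ pos σ z = pos σ y + 1) *
      Pr (fun σ : LE P => pos σ x < pos σ y ∧ pos σ y < pos σ z) ≤
    Pr (fun σ : LE P => pos σ y = pos σ x + 1 ∧ pos σ y < pos σ z) *
      Pr (fun σ : LE P => pos σ x < pos σ y ∧ pos σ z = pos σ y + 1) := by
  have b1 := fun (ε : ℝ) (h : 0 < ε) => box_one x y z ε h.le
  have b2 := fun (ε : ℝ) (h : 0 < ε) => box_two x y z ε h.le
  have b3 := fun (ε : ℝ) (h : 0 < ε) => box_three x y z ε h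
  have b4 := fun (ε : ℝ) (h : 0 < ε) => box_four x y z ε h
  have b5 := fun (ε : ℝ) (h : 0 < ε) => co_box x y z ε h
  have ha0 := Pr_nonneg (fun σ : LE P => pos σ y = pos σ x + 1 ∧ pos σ z = pos σ y + 1)
  have ha1 := Pr_le_one (fun σ : LE P => pos σ y = pos σ x + 1 ∧ pos σ z = pos σ y + 1)
  have hg0 := Pr_nonneg (fun σ : LE P => pos σ x < pos σ y ∧ pos σ y < pos σ z)
  have hg1 := Pr_le_one (fun σ : LE P => pos σ x < pos σ y ∧ pos σ y < pos σ z)
  have hb0 := Pr_nonneg (fun σ : LE P => pos σ y = pos σ x + 1 ∧ pos σ y < pos σ z)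
  have hb1 := Pr_le_one (fun σ : LE P => pos σ y = pos σ x + 1 ∧ pos σ y < pos σ z)
  have hc0 := Pr_nonneg (fun σ : LE P => pos σ x < pos σ y ∧ pos σ z = pos σ y + 1)
  have hc1 := Pr_le_one (fun σ : LE P => pos σ x < pos σ y ∧ pos σ z = pos σ y + 1)
  generalize Pr (fun σ : LE P => pos σ y = pos σ x + 1 ∧ pos σ z = pos σ y + 1) = a at *
  generalize Pr (fun σ : LE P => pos σ x < pos σ y ∧ pos σ y < pos σ z) = g at *
  generalize Pr (fun σ : LE P => pos σ y = pos σ x + 1 ∧ pos σ y < pos σ z) = b at *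
  generalize Pr (fun σ : LE P => pos σ x < pos σ y ∧ pos σ z = pos σ y + 1) = c at *
  have key : ∀ ε : ℝ, 0 < ε → ε ≤ 1 → a * g ≤ b * c + 7 * ε := by
    intro ε he he1
    have c1 := b1 ε he
    have c2 := b2 ε he
    have c3 := b3 ε he
    have c4 := b4 ε he
    have c5 := b5 ε he
    have hE1 : 0 ≤ (XL P).real {X | (0 < X y - X x ∧ X y - X x < ε) ∧
      (0 < X z - X y ∧ X z - X y < ε)} := measureReal_nonneg
    have hE2 : 0 ≤ (XL P).real {X | ε ≤ X y - X x ∧ ε ≤ X z - X y} := measureReal_nonneg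
    have hE3 : 0 ≤ (XL P).real {X | (0 < X y - X x ∧ X y - X x < ε) ∧ ε ≤ X z - X y} :=
      measureReal_nonneg
    have hE4 : 0 ≤ (XL P).real {X | ε ≤ X y - X x ∧ (0 < X z - X y ∧ X z - X y < ε)} :=
      measureReal_nonneg
    generalize (XL P).real {X | (0 < X y - X x ∧ X y - X x < ε) ∧
      (0 < X z - X y ∧ X z - X y < ε)} = E1 at *
    generalize (XL P).real {X | ε ≤ X y - X x ∧ ε ≤ X z - X y} = E2 at *
    generalize (XL P).real {X | (0 < X y - X x ∧ X y - X x < ε) ∧ ε ≤ X z - X y} = E3 at *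
    generalize (XL P).real {X | ε ≤ X y - X x ∧ (0 < X z - X y ∧ X z - X y < ε)} = E4 at *
    have hexp : ε * (1 - ε) ≤ 1 - Real.exp (-ε) := by
      have h1 : ε + 1 ≤ Real.exp ε := Real.add_one_le_exp ε
      have h2 : Real.exp (-ε) * Real.exp ε = 1 := by rw [← Real.exp_add]; simp
      have h3 : 0 < Real.exp (-ε) := Real.exp_pos _
      have h4 : Real.exp (-ε) * (ε + 1) ≤ 1 := by
        calc Real.exp (-ε) * (ε + 1) ≤ Real.exp (-ε) * Real.exp ε :=
              mul_le_mul_of_nonneg_left h1 h3.le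
          _ = 1 := h2
      have h5 : Real.exp (-ε) ≤ 1 := by
        rw [Real.exp_le_one_iff]; linarith
      nlinarith [mul_pos he he, mul_pos (mul_pos he he) he]
    have h6 : 0 ≤ ε * (1 - ε) := mul_nonneg he.le (by linarith)
    have h7 : (ε * (1 - ε)) ^ 2 ≤ (1 - Real.exp (-ε)) ^ 2 := pow_le_pow_left₀ h6 hexp 2
    have h8 : a * (ε * (1 - ε)) ^ 2 ≤ E1 := (mul_le_mul_of_nonneg_left h7 ha0).trans c1
    have h9 : a * (ε * (1 - ε)) ^ 2 * (g - 2 * ε) ≤ E1 * E2 := by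
      have h10 : a * (ε * (1 - ε)) ^ 2 * (g - 2 * ε) ≤ a * (ε * (1 - ε)) ^ 2 * E2 :=
        mul_le_mul_of_nonneg_left c2 (by positivity)
      exact h10.trans (mul_le_mul_of_nonneg_right h8 hE2)
    have h11 : E3 * E4 ≤ (b * ε + ε ^ 2) * (c * ε + ε ^ 2) :=
      mul_le_mul c3 c4 hE4 (by positivity)
    have h12 : a * (ε * (1 - ε)) ^ 2 * (g - 2 * ε) ≤ (b * ε + ε ^ 2) * (c * ε + ε ^ 2) :=
      (h9.trans c5).trans h11
    have h13 : ε ^ 2 * (a * (1 - ε) ^ 2 * (g - 2 * ε)) ≤ ε ^ 2 * ((b + ε) * (c + ε)) := by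
      calc ε ^ 2 * (a * (1 - ε) ^ 2 * (g - 2 * ε)) = a * (ε * (1 - ε)) ^ 2 * (g - 2 * ε) := by ring
        _ ≤ _ := h12
        _ = _ := by ring
    have h14 : a * (1 - ε) ^ 2 * (g - 2 * ε) ≤ (b + ε) * (c + ε) :=
      le_of_mul_le_mul_left h13 (by positivity)
    have h15 : (b + ε) * (c + ε) ≤ b * c + 3 * ε := by nlinarith
    have h16 : a * g - 4 * ε ≤ a * (1 - ε) ^ 2 * (g - 2 * ε) := by
      have e1 : a * (1 - ε) ^ 2 * (2 * ε) ≤ 2 * ε := by
        have : a * (1 - ε) ^ 2 ≤ 1 := by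
          have : (1 - ε) ^ 2 ≤ 1 := by nlinarith
          nlinarith [sq_nonneg (1 - ε)]
        nlinarith
      have e2 : a * g - 2 * ε ≤ a * (1 - ε) ^ 2 * g := by
        have e3 : 0 ≤ a * g := mul_nonneg ha0 hg0
        have e4 : a * g ≤ 1 := by nlinarith
        nlinarith [mul_nonneg e3 (sq_nonneg ε)]
      nlinarith
    linarith
  apply le_of_forall_pos_le_add
  intro δ hδ
  have := key (min 1 (δ / 7)) (by positivity) (min_le_left _ _)
  have h2 : min 1 (δ / 7) ≤ δ / 7 := min_le_right _ _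
  linarith

end Pool.Agent.BFT
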