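import Mathlib
import Pool.Agent.Lib_MP_33fb9b_bft.Defs

set_option autoImplicit false

/-!
# Exchanging two adjacent incomparable elements
-/

namespace Pool.Agent.BFT

open Pool.Agent.Gap

variable {P : Type} [Fintype P] [PartialOrder P]

private theorem swA_rel {P : Type} [Fintype P] (r : P → P → Prop) (hr : ∀ x, r x x)
    (ht : ∀ x y z, r x y → r y z → r x z) (ha : ∀ x y, r x y → r y x → x = y) :
    ∃ e : P ≃ Fin (Fintype.card P), ∀ x y, r x y → e x ≤ e y := by
  let _ : PartialOrder P :=
    { le := r
      le_refl := hr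
      le_trans := ht
      le_antisymm := ha }
  obtain ⟨e, he⟩ := exists_linext P
  exact ⟨e, fun x y h => he h⟩

open Classical in
private theorem swA_mono {e : P ≃ Fin (Fintype.card P)} (he : Monotone e) {x y : P}
    (hxy : e x < e y) (h1 : ∀ s, s < y → e s < e x) (h2 : ∀ s, x < s → e y < e s) :
    Monotone ((Equiv.swap x y).trans e) := by
  have hm : ∀ {x y : P}, x < y → e x < e y := fun h =>
    lt_of_le_of_ne (he h.le) (fun hc => h.ne (e.injective hc))
  intro a b hab
  rcases hab.eq_or_lt with rfl | hlt
  · exact le_refl _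
  show e (Equiv.swap x y a) ≤ e (Equiv.swap x y b)
  by_cases hax : a = x
  · subst hax
    rw [Equiv.swap_apply_left]
    by_cases hby : b = y
    · subst hby
      exact absurd (h1 a hlt) (lt_irrefl _)
    · have hba : b ≠ a := hlt.ne'
      rw [Equiv.swap_apply_of_ne_of_ne hba hby]
      exact (h2 b hlt).le
  · by_cases hay : a = y
    · subst hay
      rw [Equiv.swap_apply_right]
      by_cases hbx : b = x
      · subst hbx
        rw [Equiv.swap_apply_left]
        exact hxy.le
      · rw [Equiv.swap_apply_of_ne_of_ne hbx hlt.ne']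
        exact (hxy.trans (hm hlt)).le
    · rw [Equiv.swap_apply_of_ne_of_ne hax hay]
      by_cases hbx : b = x
      · subst hbx
        rw [Equiv.swap_apply_left]
        exact ((hm hlt).trans hxy).le
      · by_cases hby : b = y
        · subst hby
          rw [Equiv.swap_apply_right]
          exact (h1 a hlt).le
        · rw [Equiv.swap_apply_of_ne_of_ne hbx hby]
          exact he hab

/-- The general swap: if `u, v` are incomparable and `v` comes immediately after `u` in `σ`, then
exchanging `u` and `v` gives a linear extension. (`(Equiv.swap u v).trans σ.1` is monotone: only the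
pair `u, v` changes its relative order. Use the proof of `Pool.Agent.Semi.swap_mono` in
`Lib_MP_33fb9b_semi/Cert.lean`.) -/
theorem exists_swap (u v : P) (h1 : ¬ u ≤ v) (h2 : ¬ v ≤ u) (σ : LE P)
    (h : pos σ v = pos σ u + 1) :
    ∃ τ : LE P, pos τ u = pos σ v ∧ pos τ v = pos σ u ∧ ∀ w, w ≠ u → w ≠ v → pos τ w = pos σ w := by
  classical
  have huv : σ.1 u < σ.1 v := by
    have : pos σ u < pos σ v := by omega
    exact this
  have k1 : ∀ s, s < v → σ.1 s < σ.1 u := by
    intro s hs
    have e1 := pos_lt_of_lt σ hs
    have e2 : s ≠ u := fun hc => h1 (hc ▸ hs.le)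
    have e3 := pos_ne (σ := σ) e2
    have : pos σ s < pos σ u := by omega
    exact this
  have k2 : ∀ s, u < s → σ.1 v < σ.1 s := by
    intro s hs
    have e1 := pos_lt_of_lt σ hs
    have e2 : s ≠ v := fun hc => h1 (hc ▸ hs.le)
    have e3 := pos_ne (σ := σ) e2
    have : pos σ v < pos σ s := by omega
    exact this
  refine ⟨⟨(Equiv.swap u v).trans σ.1, swA_mono σ.2 huv k1 k2⟩, ?_, ?_, ?_⟩
  · show ((σ.1 (Equiv.swap u v u) : Fin _) : ℕ) = _
    rw [Equiv.swap_apply_left]; rfl
  · show ((σ.1 (Equiv.swap u v v) : Fin _) : ℕ) = _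
    rw [Equiv.swap_apply_right]; rfl
  · intro w hw1 hw2
    show ((σ.1 (Equiv.swap u v w) : Fin _) : ℕ) = _
    rw [Equiv.swap_apply_of_ne_of_ne hw1 hw2]; rfl

/-- Counting with a swap: if every linear extension with property `Q` has `v` immediately after `u`, and
the swapped one has property `R`, then `Pr Q ≤ Pr R`. (`Pr_le_of_inj` with the map `σ ↦` swapped; the
positions determine `σ`, `LE_ext`.) -/
theorem Pr_swap_le (u v : P) (h1 : ¬ u ≤ v) (h2 : ¬ v ≤ u) (Q R : LE P → Prop)
    (hQ : ∀ σ, Q σ → pos σ v = pos σ u + 1)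
    (hR : ∀ σ τ : LE P, Q σ → pos τ u = pos σ v → pos τ v = pos σ u →
      (∀ w, w ≠ u → w ≠ v → pos τ w = pos σ w) → R τ) :
    Pr Q ≤ Pr R := by
  classical
  have hex : ∀ σ : LE P, ∃ τ : LE P, Q σ → (pos τ u = pos σ v ∧ pos τ v = pos σ u ∧
      ∀ w, w ≠ u → w ≠ v → pos τ w = pos σ w) := by
    intro σ
    by_cases hq : Q σ
    · obtain ⟨τ, hτ⟩ := exists_swap u v h1 h2 σ (hQ σ hq)
      exact ⟨τ, fun _ => hτ⟩
    · exact ⟨σ, fun h => absurd h hq⟩
  choose f hf using hex
  refine Pr_le_of_inj f ?_ ?_
  · intro σ hσ
    obtain ⟨a1, a2, a3⟩ := hf σ hσ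
    exact hR σ (f σ) hσ a1 a2 a3
  · intro σ τ hσ hτ he
    obtain ⟨a1, a2, a3⟩ := hf σ hσ
    obtain ⟨b1, b2, b3⟩ := hf τ hτ
    apply LE_ext
    intro w
    by_cases hu : w = u
    · subst hu; rw [← a2, ← b2, he]
    · by_cases hv : w = v
      · subst hv; rw [← a1, ← b1, he]
      · rw [← a3 w hu hv, ← b3 w hu hv, he]

/-- `P(v immediately after u) = P(u immediately after v)` -/
theorem adj_swap (u v : P) (h1 : ¬ u ≤ v) (h2 : ¬ v ≤ u) : nxt u v 1 = nxt v u 1 := by
  apply le_antisymm
  · refine Pr_swap_le u v h1 h2 _ _ (fun σ h => h) ?_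
    intro σ τ hq a b _
    rw [a, b]; exact hq
  · refine Pr_swap_le v u h2 h1 _ _ (fun σ h => h) ?_
    intro σ τ hq a b _
    rw [a, b]; exact hq

/-- Incomparable elements are adjacent in some linear extension. (Take a linear extension with `u` before
`v` (or the other way round) and minimal distance; if some `w` lies between, the element `w`
immediately after `u` is `> u` (otherwise exchange `u, w`), so every element between is... simpler:
among all linear extensions choose one minimising `|pos u - pos v|`, say `pos u < pos v`. Let `w` be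
immediately after `u`, `w ≠ v`. By minimality `u < w`. Let `w'` be the last element between `u` and `v`
which is `> u`; the next element `w''` is not `> u`, hence not `> w'`, so `w', w''` can be exchanged
unless `w'' = v`; repeating, one reaches a linear extension with the same positions of `u, v` in which
`v` is preceded immediately by an element `> u`, hence not `< v` (as `u, v` are incomparable), which can
be exchanged with `v`: smaller distance.) An alternative: `{x | x < u ∨ x < v}` is a lower set `A`
not containing `u, v`; take a linear extension of `A`, then `u, v`, then the rest: the order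
`P` with the lexicographic key (0 on `A`, 1 on `{u, v}`, 2 elsewhere). -/
theorem adj_pos (u v : P) (h1 : ¬ u ≤ v) (h2 : ¬ v ≤ u) : 0 < nxt u v 1 := by
  classical
  have huv : u ≠ v := fun h => h1 h.le
  obtain ⟨k, hk⟩ : ∃ k : P → ℕ, ∀ x, k x = if x < u ∨ x < v then 0 else if x = u then 1
    else if x = v then 2 else 3 := ⟨_, fun _ => rfl⟩
  have k0 : ∀ x, (x < u ∨ x < v) → k x = 0 := by
    intro x hx
    rw [hk, if_pos hx]
  have ku : k u = 1 := by
    rw [hk, if_neg (by rintro (h | h); exacts [lt_irrefl _ h, h1 h.le]), if_pos rfl]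
  have kv : k v = 2 := by
    rw [hk, if_neg (by rintro (h | h); exacts [h2 h.le, lt_irrefl _ h]), if_neg huv.symm, if_pos rfl]
  have k1 : ∀ x, k x = 1 → x = u := by
    intro x hx
    rw [hk] at hx
    by_cases a : x < u ∨ x < v
    · rw [if_pos a] at hx; omega
    · rw [if_neg a] at hx
      by_cases b : x = u
      · exact b
      · rw [if_neg b] at hx
        by_cases c : x = v
        · rw [if_pos c] at hx; omega
        · rw [if_neg c] at hx; omega
  have k2 : ∀ x, k x = 2 → x = v := by
    intro x hx
    rw [hk] at hx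
    by_cases a : x < u ∨ x < v
    · rw [if_pos a] at hx; omega
    · rw [if_neg a] at hx
      by_cases b : x = u
      · rw [if_pos b] at hx; omega
      · rw [if_neg b] at hx
        by_cases c : x = v
        · exact c
        · rw [if_neg c] at hx; omega
  have k3 : ∀ x, k x ≤ 3 := by
    intro x
    rw [hk]
    split_ifs <;> norm_num
  have kmono : ∀ x y, x ≤ y → k x ≤ k y := by
    intro x y hxy
    by_cases hy : y < u ∨ y < v
    · rw [k0 x (hy.imp (fun h => hxy.trans_lt h) (fun h => hxy.trans_lt h))]
      exact Nat.zero_le _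
    · by_cases hyu : y = u
      · rcases hxy.eq_or_lt with e | e
        · rw [e]
        · rw [k0 x (Or.inl (hyu ▸ e))]
          exact Nat.zero_le _
      · by_cases hyv : y = v
        · rcases hxy.eq_or_lt with e | e
          · rw [e]
          · rw [k0 x (Or.inr (hyv ▸ e))]
            exact Nat.zero_le _
        · have : k y = 3 := by
            rw [hk, if_neg hy, if_neg hyu, if_neg hyv]
          rw [this]
          exact k3 x
  obtain ⟨e, he'⟩ := swA_rel (P := P) (fun x y => k x < k y ∨ (k x = k y ∧ x ≤ y))
    (fun x => Or.inr ⟨rfl, le_rfl⟩)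
    (fun x y z hxy hyz => by
        rcases hxy with h | ⟨h, h'⟩
        · rcases hyz with g | ⟨g, g'⟩
          · exact Or.inl (h.trans g)
          · exact Or.inl (g ▸ h)
        · rcases hyz with g | ⟨g, g'⟩
          · exact Or.inl (h.symm ▸ g)
          · exact Or.inr ⟨h.trans g, h'.trans g'⟩)
    (fun x y hxy hyx => by
        rcases hxy with h | ⟨h, h'⟩
        · rcases hyx with g | ⟨g, g'⟩
          · omega
          · omega
        · rcases hyx with g | ⟨g, g'⟩
          · omega
          · exact le_antisymm h' g')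
  have hmono : Monotone e := fun x y hxy => by
    apply he'
    rcases (kmono x y hxy).lt_or_eq with h | h
    · exact Or.inl h
    · exact Or.inr ⟨h, hxy⟩
  refine Pr_pos (⟨e, hmono⟩ : LE P) ?_
  set σ : LE P := ⟨e, hmono⟩ with hσ
  have hlt : ∀ x y : P, k x < k y → pos σ x < pos σ y := by
    intro x y h
    have h1 : pos σ x ≤ pos σ y := he' x y (Or.inl h)
    refine lt_of_le_of_ne h1 (fun hc => ?_)
    rw [pos_inj hc] at h
    exact lt_irrefl _ h
  have huv' : pos σ u < pos σ v := hlt u v (by rw [ku, kv]; norm_num)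
  by_contra hne
  have hgt : pos σ u + 1 < pos σ v := by omega
  have hcard := pos_lt_card σ v
  obtain ⟨w, hw⟩ := σ.1.surjective ⟨pos σ u + 1, by omega⟩
  have hw' : pos σ w = pos σ u + 1 := by
    have := congrArg (fun t : Fin _ => (t : ℕ)) hw
    exact this
  have hwu : w ≠ u := by
    rintro rfl
    omega
  have hwv : w ≠ v := by
    rintro rfl
    omega
  have a1 : 1 ≤ k w := by
    by_contra hc
    have := hlt w u (by rw [ku]; omega)
    omega
  have a2 : k w ≤ 2 := by
    by_contra hc
    have := hlt v w (by rw [kv]; omega)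
    omega
  have : k w = 1 ∨ k w = 2 := by omega
  rcases this with h | h
  · exact hwu (k1 w h)
  · exact hwv (k2 w h)

/-- incomparable elements occur in both orders -/
theorem lt_pos (u v : P) (h1 : ¬ u ≤ v) (h2 : ¬ v ≤ u) : 0 < lt u v := by
  refine lt_of_lt_of_le (adj_pos u v h1 h2) (Pr_mono fun σ h => ?_)
  omega

end Pool.Agent.BFT
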