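import Mathlib
import Pool.Agent.Lib_MP_33fb9b_bft.BBdef

set_option autoImplicit false

/-!
# Numerics of `BB`, first part

For fixed `k ∈ (0, 1]` each of the four functions is decreasing in `a`, so it is enough to treat
`a = 0.277` (where `ln (1/0.277) - 1 ≥ 0.2835`: `exp 1.2835 ≤ 1/0.277 = 3.6101..`).
-/

namespace Pool.Agent.BFT

/-- `ln (1/a) - 1 ≥ 0.2835` for `a ≤ 0.277` (true value `0.28374`); e.g. `Real.exp_bound'` or
`exp 1 < 2.7182818286` and a Taylor bound for `exp 0.2835 ≤ 1.32777`. -/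
theorem log_num (a : ℝ) (h0 : 0 < a) (h1 : a ≤ 0.277) : 0.2835 ≤ Real.log (1 / a) - 1 := by
  have h2 : Real.exp 0.2835 ≤ 1.3278 := by
    have := Real.exp_bound' (x := 0.2835) (by norm_num) (by norm_num) (n := 5) (by norm_num)
    refine this.trans ?_
    norm_num [Finset.sum_range_succ, Nat.factorial]
  have h3 : Real.exp 1 < 2.7182818286 := Real.exp_one_lt_d9
  have h4 : Real.exp (1.2835 : ℝ) ≤ 1 / a := by
    have h5 : (1.2835 : ℝ) = 1 + 0.2835 := by norm_num
    rw [h5, Real.exp_add]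
    have h6 : Real.exp 1 * Real.exp 0.2835 ≤ 2.7182818286 * 1.3278 :=
      mul_le_mul h3.le h2 (Real.exp_pos _).le (by norm_num)
    refine h6.trans ?_
    rw [le_div_iff₀ h0]
    calc (2.7182818286 : ℝ) * 1.3278 * a ≤ 2.7182818286 * 1.3278 * 0.277 := by
          apply mul_le_mul_of_nonneg_left h1; norm_num
      _ ≤ 1 := by norm_num
  have h7 : (1.2835 : ℝ) ≤ Real.log (1 / a) := (Real.le_log_iff_exp_le (by positivity)).mpr h4
  linarith

/-- monotonicity in `a` -/
theorem BB_anti (a b k : ℝ) (h0 : 0 < a) (h1 : a ≤ b) (hk : 0 < k) (hb : b ≤ 0.277) :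
    BB b k ≤ BB a k := by
  unfold BB
  have hb0 : 0 < b := lt_of_lt_of_le h0 h1
  have hk' : 0 < 1 / k := by positivity
  apply max_le_max
  · apply max_le_max
    · have : a * (5 / 2 + 2 * k + 1 / k) ≤ b * (5 / 2 + 2 * k + 1 / k) :=
        mul_le_mul_of_nonneg_right h1 (by positivity)
      linarith
    · have : a * (3 + 3 * k + k ^ 2 + 1 / k) ≤ b * (3 + 3 * k + k ^ 2 + 1 / k) :=
        mul_le_mul_of_nonneg_right h1 (by positivity)
      linarith
  · apply max_le_max
    · apply div_le_div_of_nonneg_right _ hk.le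
      have : Real.log (1 / b) ≤ Real.log (1 / a) := by
        apply Real.log_le_log (by positivity)
        exact one_div_le_one_div_of_le h0 h1
      linarith
    · have : a * (4 + 7 * k + 4 * k ^ 2 + 1 / k) ≤ b * (4 + 7 * k + 4 * k ^ 2 + 1 / k) :=
        mul_le_mul_of_nonneg_right h1 (by positivity)
      linarith

/-- small `k` at `a = 0.277` -/
private theorem NumA_low (k : ℝ) (hk : 0 < k) (hk1 : k ≤ 0.7257) : 1.036 ≤ BB 0.277 k := by
  unfold BB
  rcases le_total k 0.27 with h | h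
  · refine le_trans ?_ (le_max_right _ _)
    refine le_trans ?_ (le_max_left _ _)
    rw [le_div_iff₀ hk]
    have := log_num 0.277 (by norm_num) (by norm_num)
    nlinarith
  · rcases le_total k 0.5 with h2 | h2
    · refine le_trans ?_ (le_max_right _ _)
      refine le_trans ?_ (le_max_right _ _)
      have h3 : 1.036 * k ≤ (4 - 0.277 * (4 + 7 * k + 4 * k ^ 2 + 1 / k)) * k := by
        have : (4 - 0.277 * (4 + 7 * k + 4 * k ^ 2 + 1 / k)) * k =
            4 * k - 0.277 * (4 * k + 7 * k ^ 2 + 4 * k ^ 3 + 1) := by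
          field_simp
        rw [this]
        nlinarith [mul_nonneg (sub_nonneg.mpr h) (sub_nonneg.mpr h2),
          mul_nonneg (mul_nonneg (sub_nonneg.mpr h) (sub_nonneg.mpr h2)) hk.le]
      exact le_of_mul_le_mul_right h3 hk
    · refine le_trans ?_ (le_max_left _ _)
      refine le_trans ?_ (le_max_right _ _)
      have h3 : 1.036 * k ≤ (3 - 0.277 * (3 + 3 * k + k ^ 2 + 1 / k)) * k := by
        have : (3 - 0.277 * (3 + 3 * k + k ^ 2 + 1 / k)) * k =
            3 * k - 0.277 * (3 * k + 3 * k ^ 2 + k ^ 3 + 1) := by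
          field_simp
        rw [this]
        nlinarith [mul_nonneg (sub_nonneg.mpr h2) (sub_nonneg.mpr hk1),
          mul_nonneg (mul_nonneg (sub_nonneg.mpr h2) (sub_nonneg.mpr hk1)) hk.le]
      exact le_of_mul_le_mul_right h3 hk

/-- For `a = 0.277`: `k ≤ 0.27`: third function `≥ 0.2835/k ≥ 1.05`; `0.27 ≤ k ≤ 0.5`: fourth
(`≥ 1.09`; `k (4 - 0.277 (4 + 7k + 4k^2 + 1/k))` is a cubic); `0.5 ≤ k ≤ 0.726`: second (value at `0.726`:
`1.038`). This gives the claim: `a (1-k) ≥ 0.076` implies `k ≤ 1 - 0.076/0.277 = 0.72564`. -/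
theorem BB_far (a k : ℝ) (h0 : 0 < a) (h1 : a ≤ 0.277) (hk : 0 < k) (hk1 : k ≤ 1)
    (h : 0.076 ≤ a * (1 - k)) : 1.036 ≤ BB a k := by
  refine le_trans ?_ (BB_anti a 0.277 k h0 h1 hk le_rfl)
  apply NumA_low k hk
  have : a * (1 - k) ≤ 0.277 * (1 - k) := mul_le_mul_of_nonneg_right h1 (by linarith)
  linarith

/-- For `a = 0.277` and `k ≥ 0.7256`: `max` of the first and second function is at least
`0.9765 + 0.65 * 0.277 (1-k)` (first function for `k ≥ 0.747`, second for `0.7256 ≤ k ≤ 0.747`; equality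
of the first one at `k = 1`; smallest slack elsewhere `0.0008` at `k = 0.747`). For smaller `a`:
`BB a k ≥ BB 0.277 k` and `a (1-k) ≤ 0.277 (1-k)`; for `k < 0.7256` the value is at least `1.036` by the
proof of `BB_far`, and `0.9765 + 0.65 * 0.076 < 1.026`. -/
theorem BB_near (a k : ℝ) (h0 : 0 < a) (h1 : a ≤ 0.277) (hk : 0 < k) (hk1 : k ≤ 1) :
    0.9765 + 0.65 * min (a * (1 - k)) 0.076 ≤ BB a k := by
  refine le_trans ?_ (BB_anti a 0.277 k h0 h1 hk le_rfl)
  rcases le_total k 0.7256 with h | h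
  · have h2 := NumA_low k hk (by linarith)
    have h3 : min (a * (1 - k)) 0.076 ≤ 0.076 := min_le_right _ _
    linarith
  · have h4 : min (a * (1 - k)) 0.076 ≤ 0.277 * (1 - k) :=
      (min_le_left _ _).trans (mul_le_mul_of_nonneg_right h1 (by linarith))
    have h5 : 0.9765 + 0.65 * (0.277 * (1 - k)) ≤ BB 0.277 k := by
      unfold BB
      refine le_trans ?_ (le_max_left _ _)
      rcases le_total k 0.743 with h2 | h2
      · refine le_trans ?_ (le_max_right _ _)
        have h3 : (0.9765 + 0.65 * (0.277 * (1 - k))) * k ≤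
            (3 - 0.277 * (3 + 3 * k + k ^ 2 + 1 / k)) * k := by
          have : (3 - 0.277 * (3 + 3 * k + k ^ 2 + 1 / k)) * k =
              3 * k - 0.277 * (3 * k + 3 * k ^ 2 + k ^ 3 + 1) := by
            field_simp
          rw [this]
          nlinarith [mul_nonneg (sub_nonneg.mpr h2) (sub_nonneg.mpr h),
            mul_nonneg (mul_nonneg (sub_nonneg.mpr h2) (sub_nonneg.mpr h)) hk.le]
        exact le_of_mul_le_mul_right h3 hk
      · refine le_trans ?_ (le_max_left _ _)
        have h3 : (0.9765 + 0.65 * (0.277 * (1 - k))) * k ≤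
            (5 / 2 - 0.277 * (5 / 2 + 2 * k + 1 / k)) * k := by
          have : (5 / 2 - 0.277 * (5 / 2 + 2 * k + 1 / k)) * k =
              5 / 2 * k - 0.277 * (5 / 2 * k + 2 * k ^ 2 + 1) := by
            field_simp
          rw [this]
          nlinarith [mul_nonneg (sub_nonneg.mpr h2) (sub_nonneg.mpr hk1)]
        exact le_of_mul_le_mul_right h3 hk
    linarith

end Pool.Agent.BFT
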