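import Mathlib
import Pool.Agent.Lib_MP_33fb9b_bft.BBdef
import Pool.Agent.Lib_MP_33fb9b_bft.NumA

set_option autoImplicit false

/-!
# Numerics of `BB`, second part
-/

namespace Pool.Agent.BFT

private theorem numb_one (a k : ℝ) : 5 / 2 - a * (5 / 2 + 2 * k + 1 / k) ≤ BB a k :=
  (le_max_left _ _).trans (le_max_left _ _)

private theorem numb_three (a k : ℝ) : (Real.log (1 / a) - 1) / k ≤ BB a k :=
  (le_max_left _ _).trans (le_max_right _ _)

private theorem numb_four (a k : ℝ) : 4 - a * (4 + 7 * k + 4 * k ^ 2 + 1 / k) ≤ BB a k :=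
  (le_max_right _ _).trans (le_max_right _ _)

private theorem numb_log (a : ℝ) (ha : 0 < a) (m : ℕ) :
    (m : ℝ) * Real.log 2 - 2 ^ m * a ≤ Real.log (1 / a) - 1 := by
  have h2 : (0 : ℝ) < 2 ^ m := by positivity
  have h1 := Real.one_sub_inv_le_log_of_pos (x := 1 / (2 ^ m * a)) (by positivity)
  have h3 : Real.log (1 / (2 ^ m * a)) = Real.log (1 / a) - m * Real.log 2 := by
    rw [one_div, Real.log_inv, Real.log_mul h2.ne' ha.ne', Real.log_pow, one_div, Real.log_inv]
    ring
  rw [h3] at h1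
  rw [one_div, inv_inv] at h1
  linarith

/-- `a ≤ 1/4`: for `k ≤ 0.38` the third function at `a = 1/4` is `≥ 0.386/k ≥ 1.0157`; for `k ≥ 0.38` the
first is `≥ 1.0274` (`15/8 - k/2 - 1/(4k)`). -/
theorem BB_quarter (a k : ℝ) (h0 : 0 < a) (h1 : a ≤ 1 / 4) (hk : 0 < k) (hk1 : k ≤ 1) :
    1.0125 ≤ BB a k := by
  have hl := Real.log_two_gt_d9
  rcases le_total k 0.38 with h | h
  · refine le_trans ?_ (numb_three a k)
    rw [le_div_iff₀ hk]
    have h3 := numb_log a h0 2
    norm_num at h3 h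
    norm_num
    nlinarith
  · refine le_trans ?_ (numb_one a k)
    have h3 : 1 / k ≤ 1 / 0.38 := one_div_le_one_div_of_le (by norm_num) h
    have h4 : 0 ≤ 5 / 2 + 2 * k + 1 / k := by positivity
    have h5 : a * (5 / 2 + 2 * k + 1 / k) ≤ 1 / 4 * (5 / 2 + 2 * k + 1 / k) :=
      mul_le_mul_of_nonneg_right h1 h4
    have h6 : 2 * k + 1 / k ≤ 3.4 := by
      have : 1 / k = 1 / k := rfl
      rw [← sub_nonneg]
      have h7 : 3.4 - (2 * k + 1 / k) = (3.4 * k - 2 * k ^ 2 - 1) / k := by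
        field_simp
        ring
      rw [h7]
      apply div_nonneg _ hk.le
      norm_num at h
      nlinarith
    have h8 : (1.0125 : ℝ) = 81 / 80 := by norm_num
    have h9 : (3.4 : ℝ) = 34 / 10 := by norm_num
    rw [h8]
    rw [h9] at h6
    linarith

/-- `a ≤ 0.1374`, `a k ≤ 0.0916`: for `k ≤ 0.4` the third function: `ln (1/0.1374) - 1 ≥ 0.98`,
`0.98/0.4 ≥ 2.4`. For `0.4 ≤ k ≤ 2/3` the fourth at `a = 0.1374`: `7k + 4k^2 + 1/k ≤ 7.95` (convex,
endpoints), value `≥ 2.35`. For `2/3 ≤ k ≤ 1` the fourth with `a ≤ 0.0916/k`: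
`a (4 + 7k + 4k^2 + 1/k) ≤ 0.0916 (4/k + 7 + 4k + 1/k^2) ≤ 0.0916 * 17.92 < 1.65`. -/
theorem BB_anti_chain (a k : ℝ) (h0 : 0 < a) (h1 : a ≤ 0.1374) (hk : 0 < k) (hk1 : k ≤ 1)
    (h : a * k ≤ 0.0916) : 2.0125 ≤ BB a k := by
  have hl := Real.log_two_gt_d9
  norm_num at h1 h
  rcases le_total k (2 / 5) with h2 | h2
  · refine le_trans ?_ (numb_three a k)
    rw [le_div_iff₀ hk]
    have h3 := numb_log a h0 3
    norm_num at h3
    norm_num
    nlinarith
  · rcases le_total k (2 / 3) with h3 | h3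
    · refine le_trans ?_ (numb_four a k)
      have h4 : 1 / k ≤ 1 / (2 / 5) := one_div_le_one_div_of_le (by norm_num) h2
      have h5 : k ^ 2 ≤ 4 / 9 := by nlinarith
      have h6 : 4 + 7 * k + 4 * k ^ 2 + 1 / k ≤ 13 := by
        norm_num at h4 ⊢
        linarith
      have h7 : a * (4 + 7 * k + 4 * k ^ 2 + 1 / k) ≤ a * 13 :=
        mul_le_mul_of_nonneg_left h6 h0.le
      have h8 : (2.0125 : ℝ) = 161 / 80 := by norm_num
      rw [h8]
      linarith
    · refine le_trans ?_ (numb_four a k)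
      have h4 : 1 / k ≤ 1 / (2 / 3) := one_div_le_one_div_of_le (by norm_num) h3
      have h8 : 0 < 1 / k := by positivity
      have h5 : (1 / k) ^ 2 ≤ 9 / 4 := by
        norm_num at h4
        have h8' : 0 < k⁻¹ := by positivity
        rw [one_div]
        nlinarith
      have h6 : a * (4 + 7 * k + 4 * k ^ 2 + 1 / k) =
          (a * k) * (4 * (1 / k) + 7 + 4 * k + (1 / k) ^ 2) := by
        field_simp
      rw [h6]
      have h9 : 4 * (1 / k) + 7 + 4 * k + (1 / k) ^ 2 ≤ 20 := by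
        norm_num at h4 h5 ⊢
        linarith
      have h10 : 0 < a * k := by positivity
      norm_num
      norm_num at h9
      nlinarith

/-- `t = a k ≤ 0.036`: third function. `(ln (1/a) - 1)/k = a (ln (1/a) - 1)/t`. If `a ≤ 0.036`:
`k ≤ 1` and `ln (1/a) - 1 ≥ 2.32`. If `0.036 ≤ a ≤ 0.277`: `a (ln (1/a) - 1)` is concave in `a`, at the
endpoints `≥ 0.0785`, and `0.0785/0.036 = 2.18`. (Or: split at `a = 0.1` and use monotonicity of
`ln`.) -/
theorem BB_small (a k : ℝ) (h0 : 0 < a) (h1 : a ≤ 0.277) (hk : 0 < k) (hk1 : k ≤ 1)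
    (h : a * k ≤ 0.036) : 2.0125 ≤ BB a k := by
  have hl := Real.log_two_gt_d9
  norm_num at h1 h hl
  refine le_trans ?_ (numb_three a k)
  rw [le_div_iff₀ hk]
  have hL2 := numb_log a h0 2
  have hL3 := numb_log a h0 3
  have hL4 := numb_log a h0 4
  have hL5 := numb_log a h0 5
  norm_num at hL2 hL3 hL4 hL5
  norm_num
  rcases le_total a (36 / 1000) with h2 | h2
  · nlinarith
  · suffices h3 : 161 / 80 * (9 / 250) ≤ a * (-Real.log a - 1) by
      have h4 : a * (161 / 80 * k) ≤ a * (-Real.log a - 1) := by nlinarith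
      exact le_of_mul_le_mul_left h4 h0
    rcases le_total a (7 / 100) with h3 | h3
    · have h4 : a * (5 * Real.log 2 - 32 * a) ≤ a * (-Real.log a - 1) :=
        mul_le_mul_of_nonneg_left (by linarith) h0.le
      nlinarith
    · rcases le_total a (13 / 100) with h5 | h5
      · have h4 : a * (4 * Real.log 2 - 16 * a) ≤ a * (-Real.log a - 1) :=
          mul_le_mul_of_nonneg_left (by linarith) h0.le
        nlinarith
      · rcases le_total a (1 / 5) with h6 | h6
        · have h4 : a * (3 * Real.log 2 - 8 * a) ≤ a * (-Real.log a - 1) :=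
            mul_le_mul_of_nonneg_left (by linarith) h0.le
          nlinarith
        · have h4 : a * (2 * Real.log 2 - 4 * a) ≤ a * (-Real.log a - 1) :=
            mul_le_mul_of_nonneg_left (by linarith) h0.le
          nlinarith

end Pool.Agent.BFT
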