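import Mathlib
import Pool.Agent.Lib_MP_33fb9b_bft.XvBasic

set_option autoImplicit false

/-!
# Events of the continuous model: order and small differences

All statements are proved linear extension by linear extension with `XL_real` (the left side is
`Ex` of `(gam n).real`, the right side is `Ex` of the value for each linear extension, `Ex_mono`).
-/

namespace Pool.Agent.BFT

open MeasureTheory

variable {P : Type} [Fintype P] [PartialOrder P]

/-- `P(X_v < X_u)` is the probability that `v` comes before `u` (by `Xv_ae` the probability is `1`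
or `0` for each linear extension) -/
theorem XL_lt (u v : P) : (XL P).real {x | x v < x u} = lt v u := by
  have hA : MeasurableSet {x : P → ℝ | x v < x u} :=
    measurableSet_lt (measurable_pi_apply v) (measurable_pi_apply u)
  rw [XL_real _ hA]
  unfold lt Pr
  apply Ex_congr
  intro σ
  by_cases h : pos σ v < pos σ u
  · rw [ind_true h]
    have h1 : (gam (Fintype.card P)).real {y | Xv σ y ∈ {x : P → ℝ | x v < x u}}
        = (gam (Fintype.card P)).real Set.univ := by
      apply measureReal_congr
      filter_upwards [Xv_ae σ] with y hy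
      apply propext
      exact ⟨fun _ => trivial, fun _ => (hy v u).mpr h⟩
    rw [h1, probReal_univ]
  · rw [ind_false h]
    have h1 : (gam (Fintype.card P)).real {y | Xv σ y ∈ {x : P → ℝ | x v < x u}}
        = (gam (Fintype.card P)).real ∅ := by
      apply measureReal_congr
      filter_upwards [Xv_ae σ] with y hy
      apply propext
      exact ⟨fun h2 => absurd ((hy v u).mp h2) h, fun h2 => absurd h2 (Set.notMem_empty y)⟩
    rw [h1, measureReal_empty]

/-- ties are null -/
theorem XL_tie (u v : P) (huv : u ≠ v) : (XL P).real {x | x v = x u} = 0 := by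
  have hA : MeasurableSet {x : P → ℝ | x v = x u} :=
    measurableSet_eq_fun (measurable_pi_apply v) (measurable_pi_apply u)
  rw [XL_real _ hA]
  rw [Ex_congr (g := fun _ => 0), Ex_const]
  intro σ
  have h1 : (gam (Fintype.card P)).real {y | Xv σ y ∈ {x : P → ℝ | x v = x u}}
      = (gam (Fintype.card P)).real ∅ := by
    apply measureReal_congr
    filter_upwards [Xv_ae σ] with y hy
    apply propext
    refine ⟨fun h2 => ?_, fun h2 => absurd h2 (Set.notMem_empty y)⟩
    have h3 : Xv σ y v = Xv σ y u := h2
    rcases lt_or_gt_of_ne (pos_ne (σ := σ) huv) with h | h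
    · exact absurd ((hy u v).mpr h) (by rw [h3]; exact lt_irrefl _)
    · exact absurd ((hy v u).mpr h) (by rw [h3]; exact lt_irrefl _)
  rw [h1, measureReal_empty]

/-- Upper bound for small differences. For a linear extension with `pos v < pos u` the probability
is `0`; with `pos v = pos u + 1` it is `1 - exp(-ε) ≤ ε` (`Xv_one`, `gam_one`); with
`pos v ≥ pos u + 2` at most `(1 - exp (-ε))^2 ≤ ε^2` (`Xv_ge_two`, `gam_two`). -/
theorem XL_small_le (u v : P) (huv : u ≠ v) (ε : ℝ) (hε : 0 ≤ ε) :
    (XL P).real {x | 0 ≤ x v - x u ∧ x v - x u < ε} ≤ nxt u v 1 * ε + ε ^ 2 := by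
  have hA : MeasurableSet {x : P → ℝ | 0 ≤ x v - x u ∧ x v - x u < ε} :=
    (measurableSet_le measurable_const ((measurable_pi_apply v).sub (measurable_pi_apply u))).inter
      (measurableSet_lt ((measurable_pi_apply v).sub (measurable_pi_apply u)) measurable_const)
  rw [XL_real _ hA]
  have h0 : nxt u v 1 * ε + ε ^ 2
      = Ex (fun σ : LE P => ε * ind (pos σ v = pos σ u + 1) + ε ^ 2) := by
    rw [Ex_add, Ex_mul, Ex_const, mul_comm]
    rfl
  rw [h0]
  apply Ex_mono
  intro σ
  have he1 : 1 - Real.exp (-ε) ≤ ε := by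
    have := Real.add_one_le_exp (-ε)
    linarith
  have he0 : 0 ≤ 1 - Real.exp (-ε) := by
    have := Real.exp_le_one_iff.mpr (neg_nonpos.mpr hε)
    linarith
  have hi := mul_nonneg hε (ind_nonneg (pos σ v = pos σ u + 1))
  rcases lt_trichotomy (pos σ v) (pos σ u + 1) with h | h | h
  · have h2 : pos σ v < pos σ u := lt_of_le_of_ne (by omega) (pos_ne huv.symm)
    have h1 : (gam (Fintype.card P)).real
        {y | Xv σ y ∈ {x : P → ℝ | 0 ≤ x v - x u ∧ x v - x u < ε}}
        = (gam (Fintype.card P)).real ∅ := by
      apply measureReal_congr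
      filter_upwards [Xv_ae σ] with y hy
      apply propext
      refine ⟨fun h3 => ?_, fun h3 => absurd h3 (Set.notMem_empty y)⟩
      have h4 : 0 ≤ Xv σ y v - Xv σ y u := h3.1
      have h5 := (hy v u).mpr h2
      linarith
    rw [h1, measureReal_empty]
    positivity
  · have h1 : (gam (Fintype.card P)).real
        {y | Xv σ y ∈ {x : P → ℝ | 0 ≤ x v - x u ∧ x v - x u < ε}}
        ≤ (gam (Fintype.card P)).real {y | y (σ.1 v) < ε} := by
      apply measureReal_mono
      · intro y hy
        have h3 : Xv σ y v - Xv σ y u < ε := hy.2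
        rw [Xv_one σ y u v h] at h3
        exact h3
      · exact measure_ne_top _ _
    rw [gam_one _ _ _ hε] at h1
    rw [ind_true h]
    nlinarith [sq_nonneg ε]
  · obtain ⟨j, k, hjk, hy⟩ := Xv_ge_two σ u v (by omega)
    have h1 : (gam (Fintype.card P)).real
        {y | Xv σ y ∈ {x : P → ℝ | 0 ≤ x v - x u ∧ x v - x u < ε}}
        ≤ (gam (Fintype.card P)).real {y | y j < ε ∧ y k < ε} := by
      apply ENNReal.toReal_mono (measure_ne_top _ _) (measure_mono_ae ?_)
      filter_upwards [gam_pos (Fintype.card P)] with y hp hh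
      have h3 : Xv σ y v - Xv σ y u < ε := hh.2
      have h4 := hy y hp
      exact ⟨by linarith [h4.1], by linarith [h4.2]⟩
    rw [gam_two _ _ _ hjk _ hε] at h1
    have h5 : (1 - Real.exp (-ε)) ^ 2 ≤ ε ^ 2 := pow_le_pow_left₀ he0 he1 2
    linarith

/-- Lower bound: only the linear extensions with `pos v = pos u + 1`. -/
theorem XL_small_ge (u v : P) (ε : ℝ) (hε : 0 ≤ ε) :
    nxt u v 1 * (1 - Real.exp (-ε)) ≤ (XL P).real {x | 0 < x v - x u ∧ x v - x u < ε} := by
  have hA : MeasurableSet {x : P → ℝ | 0 < x v - x u ∧ x v - x u < ε} :=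
    (measurableSet_lt measurable_const ((measurable_pi_apply v).sub (measurable_pi_apply u))).inter
      (measurableSet_lt ((measurable_pi_apply v).sub (measurable_pi_apply u)) measurable_const)
  rw [XL_real _ hA]
  have h0 : nxt u v 1 * (1 - Real.exp (-ε))
      = Ex (fun σ : LE P => (1 - Real.exp (-ε)) * ind (pos σ v = pos σ u + 1)) := by
    rw [Ex_mul, mul_comm]
    rfl
  rw [h0]
  apply Ex_mono
  intro σ
  by_cases h : pos σ v = pos σ u + 1
  · rw [ind_true h, mul_one, ← gam_one _ (σ.1 v) _ hε]
    apply ENNReal.toReal_mono (measure_ne_top _ _) (measure_mono_ae ?_)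
    filter_upwards [gam_pos (Fintype.card P)] with y hp hh
    have h3 := Xv_one σ y u v h
    have h4 : y (σ.1 v) < ε := hh
    have h5 := hp (σ.1 v)
    exact ⟨by rw [h3]; exact h5, by rw [h3]; exact h4⟩
  · rw [ind_false h, mul_zero]
    exact measureReal_nonneg

end Pool.Agent.BFT
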