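import Mathlib
import Pool.Agent.Lib_MP_33fb9b_bft.Cont

set_option autoImplicit false

/-!
# Spacings: mean
-/

namespace Pool.Agent.BFT

open MeasureTheory

private theorem SpaceC_dens (x : ℝ) :
    (ENNReal.ofReal (if 0 < x then Real.exp (-x) else 0)).toReal * x =
      (Set.Ioi (0:ℝ)).indicator (fun x => Real.exp (-x) * x ^ ((2:ℝ) - 1)) x := by
  by_cases h : 0 < x
  · rw [if_pos h, ENNReal.toReal_ofReal (Real.exp_pos _).le, Set.indicator_of_mem (Set.mem_Ioi.mpr h)]
    norm_num
  · rw [if_neg h, Set.indicator_of_notMem (by simpa using h)]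
    simp

/-- `∫ y dexpo = 1` (`∫_0^∞ y exp(-y) dy = 1`, the Gamma function at `2`, or integration by parts). -/
theorem expo_mean : Integrable (fun x : ℝ => x) expo ∧ ∫ x, x ∂expo = 1 := by
  have hlt : ∀ᵐ x ∂(volume : Measure ℝ),
      ENNReal.ofReal (if 0 < x then Real.exp (-x) else 0) < ⊤ :=
    Filter.Eventually.of_forall fun x => ENNReal.ofReal_lt_top
  constructor
  · unfold expo
    rw [integrable_withDensity_iff expo_meas hlt]
    have h1 : (fun x : ℝ => x * (ENNReal.ofReal (if 0 < x then Real.exp (-x) else 0)).toReal) =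
        (Set.Ioi (0:ℝ)).indicator (fun x => Real.exp (-x) * x ^ ((2:ℝ) - 1)) := by
      funext x
      rw [mul_comm]
      exact SpaceC_dens x
    rw [h1, integrable_indicator_iff measurableSet_Ioi]
    exact Real.GammaIntegral_convergent (by norm_num)
  · unfold expo
    rw [integral_withDensity_eq_integral_toReal_smul expo_meas hlt]
    simp_rw [smul_eq_mul, SpaceC_dens]
    rw [integral_indicator measurableSet_Ioi, ← Real.Gamma_eq_integral (by norm_num)]
    exact Real.Gamma_two

/-- mean of a sum of spacings (linearity, `measurePreserving_eval`) -/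
theorem gam_mean (n : ℕ) (J : Finset (Fin n)) :
    Integrable (fun y : Fin n → ℝ => ∑ j ∈ J, y j) (gam n) ∧
      ∫ y, ∑ j ∈ J, y j ∂(gam n) = (J.card : ℝ) := by
  have hI : ∀ j : Fin n, Integrable (fun y : Fin n → ℝ => y j) (gam n) := by
    intro j
    have h := (measurePreserving_eval (fun _ : Fin n => expo) j)
    have h2 := h.integrable_comp_of_integrable expo_mean.1
    exact h2
  have hV : ∀ j : Fin n, ∫ y, y j ∂(gam n) = 1 := by
    intro j
    have h := (measurePreserving_eval (fun _ : Fin n => expo) j)
    have h2 : ∫ y, y j ∂(gam n) = ∫ x, x ∂((gam n).map (Function.eval j)) := by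
      have h4 : AEStronglyMeasurable (fun x : ℝ => x) ((gam n).map (Function.eval j)) :=
        measurable_id.aestronglyMeasurable
      rw [integral_map h.measurable.aemeasurable h4]
    rw [h2]
    have h3 : (gam n).map (Function.eval j) = expo := h.map_eq
    rw [h3]
    exact expo_mean.2
  constructor
  · exact integrable_finsetSum J fun j _ => hI j
  · rw [integral_finsetSum J fun j _ => hI j]
    simp [hV]

end Pool.Agent.BFT
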