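import Mathlib
import Pool.Agent.Lib_MP_33fb9b_bft.XvBasic
import Pool.Agent.Lib_MP_33fb9b_bft.SpaceC

set_option autoImplicit false

/-!
# Expectations in the continuous model
-/

namespace Pool.Agent.BFT

open MeasureTheory

variable {P : Type} [Fintype P] [PartialOrder P]

/-- transfer of integrals: `∫ f dXL = Ex (∫ f (Xv σ y) dgam)` for `f` measurable with every
`f ∘ Xv σ` integrable (`integral_finset_sum_measure`, `integral_smul_measure`, `integral_map`) -/
theorem XL_integral (f : (P → ℝ) → ℝ) (hf : Measurable f)
    (hi : ∀ σ : LE P, Integrable (fun y => f (Xv σ y)) (gam (Fintype.card P))) :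
    Integrable f (XL P) ∧
      ∫ x, f x ∂(XL P) = Ex (fun σ : LE P => ∫ y, f (Xv σ y) ∂(gam (Fintype.card P))) := by
  have h1 : ∀ σ : LE P, Integrable f ((gam (Fintype.card P)).map (Xv σ)) := by
    intro σ
    rw [integrable_map_measure hf.aestronglyMeasurable (Xv_measurable σ).aemeasurable]
    exact hi σ
  constructor
  · unfold XL
    refine Integrable.smul_measure ?_ ?_
    · rw [integrable_finsetSum_measure]
      exact fun σ _ => h1 σ
    · rw [ne_eq, ENNReal.inv_eq_top]
      exact_mod_cast (Fintype.card_pos (α := LE P)).ne'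
  · unfold XL Ex
    rw [integral_smul_measure, integral_finsetSum_measure (fun σ _ => h1 σ), smul_eq_mul,
      ENNReal.toReal_inv, ENNReal.toReal_natCast, div_eq_inv_mul]
    congr 1
    apply Finset.sum_congr rfl
    intro σ _
    rw [integral_map (Xv_measurable σ).aemeasurable hf.aestronglyMeasurable]

/-- `E (X_v - X_u)^+ = E (pos v - pos u)^+`: for a linear extension with `pos u ≤ pos v` the
difference is, almost surely nonnegative, a sum of `pos v - pos u` spacings (`Xv_diff`, `Xv_card`,
`gam_mean`); otherwise the positive part is almost surely `0` (`Xv_ae`). -/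
theorem XL_plus (u v : P) : Integrable (fun x : P → ℝ => max (x v - x u) 0) (XL P) ∧
    ∫ x, max (x v - x u) 0 ∂(XL P) = dd v u := by
  have hm : Measurable (fun x : P → ℝ => max (x v - x u) 0) :=
    ((measurable_pi_apply v).sub (measurable_pi_apply u)).max measurable_const
  have key : ∀ σ : LE P,
      Integrable (fun y => max (Xv σ y v - Xv σ y u) 0) (gam (Fintype.card P)) ∧
      ∫ y, max (Xv σ y v - Xv σ y u) 0 ∂(gam (Fintype.card P)) =
        max ((pos σ v : ℝ) - pos σ u) 0 := by
    intro σ
    rcases le_total (pos σ u) (pos σ v) with h | h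
    · have hg := gam_mean (Fintype.card P) (Finset.Ioc (σ.1 u) (σ.1 v))
      have hae : (fun y => max (Xv σ y v - Xv σ y u) 0) =ᵐ[gam (Fintype.card P)]
          fun y => ∑ j ∈ Finset.Ioc (σ.1 u) (σ.1 v), y j := by
        filter_upwards [Xv_ae σ] with y hy
        have h2 : 0 ≤ Xv σ y v - Xv σ y u := by
          have h3 := (hy v u).not.mpr (by omega)
          linarith
        rw [max_eq_left h2, Xv_diff σ y u v h]
      refine ⟨hg.1.congr hae.symm, ?_⟩
      rw [integral_congr_ae hae, hg.2, Xv_card, Nat.cast_sub h, max_eq_left]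
      have : (pos σ u : ℝ) ≤ pos σ v := by exact_mod_cast h
      linarith
    · have hae : (fun y => max (Xv σ y v - Xv σ y u) 0) =ᵐ[gam (Fintype.card P)]
          fun _ => (0 : ℝ) := by
        filter_upwards [Xv_ae σ] with y hy
        have h3 := (hy u v).not.mpr (by omega)
        exact max_eq_right (by linarith)
      refine ⟨(integrable_zero _ _ _).congr hae.symm, ?_⟩
      rw [integral_congr_ae hae, integral_zero, max_eq_right]
      have : (pos σ v : ℝ) ≤ pos σ u := by exact_mod_cast h
      linarith
  obtain ⟨h1, h2⟩ := XL_integral _ hm fun σ => (key σ).1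
  refine ⟨h1, ?_⟩
  rw [h2]
  unfold dd
  exact Ex_congr fun σ => (key σ).2

end Pool.Agent.BFT
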