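import Mathlib
import Pool.Agent.Lib_MP_33fb9b_bft.MCons
import Pool.Agent.Lib_MP_33fb9b_bft.XLA
import Pool.Agent.Lib_MP_33fb9b_bft.XLD

set_option autoImplicit false

/-!
# Inequality (i)
-/

namespace Pool.Agent.BFT

open MeasureTheory

variable {P : Type} [Fintype P] [PartialOrder P]

/-- a nonnegative number is at most `ε` times the number of `k` with `k ε` below it -/
private lemma IneqI_pt (z ε : ℝ) (hε : 0 < ε) :
    ENNReal.ofReal (max z 0) ≤ ∑' k : ℕ, (if (k : ℝ) * ε < z then ENNReal.ofReal ε else 0) := by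
  rcases le_or_gt z 0 with h | h
  · rw [max_eq_right h]; simp
  · rw [max_eq_left h.le]
    have h1 : z ≤ (⌈z / ε⌉₊ : ℝ) * ε := by
      have := Nat.le_ceil (z / ε)
      rwa [div_le_iff₀ hε] at this
    calc ENNReal.ofReal z ≤ ENNReal.ofReal ((⌈z / ε⌉₊ : ℝ) * ε) := ENNReal.ofReal_le_ofReal h1
      _ = ∑ k ∈ Finset.range ⌈z / ε⌉₊, ENNReal.ofReal ε := by
          rw [Finset.sum_const, Finset.card_range, nsmul_eq_mul,
            ENNReal.ofReal_mul (Nat.cast_nonneg _), ENNReal.ofReal_natCast]
      _ = ∑ k ∈ Finset.range ⌈z / ε⌉₊, (if (k : ℝ) * ε < z then ENNReal.ofReal ε else 0) := by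
          apply Finset.sum_congr rfl
          intro k hk
          rw [Finset.mem_range, Nat.lt_ceil, lt_div_iff₀ hε] at hk
          rw [if_pos hk]
      _ ≤ ∑' k : ℕ, (if (k : ℝ) * ε < z then ENNReal.ofReal ε else 0) := ENNReal.sum_le_tsum _

/-- a log-concave, nonincreasing sequence is dominated by a geometric one -/
private lemma IneqI_geom (F : ℕ → ℝ) (h0 : ∀ k, 0 ≤ F k) (hm : ∀ k, F (k + 1) ≤ F k)
    (hl : ∀ k, F (k + 2) * F k ≤ F (k + 1) ^ 2) (k : ℕ) :
    F (k + 1) * F 0 ≤ F k * F 1 := by
  induction k with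
  | zero => rw [zero_add, mul_comm]
  | succ k ih =>
    rcases eq_or_lt_of_le (h0 (k + 1)) with h | h
    · have h1 : F (k + 2) = 0 := le_antisymm (by rw [h]; exact hm (k + 1)) (h0 _)
      show F (k + 2) * F 0 ≤ F (k + 1) * F 1
      rw [h1, zero_mul]
      exact mul_nonneg (h0 _) (h0 _)
    · have hk : 0 < F k := lt_of_lt_of_le h (hm k)
      show F (k + 2) * F 0 ≤ F (k + 1) * F 1
      have h1 := mul_le_mul_of_nonneg_right (hl k) (h0 0)
      have h2 := mul_le_mul_of_nonneg_left ih h.le
      have h3 : (F (k + 2) * F 0) * F k ≤ (F (k + 1) * F 1) * F k := by nlinarith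
      exact le_of_mul_le_mul_right h3 hk

/-- `P(pos u = pos v + 1) * E (pos u - pos v)^+ ≤ P(v before u)^2`.
Proof. Put `Y = X_v - X_u`, `F s = P(Y < s)`, `al = F 0 = lt v u` (`XL_lt`, ties are null), `t = nxt v u 1`.
If `al = 0` then `dd u v = 0`. Let `0 < ε ≤ 1`, `r = F (-ε) / al ≤ 1`. `F_lc` at the points `-kε` with
`h = ε` gives, by induction on `k`, `F (-(k+1)ε) * al ≤ F (-kε) * F (-ε)` (if some `F` vanishes all the
later ones do), hence `F (-kε) ≤ al * r^k`. Since `max (-Y) 0 ≤ ε ∑_{k < K} 1{Y < -kε}` on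
`-Y ≤ Kε` (and the values of `Y` are integrable: let `K → ∞`, or use the layer-cake
`∫ max (-Y) 0 ≤ ε ∑'_k F (-kε)` with `tsum` / `ENNReal`), `dd u v ≤ ε al / (1 - r) =
ε al^2 / (al - F (-ε))` when `r < 1`. Finally `al - F (-ε) ≥ P(0 < X_u - X_v < ε) ≥
t (1 - exp (-ε))` (`XL_small_ge v u`). So `t * dd u v * (1 - exp (-ε)) / ε ≤ al^2` and `ε → 0`. -/
theorem ineq_i (u v : P) (huv : u ≠ v) : nxt v u 1 * dd u v ≤ (lt v u) ^ 2 := by
  have ht0 : 0 ≤ nxt v u 1 := Pr_nonneg _
  rcases eq_or_lt_of_le ht0 with ht | ht
  · rw [← ht, zero_mul]; exact sq_nonneg _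
  have hal : lt v u = (XL P).real {x | x v - x u < 0} := by
    rw [← XL_lt u v]
    congr 1
    ext x
    simp only [Set.mem_ofPred_eq, sub_neg]
  have key : ∀ ε : ℝ, 0 < ε → nxt v u 1 * dd u v ≤ (lt v u) ^ 2 * (1 + ε) := by
    intro ε hε
    let F : ℕ → ℝ := fun k => (XL P).real {x | x v - x u < -((k : ℝ) * ε)}
    have hF0 : F 0 = lt v u := by
      rw [hal]; simp [F]
    have hnn : ∀ k, 0 ≤ F k := fun k => measureReal_nonneg
    have hm : ∀ k, F (k + 1) ≤ F k := by
      intro k
      apply measureReal_mono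
      · intro x hx
        simp only [Set.mem_ofPred_eq] at hx ⊢
        push_cast at hx
        nlinarith
      · exact measure_ne_top _ _
    have hl : ∀ k, F (k + 2) * F k ≤ F (k + 1) ^ 2 := by
      intro k
      have h := F_lc u v (-(((k + 1 : ℕ) : ℝ) * ε)) ε hε.le
      have e1 : -(((k + 1 : ℕ) : ℝ) * ε) - ε = -(((k + 2 : ℕ) : ℝ) * ε) := by push_cast; ring
      have e2 : -(((k + 1 : ℕ) : ℝ) * ε) + ε = -((k : ℝ) * ε) := by push_cast; ring
      rw [e1, e2] at h
      exact h
    have hg := IneqI_geom F hnn hm hl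
    -- the drop of the distribution function
    have hdrop : nxt v u 1 * (1 - Real.exp (-ε)) ≤ F 0 - F 1 := by
      have h1 := XL_small_ge v u ε hε.le
      have h2 : (XL P).real {x | 0 < x u - x v ∧ x u - x v < ε} + F 1 ≤ F 0 := by
        have hdisj : Disjoint {x : P → ℝ | 0 < x u - x v ∧ x u - x v < ε}
            {x : P → ℝ | x v - x u < -(((1 : ℕ) : ℝ) * ε)} := by
          rw [Set.disjoint_left]
          intro x hx hx'
          simp only [Set.mem_ofPred_eq, Nat.cast_one, one_mul] at hx hx'
          linarith [hx.2]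
        have hmeas : MeasurableSet {x : P → ℝ | x v - x u < -(((1 : ℕ) : ℝ) * ε)} :=
          measurableSet_lt ((measurable_pi_apply v).sub (measurable_pi_apply u)) measurable_const
        rw [← measureReal_union hdisj hmeas]
        apply measureReal_mono
        · intro x hx
          simp only [Set.mem_union, Set.mem_ofPred_eq, Nat.cast_one, one_mul, Nat.cast_zero,
            zero_mul, neg_zero] at hx ⊢
          rcases hx with hx | hx
          · linarith [hx.1]
          · linarith
        · exact measure_ne_top _ _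
      linarith
    have hexp : ε / (1 + ε) ≤ 1 - Real.exp (-ε) := by
      have h1 : Real.exp (-ε) ≤ 1 / (1 + ε) := by
        rw [Real.exp_neg, inv_eq_one_div]
        exact one_div_le_one_div_of_le (by linarith) (by linarith [Real.add_one_le_exp ε])
      have h2 : ε / (1 + ε) = 1 - 1 / (1 + ε) := by field_simp; ring
      rw [h2]; linarith
    have hpos : 0 < ε / (1 + ε) := by positivity
    have hδ : 0 < F 0 - F 1 :=
      lt_of_lt_of_le (mul_pos ht (lt_of_lt_of_le hpos hexp)) hdrop
    have hF0pos : 0 < F 0 := by linarith [hnn 1]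
    set r : ℝ := F 1 / F 0 with hr
    have hr0 : 0 ≤ r := div_nonneg (hnn 1) hF0pos.le
    have hr1 : r < 1 := by rw [hr, div_lt_one hF0pos]; linarith
    have hpow : ∀ k, F k ≤ F 0 * r ^ k := by
      intro k
      induction k with
      | zero => simp
      | succ k ih =>
        have h1 := hg k
        have h2 : F (k + 1) ≤ F k * r := by
          rw [hr, mul_div_assoc', le_div_iff₀ hF0pos]; exact h1
        calc F (k + 1) ≤ F k * r := h2
          _ ≤ (F 0 * r ^ k) * r := mul_le_mul_of_nonneg_right ih hr0
          _ = F 0 * r ^ (k + 1) := by ring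
    -- the integral
    have hdd : dd u v ≤ ε * F 0 * (1 - r)⁻¹ := by
      obtain ⟨hint, hval⟩ := XL_plus v u
      rw [← hval, integral_eq_lintegral_of_nonneg_ae
        (f := fun x : P → ℝ => max (x u - x v) 0)
        (Filter.Eventually.of_forall fun x => le_max_right _ _) hint.aestronglyMeasurable]
      apply ENNReal.toReal_le_of_le_ofReal
      · have : 0 ≤ (1 - r)⁻¹ := inv_nonneg.mpr (by linarith)
        positivity
      · have hms : ∀ k : ℕ, Measurable (fun x : P → ℝ =>
            (if (k : ℝ) * ε < x u - x v then ENNReal.ofReal ε else 0)) := by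
          intro k
          exact Measurable.ite (measurableSet_lt measurable_const
            ((measurable_pi_apply u).sub (measurable_pi_apply v))) measurable_const
            measurable_const
        calc ∫⁻ x : P → ℝ, ENNReal.ofReal (max (x u - x v) 0) ∂(XL P)
            ≤ ∫⁻ x : P → ℝ, ∑' k : ℕ,
                (if (k : ℝ) * ε < x u - x v then ENNReal.ofReal ε else 0) ∂(XL P) :=
              lintegral_mono fun x => IneqI_pt _ _ hε
          _ = ∑' k : ℕ, ∫⁻ x : P → ℝ,
                (if (k : ℝ) * ε < x u - x v then ENNReal.ofReal ε else 0) ∂(XL P) :=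
              lintegral_tsum fun k => (hms k).aemeasurable
          _ ≤ ∑' k : ℕ, ENNReal.ofReal (ε * F 0 * r ^ k) := by
              apply ENNReal.tsum_le_tsum
              intro k
              have hset : MeasurableSet {x : P → ℝ | (k : ℝ) * ε < x u - x v} :=
                measurableSet_lt measurable_const
                  ((measurable_pi_apply u).sub (measurable_pi_apply v))
              have e1 : (fun x : P → ℝ => (if (k : ℝ) * ε < x u - x v then ENNReal.ofReal ε else 0))
                  = Set.indicator {x : P → ℝ | (k : ℝ) * ε < x u - x v}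
                    (fun _ => ENNReal.ofReal ε) := by
                funext x
                simp only [Set.indicator, Set.mem_ofPred_eq]
              rw [e1, lintegral_indicator hset, setLIntegral_const]
              have e2 : {x : P → ℝ | (k : ℝ) * ε < x u - x v}
                  = {x : P → ℝ | x v - x u < -((k : ℝ) * ε)} := by
                ext x
                simp only [Set.mem_ofPred_eq]
                constructor <;> intro h <;> linarith
              have e3 : (XL P) {x : P → ℝ | (k : ℝ) * ε < x u - x v} = ENNReal.ofReal (F k) := by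
                rw [e2]
                exact (ofReal_measureReal (measure_ne_top _ _)).symm
              rw [e3, ← ENNReal.ofReal_mul hε.le]
              apply ENNReal.ofReal_le_ofReal
              have := mul_le_mul_of_nonneg_left (hpow k) hε.le
              linarith
          _ = ENNReal.ofReal (∑' k : ℕ, ε * F 0 * r ^ k) := by
              rw [ENNReal.ofReal_tsum_of_nonneg]
              · intro k; positivity
              · exact (summable_geometric_of_lt_one hr0 hr1).mul_left _
          _ = ENNReal.ofReal (ε * F 0 * (1 - r)⁻¹) := by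
              rw [tsum_mul_left, tsum_geometric_of_lt_one hr0 hr1]
    have hdd2 : dd u v * (F 0 - F 1) ≤ ε * F 0 ^ 2 := by
      have e1 : ε * F 0 * (1 - r)⁻¹ * (F 0 - F 1) = ε * F 0 ^ 2 := by
        have h1 : 1 - r = (F 0 - F 1) / F 0 := by rw [hr]; field_simp
        rw [h1, inv_div]
        field_simp
      rw [← e1]
      exact mul_le_mul_of_nonneg_right hdd hδ.le
    have hd0 := dd_nonneg u v
    have h3 : dd u v * (nxt v u 1 * (ε / (1 + ε))) ≤ ε * F 0 ^ 2 := by
      have h4 : nxt v u 1 * (ε / (1 + ε)) ≤ F 0 - F 1 :=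
        le_trans (mul_le_mul_of_nonneg_left hexp ht.le) hdrop
      exact le_trans (mul_le_mul_of_nonneg_left h4 hd0) hdd2
    rw [← hF0]
    have h5 : dd u v * (nxt v u 1 * (ε / (1 + ε))) = ε * (nxt v u 1 * dd u v) / (1 + ε) := by
      ring
    rw [h5, div_le_iff₀ (by linarith)] at h3
    have h6 : ε * (nxt v u 1 * dd u v) ≤ ε * (F 0 ^ 2 * (1 + ε)) := by linarith
    exact le_of_mul_le_mul_left h6 hε
  apply le_of_forall_pos_le_add
  intro η hη
  have h1 := key η hη
  have h2 : (lt v u) ^ 2 ≤ 1 := by
    have := lt_nonneg v u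
    have := lt_le_one v u
    nlinarith
  nlinarith

end Pool.Agent.BFT
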