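import Mathlib
import Pool.Agent.Lib_MP_33fb9b_bft.MCons
import Pool.Agent.Lib_MP_33fb9b_bft.XLA
import Pool.Agent.Lib_MP_33fb9b_bft.XLD

set_option autoImplicit false

/-!
# Inequality (ii)
-/

namespace Pool.Agent.BFT

open MeasureTheory

variable {P : Type} [Fintype P] [PartialOrder P]

/-- layer cake, pointwise -/
theorem ineq_ii_point (ε y : ℝ) (hε : 0 < ε) (K : ℕ) :
    ∑ k ∈ Finset.range K, (if ((k : ℝ) + 1) * ε ≤ y then ε else 0) ≤ max y 0 := by
  induction K with
  | zero => simp
  | succ K ih =>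
    by_cases h : ((K : ℝ) + 1) * ε ≤ y
    · have h1 : ∑ k ∈ Finset.range (K + 1), (if ((k : ℝ) + 1) * ε ≤ y then ε else 0) ≤
          ∑ _k ∈ Finset.range (K + 1), ε := by
        apply Finset.sum_le_sum
        intro k _
        split_ifs
        · exact le_rfl
        · exact hε.le
      rw [Finset.sum_const, Finset.card_range, nsmul_eq_mul] at h1
      push_cast at h1
      exact h1.trans (h.trans (le_max_left _ _))
    · rw [Finset.sum_range_succ, if_neg h, add_zero]
      exact ih

/-- geometric sum -/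
theorem ineq_ii_geom (c : ℝ) (hc : 0 < c) (K : ℕ) :
    ∑ k ∈ Finset.range K, Real.exp (c * (k + 1)) ≤
      Real.exp c * (Real.exp (c * K) - 1) / c := by
  have h1 : ∀ k : ℕ, Real.exp (c * (k + 1)) = Real.exp c * Real.exp c ^ k := by
    intro k
    rw [← Real.exp_nat_mul, ← Real.exp_add]
    congr 1
    ring
  simp_rw [h1]
  rw [← Finset.mul_sum]
  have hne : Real.exp c ≠ 1 := by
    have := Real.add_one_lt_exp hc.ne'
    linarith
  rw [geom_sum_eq hne, ← Real.exp_nat_mul, mul_comm (K : ℝ) c, mul_div_assoc]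
  apply mul_le_mul_of_nonneg_left _ (Real.exp_pos _).le
  apply div_le_div_of_nonneg_left _ hc
  · have := Real.add_one_le_exp c
    linarith
  · have h2 : 0 ≤ c * K := by positivity
    have := Real.one_le_exp h2
    linarith

/-- a log-concave sequence is below a geometric one -/
theorem ineq_ii_seq (F : ℕ → ℝ) (hpos : ∀ k, 0 < F k)
    (hlc : ∀ k, F k * F (k + 2) ≤ F (k + 1) ^ 2) (c : ℝ) (h1 : F 1 ≤ F 0 * Real.exp c) (k : ℕ) :
    F k ≤ F 0 * Real.exp (c * k) := by
  have hr : ∀ k, F (k + 1) * F 0 ≤ F k * F 1 := by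
    intro k
    induction k with
    | zero => linarith [mul_comm (F 1) (F 0)]
    | succ k ih =>
      have h2 := hlc k
      have h3 : F k * (F (k + 2) * F 0) ≤ F k * (F (k + 1) * F 1) := by
        calc F k * (F (k + 2) * F 0) = (F k * F (k + 2)) * F 0 := by ring
          _ ≤ F (k + 1) ^ 2 * F 0 := mul_le_mul_of_nonneg_right h2 (hpos 0).le
          _ = F (k + 1) * (F (k + 1) * F 0) := by ring
          _ ≤ F (k + 1) * (F k * F 1) := mul_le_mul_of_nonneg_left ih (hpos _).le
          _ = F k * (F (k + 1) * F 1) := by ring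
      exact le_of_mul_le_mul_left h3 (hpos k)
  induction k with
  | zero => simp
  | succ k ih =>
    have h2 : F (k + 1) * F 0 ≤ (F 0 * Real.exp (c * (k + 1))) * F 0 := by
      calc F (k + 1) * F 0 ≤ F k * F 1 := hr k
        _ ≤ (F 0 * Real.exp (c * k)) * (F 0 * Real.exp c) :=
            mul_le_mul ih h1 (hpos 1).le (by have := hpos 0; positivity)
        _ = (F 0 * Real.exp (c * (k + 1))) * F 0 := by
            rw [show c * ((k : ℝ) + 1) = c * k + c by ring, Real.exp_add]
            ring
    have h3 := le_of_mul_le_mul_right h2 (hpos 0)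
    push_cast
    exact h3

/-- `P(pos v = pos u + 1) * E (pos v - pos u)^+ ≥ al (ln (1/al) - 1 + al)`, `al = P(v before u)`.
Proof. `Y = X_v - X_u`, `F s = P(Y < s)`, `F 0 = al` (`XL_lt`, `XL_tie`), `t = nxt u v 1`.
Let `0 < ε`, `l = F ε / al ≥ 1`. `F_lc` at `kε`, `h = ε`, gives by induction
`F ((k+1)ε) * al ≤ F (kε) * F ε` (all `F (kε) ≥ al > 0`), so `F (kε) ≤ al * l^k`. And
`F ε - al = P(0 ≤ Y < ε) ≤ t ε + ε^2` (`XL_small_le`), so `l ≤ 1 + c`, `c = (t ε + ε^2)/al`, and
`F (kε) ≤ al * exp (c k)`. For every `K`: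
`max Y 0 ≥ ε ∑_{k=1..K} 1{Y ≥ kε}` pointwise, so `dd v u ≥ ε ∑_{k=1..K} (1 - al exp (c k)) ≥
ε K - ε al ∑_{k=1..K} exp (c k) ≥ ε K - ε al exp (c (K+1)) / c` (`∑_{k=1..K} exp (ck) ≤
∫_1^{K+1} exp (cx) dx`; or use the geometric sum with `exp c - 1 ≥ c`: the sum is at most
`exp c (exp (cK) - 1)/c`). Choose `K = ⌊ln (1/al) / c⌋`: `exp (cK) ≤ 1/al`, so
`dd v u ≥ ε (ln(1/al)/c - 1) - ε exp c (1 - al)/c`. Multiply by `c/ε = (t + ε)/al` and let `ε → 0`:
`(t/al) dd v u ≥ ln(1/al) - (1 - al)`. (If `t = 0` the same computation shows that `al = 1`.) -/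
theorem ineq_ii (u v : P) (huv : u ≠ v) (h : 0 < lt v u) :
    lt v u * (Real.log (1 / lt v u) - 1 + lt v u) ≤ nxt u v 1 * dd v u := by
  set F : ℝ → ℝ := fun s => (XL P).real {x | x v - x u < s} with hF
  set al := lt v u with hal
  set t := nxt u v 1 with ht
  have ht0 : 0 ≤ t := Pr_nonneg _
  have hal1 : al ≤ 1 := lt_le_one v u
  have hF0 : F 0 = al := by
    rw [hF, hal, ← XL_lt u v]
    simp only [sub_neg]
  have hFmono : ∀ s s' : ℝ, s ≤ s' → F s ≤ F s' := by
    intro s s' hs
    apply measureReal_mono _ (measure_ne_top _ _)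
    intro x hx
    exact lt_of_lt_of_le hx hs
  have hmeas : ∀ s : ℝ, MeasurableSet {x : P → ℝ | s ≤ x v - x u} := fun s =>
    measurableSet_le measurable_const ((measurable_pi_apply v).sub (measurable_pi_apply u))
  have hcompl : ∀ s : ℝ, (XL P).real {x : P → ℝ | s ≤ x v - x u} = 1 - F s := by
    intro s
    have h1 : {x : P → ℝ | x v - x u < s} = {x : P → ℝ | s ≤ x v - x u}ᶜ := by
      ext x
      simp
    have h2 : F s = 1 - (XL P).real {x : P → ℝ | s ≤ x v - x u} := by
      rw [hF]
      simp only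
      rw [h1, probReal_compl_eq_one_sub (hmeas s)]
    linarith
  -- main estimate
  have key : ∀ ε : ℝ, 0 < ε → al * (Real.log (1 / al) - (t * ε + ε ^ 2) / al -
      Real.exp ((t * ε + ε ^ 2) / al) * (1 - al)) ≤ (t + ε) * dd v u := by
    intro ε hε
    set c := (t * ε + ε ^ 2) / al with hc
    have hcpos : 0 < c := by positivity
    -- geometric bound for `F`
    have hone : F ε ≤ al * Real.exp c := by
      have h1 : F ε ≤ al + (t * ε + ε ^ 2) := by
        have h2 := XL_small_le u v huv ε hε.le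
        have h3 : {x : P → ℝ | x v - x u < ε} ⊆
            {x | x v - x u < 0} ∪ {x | 0 ≤ x v - x u ∧ x v - x u < ε} := by
          intro x hx
          by_cases h0 : x v - x u < 0
          · exact Or.inl h0
          · exact Or.inr ⟨not_lt.mp h0, hx⟩
        have h4 : F ε ≤ F 0 + (XL P).real {x | 0 ≤ x v - x u ∧ x v - x u < ε} :=
          (measureReal_mono h3 (measure_ne_top _ _)).trans (measureReal_union_le _ _)
        rw [hF0] at h4
        linarith
      have h5 : al + (t * ε + ε ^ 2) = al * (c + 1) := by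
        rw [hc]
        field_simp
        ring
      rw [h5] at h1
      exact h1.trans (mul_le_mul_of_nonneg_left (Real.add_one_le_exp c) h.le)
    have hgeo : ∀ k : ℕ, F (k * ε) ≤ al * Real.exp (c * k) := by
      intro k
      have h1 := ineq_ii_seq (fun k : ℕ => F (k * ε)) (fun k => ?_) (fun k => ?_) c ?_ k
      · simpa [hF0] using h1
      · have h2 : F 0 ≤ F (k * ε) := hFmono _ _ (by positivity)
        rw [hF0] at h2
        exact lt_of_lt_of_le h h2
      · have h2 := F_lc u v (((k + 1 : ℕ) : ℝ) * ε) ε hε.le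
        have e1 : ((k + 1 : ℕ) : ℝ) * ε - ε = k * ε := by push_cast; ring
        have e2 : ((k + 1 : ℕ) : ℝ) * ε + ε = ((k + 2 : ℕ) : ℝ) * ε := by push_cast; ring
        rw [e1, e2] at h2
        exact h2
      · simpa [hF0] using hone
    -- lower bound for `dd`
    have hlow : ∀ K : ℕ, ε * (K - al * (Real.exp c * (Real.exp (c * K) - 1) / c)) ≤ dd v u := by
      intro K
      obtain ⟨hint, hdd⟩ := XL_plus u v
      rw [← hdd]
      have hI : ∀ k ∈ Finset.range K, Integrable
          (fun x : P → ℝ => (if ((k : ℝ) + 1) * ε ≤ x v - x u then ε else 0)) (XL P) := by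
        intro k _
        refine Integrable.mono' (integrable_const ε) ?_ (Filter.Eventually.of_forall fun x => ?_)
        · exact (Measurable.ite (hmeas _) measurable_const measurable_const).aestronglyMeasurable
        · split_ifs
          · rw [Real.norm_of_nonneg hε.le]
          · rw [norm_zero]; exact hε.le
      have h1 : ∫ x, (∑ k ∈ Finset.range K, (if ((k : ℝ) + 1) * ε ≤ x v - x u then ε else 0))
          ∂(XL P) ≤ ∫ x, max (x v - x u) 0 ∂(XL P) :=
        integral_mono (integrable_finsetSum _ hI) hint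
          (fun x => ineq_ii_point ε (x v - x u) hε K)
      refine le_trans ?_ h1
      rw [integral_finsetSum _ hI]
      have h2 : ∀ k : ℕ, ∫ x, (if ((k : ℝ) + 1) * ε ≤ x v - x u then ε else 0) ∂(XL P) =
          ε * (1 - F (((k : ℝ) + 1) * ε)) := by
        intro k
        rw [← hcompl]
        have e1 : (fun x : P → ℝ => (if ((k : ℝ) + 1) * ε ≤ x v - x u then ε else 0)) =
            Set.indicator {x : P → ℝ | ((k : ℝ) + 1) * ε ≤ x v - x u} (fun _ => ε) := by
          ext x
          by_cases hx : ((k : ℝ) + 1) * ε ≤ x v - x u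
          · rw [if_pos hx, Set.indicator_of_mem (by exact hx)]
          · rw [if_neg hx, Set.indicator_of_notMem (by exact hx)]
        rw [e1, integral_indicator_const _ (hmeas _), smul_eq_mul, mul_comm]
      simp_rw [h2]
      rw [← Finset.mul_sum]
      apply mul_le_mul_of_nonneg_left _ hε.le
      rw [Finset.sum_sub_distrib, Finset.sum_const, Finset.card_range, nsmul_eq_mul, mul_one]
      have h3 : ∑ k ∈ Finset.range K, F (((k : ℝ) + 1) * ε) ≤
          al * ∑ k ∈ Finset.range K, Real.exp (c * (k + 1)) := by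
        rw [Finset.mul_sum]
        apply Finset.sum_le_sum
        intro k _
        have := hgeo (k + 1)
        push_cast at this
        exact this
      have h4 := mul_le_mul_of_nonneg_left (ineq_ii_geom c hcpos K) h.le
      linarith
    -- choice of `K`
    set Lg := Real.log (1 / al) with hLg
    have hLg0 : 0 ≤ Lg := Real.log_nonneg (by rw [le_div_iff₀ h]; linarith)
    set K := ⌊Lg / c⌋₊ with hK
    have hK1 : (K : ℝ) ≤ Lg / c := Nat.floor_le (by positivity)
    have hK2 : Lg / c < K + 1 := Nat.lt_floor_add_one _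
    have hcK : c * K ≤ Lg := by
      rw [le_div_iff₀ hcpos] at hK1
      linarith [mul_comm c (K : ℝ)]
    have hexp : Real.exp (c * K) ≤ 1 / al := by
      calc Real.exp (c * K) ≤ Real.exp Lg := Real.exp_le_exp.mpr hcK
        _ = 1 / al := Real.exp_log (by positivity)
    have h1 := hlow K
    -- multiply by `c / ε = (t + ε) / al`
    have h2 : (c / ε) * (ε * (K - al * (Real.exp c * (Real.exp (c * K) - 1) / c))) ≤
        (c / ε) * dd v u := mul_le_mul_of_nonneg_left h1 (by positivity)
    have e1 : (c / ε) * (ε * (K - al * (Real.exp c * (Real.exp (c * K) - 1) / c))) =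
        c * K - Real.exp c * (al * Real.exp (c * K) - al) := by
      field_simp
    have e2 : c / ε = (t + ε) / al := by
      rw [hc]
      field_simp
    rw [e1] at h2
    have h3 : al * Real.exp (c * K) ≤ 1 := by
      calc al * Real.exp (c * K) ≤ al * (1 / al) := mul_le_mul_of_nonneg_left hexp h.le
        _ = 1 := by field_simp
    have h4 : Lg - c ≤ c * K := by
      rw [div_lt_iff₀ hcpos] at hK2
      nlinarith
    have h5 : Real.exp c * (al * Real.exp (c * K) - al) ≤ Real.exp c * (1 - al) :=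
      mul_le_mul_of_nonneg_left (by linarith) (Real.exp_pos _).le
    have h6 : Lg - c - Real.exp c * (1 - al) ≤ (t + ε) / al * dd v u := by
      rw [← e2]
      linarith
    calc al * (Lg - c - Real.exp c * (1 - al)) ≤ al * ((t + ε) / al * dd v u) :=
          mul_le_mul_of_nonneg_left h6 h.le
      _ = (t + ε) * dd v u := by field_simp
  -- limit
  have hcont : Continuous (fun ε : ℝ => (t + ε) * dd v u - al * (Real.log (1 / al) -
      (t * ε + ε ^ 2) / al - Real.exp ((t * ε + ε ^ 2) / al) * (1 - al))) := by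
    fun_prop
  have hlim : Filter.Tendsto (fun ε : ℝ => (t + ε) * dd v u - al * (Real.log (1 / al) -
      (t * ε + ε ^ 2) / al - Real.exp ((t * ε + ε ^ 2) / al) * (1 - al)))
      (nhdsWithin 0 (Set.Ioi 0)) (nhds ((t + 0) * dd v u - al * (Real.log (1 / al) -
      (t * 0 + 0 ^ 2) / al - Real.exp ((t * 0 + 0 ^ 2) / al) * (1 - al)))) :=
    (hcont.tendsto 0).mono_left nhdsWithin_le_nhds
  have hge : 0 ≤ (t + 0) * dd v u - al * (Real.log (1 / al) -
      (t * 0 + 0 ^ 2) / al - Real.exp ((t * 0 + 0 ^ 2) / al) * (1 - al)) := by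
    refine ge_of_tendsto hlim ?_
    filter_upwards [self_mem_nhdsWithin] with ε hε
    have := key ε hε
    linarith
  have e3 : Real.exp ((t * 0 + 0 ^ 2) / al) = 1 := by
    rw [show (t * 0 + 0 ^ 2) / al = 0 by simp, Real.exp_zero]
  rw [e3] at hge
  simp only [add_zero, mul_zero, ne_eq, OfNat.ofNat_ne_zero, not_false_eq_true, zero_pow, zero_div,
    sub_zero, one_mul] at hge
  linarith

end Pool.Agent.BFT
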