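import Mathlib
import Pool.Agent.Lib_MP_33fb9b_bft.Cont

set_option autoImplicit false

/-!
# Spacings: the sum of two
-/

namespace Pool.Agent.BFT

open MeasureTheory

private theorem SpaceB_pair (n : ℕ) (j k : Fin n) (hjk : j ≠ k) :
    expo.prod expo = (gam n).map (fun y => (y j, y k)) := by
  classical
  apply Measure.prod_eq
  intro s t hs ht
  have hm : Measurable (fun y : Fin n → ℝ => (y j, y k)) := by fun_prop
  rw [Measure.map_apply hm (hs.prod ht)]
  have h1 : (fun y : Fin n → ℝ => (y j, y k)) ⁻¹' (s ×ˢ t) =
      Set.pi Set.univ (fun i => if i = j then s else if i = k then t else Set.univ) := by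
    ext y
    simp only [Set.mem_preimage, Set.mem_prod, Set.mem_pi, Set.mem_univ, true_implies]
    constructor
    · rintro ⟨h1, h2⟩ i
      by_cases hi : i = j
      · subst hi; simpa using h1
      · by_cases hi2 : i = k
        · subst hi2; simpa [hi] using h2
        · simp [hi, hi2]
    · intro h
      constructor
      · simpa using h j
      · have := h k
        simpa [hjk.symm] using this
  rw [h1]
  unfold gam
  rw [Measure.pi_pi]
  have h3 : ∀ i : Fin n, expo (if i = j then s else if i = k then t else Set.univ) =
      (if i = j then expo s else 1) * (if i = k then expo t else 1) := by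
    intro i
    by_cases hi : i = j
    · subst hi; simp [hjk]
    · by_cases hi2 : i = k
      · subst hi2; simp [hi]
      · simp [hi, hi2]
  simp_rw [h3]
  rw [Finset.prod_mul_distrib, Finset.prod_ite_eq', Finset.prod_ite_eq']
  simp

private theorem SpaceB_lint (g : ℝ → ENNReal) (hg : Measurable g) :
    ∫⁻ x, g x ∂expo = ∫⁻ x, ENNReal.ofReal (if 0 < x then Real.exp (-x) else 0) * g x := by
  unfold expo
  rw [lintegral_withDensity_eq_lintegral_mul _ expo_meas hg]
  rfl

private theorem SpaceB_val (s : ℝ) (hs : 0 ≤ s) :
    (expo.prod expo) {p : ℝ × ℝ | p.1 + p.2 < s} =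
      ENNReal.ofReal (∫ x in (0:ℝ)..s, Real.exp (-x) * (1 - Real.exp (-(s - x)))) := by
  have hm : MeasurableSet {p : ℝ × ℝ | p.1 + p.2 < s} :=
    measurableSet_lt (measurable_fst.add measurable_snd) measurable_const
  rw [Measure.prod_apply hm]
  have h1 : ∀ x : ℝ, (Prod.mk x ⁻¹' {p : ℝ × ℝ | p.1 + p.2 < s}) = Set.Iio (s - x) := by
    intro x
    ext y
    simp only [Set.mem_preimage, Set.mem_ofPred_eq, Set.mem_Iio]
    constructor <;> intro h <;> linarith
  simp_rw [h1]
  have hmono : Monotone (fun x : ℝ => expo (Set.Iio x)) := fun a b hab =>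
    measure_mono (Set.Iio_subset_Iio hab)
  have hm2 : Measurable (fun x : ℝ => expo (Set.Iio (s - x))) :=
    hmono.measurable.comp (measurable_const.sub measurable_id)
  have h2 : ∫⁻ x, expo (Set.Iio (s - x)) ∂expo =
      ∫⁻ x, (Set.Ioo (0:ℝ) s).indicator
        (fun x => ENNReal.ofReal (Real.exp (-x) * (1 - Real.exp (-(s - x))))) x := by
    rw [SpaceB_lint _ hm2]
    apply lintegral_congr
    intro x
    by_cases h0 : 0 < x
    · by_cases hx : x < s
      · rw [Set.indicator_of_mem (Set.mem_Ioo.mpr ⟨h0, hx⟩), if_pos h0,
          expo_Iic_eq _ (by linarith), ENNReal.ofReal_mul (Real.exp_pos _).le]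
      · rw [Set.indicator_of_notMem (by simp only [Set.mem_Ioo, not_and]; exact fun _ => hx)]
        have h3 : expo (Set.Iio (s - x)) = 0 := by
          apply le_antisymm _ zero_le
          calc expo (Set.Iio (s - x)) ≤ expo (Set.Iio 0) :=
                measure_mono (Set.Iio_subset_Iio (by linarith [not_lt.mp hx]))
            _ = 0 := by rw [expo_Iic_eq 0 le_rfl]; simp
        rw [h3, mul_zero]
    · rw [Set.indicator_of_notMem (by simp only [Set.mem_Ioo, not_and]; exact fun h => absurd h h0),
        if_neg h0]
      simp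
  rw [h2, lintegral_indicator measurableSet_Ioo, ← ofReal_integral_eq_lintegral_ofReal]
  · congr 1
    rw [← integral_Ioc_eq_integral_Ioo, ← intervalIntegral.integral_of_le hs]
  · exact (Continuous.integrableOn_Icc (by fun_prop)).mono_set Set.Ioo_subset_Icc_self
  · rw [Filter.EventuallyLE, ae_restrict_iff' measurableSet_Ioo]
    filter_upwards with x hx
    have h4 : Real.exp (-(s - x)) ≤ 1 := Real.exp_le_one_iff.mpr (by linarith [hx.2])
    exact mul_nonneg (Real.exp_pos _).le (by linarith)

/-- The sum of two independent exponential variables: the density `exp (-x - y)` on the triangle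
`x, y > 0, x + y < s` lies between `exp (-s)` and `1` and the area of the triangle is `s^2 / 2`
(`∫_0^s (s - x) dx`). Reduce from `gam n` to `expo.prod expo`: the pair of coordinates `(j, k)`
has law `expo.prod expo` (rectangles, `Measure.prod_eq`, `Measure.pi_pi`), or
compute the law of the pair by `MeasureTheory.Measure.pi` of a two-element product
(`measurePreserving_piFinTwo`). In fact the exact value is `1 - exp (-s) * (1 + s)`. -/
theorem gam_tri (n : ℕ) (j k : Fin n) (hjk : j ≠ k) (s : ℝ) (hs : 0 ≤ s) :
    Real.exp (-s) * (s ^ 2 / 2) ≤ (gam n).real {y | y j + y k < s} ∧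
      (gam n).real {y | y j + y k < s} ≤ s ^ 2 / 2 := by
  have hm : MeasurableSet {p : ℝ × ℝ | p.1 + p.2 < s} :=
    measurableSet_lt (measurable_fst.add measurable_snd) measurable_const
  have hm1 : Measurable (fun y : Fin n → ℝ => (y j, y k)) := by fun_prop
  have h1 : (gam n) {y | y j + y k < s} = (expo.prod expo) {p : ℝ × ℝ | p.1 + p.2 < s} := by
    rw [SpaceB_pair n j k hjk, Measure.map_apply hm1 hm]
    rfl
  have hI : (0:ℝ) ≤ ∫ x in (0:ℝ)..s, Real.exp (-x) * (1 - Real.exp (-(s - x))) := by
    apply intervalIntegral.integral_nonneg hs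
    intro x hx
    have h4 : Real.exp (-(s - x)) ≤ 1 := Real.exp_le_one_iff.mpr (by linarith [hx.2])
    exact mul_nonneg (Real.exp_pos _).le (by linarith)
  have h2 : (gam n).real {y | y j + y k < s} =
      ∫ x in (0:ℝ)..s, Real.exp (-x) * (1 - Real.exp (-(s - x))) := by
    rw [Measure.real, h1, SpaceB_val s hs, ENNReal.toReal_ofReal hI]
  rw [h2]
  have harea : ∫ x in (0:ℝ)..s, (s - x) = s ^ 2 / 2 := by
    rw [intervalIntegral.integral_sub (by simp) (by simp), intervalIntegral.integral_const,
      integral_id]
    simp
    ring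
  constructor
  · rw [← harea, ← intervalIntegral.integral_const_mul]
    apply intervalIntegral.integral_mono_on hs
    · exact (Continuous.intervalIntegrable (by fun_prop) _ _)
    · exact (Continuous.intervalIntegrable (by fun_prop) _ _)
    · intro x hx
      have h3 : Real.exp (-x) * (1 - Real.exp (-(s - x))) = Real.exp (-s) * (Real.exp (s - x) - 1) := by
        have e1 : Real.exp (-x) = Real.exp (-s) * Real.exp (s - x) := by
          rw [← Real.exp_add]; congr 1; ring
        have e2 : Real.exp (s - x) * Real.exp (-(s - x)) = 1 := by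
          rw [← Real.exp_add]; simp
        rw [e1]
        calc Real.exp (-s) * Real.exp (s - x) * (1 - Real.exp (-(s - x)))
            = Real.exp (-s) * (Real.exp (s - x) - Real.exp (s - x) * Real.exp (-(s - x))) := by ring
          _ = _ := by rw [e2]
      rw [h3]
      apply mul_le_mul_of_nonneg_left _ (Real.exp_pos _).le
      have := Real.add_one_le_exp (s - x)
      linarith
  · rw [← harea]
    apply intervalIntegral.integral_mono_on hs
    · exact (Continuous.intervalIntegrable (by fun_prop) _ _)
    · exact (Continuous.intervalIntegrable (by fun_prop) _ _)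
    · intro x hx
      have h3 : Real.exp (-x) ≤ 1 := Real.exp_le_one_iff.mpr (by linarith [hx.1])
      have h4 : Real.exp (-(s - x)) ≤ 1 := Real.exp_le_one_iff.mpr (by linarith [hx.2])
      have h5 := Real.add_one_le_exp (-(s - x))
      calc Real.exp (-x) * (1 - Real.exp (-(s - x))) ≤ 1 * (1 - Real.exp (-(s - x))) :=
            mul_le_mul_of_nonneg_right h3 (by linarith)
        _ ≤ s - x := by linarith

end Pool.Agent.BFT
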