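import Mathlib
import Pool.Agent.Lib_MP_33fb9b_bft.XvBasic
import Pool.Agent.Lib_MP_33fb9b_bft.SpaceB

set_option autoImplicit false

/-!
# The distribution function of `X_v - X_u` near `0`, to second order
-/

namespace Pool.Agent.BFT

open MeasureTheory

variable {P : Type} [Fintype P] [PartialOrder P]

omit [Fintype P] [PartialOrder P] in
private theorem xlb_meas (u v : P) (e : ℝ) : MeasurableSet {x : P → ℝ | x v - x u < e} :=
  measurableSet_lt ((measurable_pi_apply v).sub (measurable_pi_apply u)) measurable_const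

private theorem xlb_mono {n : ℕ} {s t : Set (Fin n → ℝ)} (h : ∀ᵐ y ∂(gam n), y ∈ s → y ∈ t) :
    (gam n).real s ≤ (gam n).real t := by
  unfold Measure.real
  exact ENNReal.toReal_mono (measure_ne_top _ _) (measure_mono_ae h)

private theorem xlb_one (σ : LE P) (u v : P) (e : ℝ) (he : 0 ≤ e) (h : pos σ v = pos σ u + 1) :
    (gam (Fintype.card P)).real {y | Xv σ y ∈ {x : P → ℝ | x v - x u < e}}
      = 1 - Real.exp (-e) := by
  rw [← gam_one (Fintype.card P) (σ.1 v) e he]
  congr 1
  ext y
  simp only [Set.mem_ofPred_eq]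
  rw [Xv_one σ y u v h]

private theorem xlb_two (σ : LE P) (u v : P) (e : ℝ) (he : 0 ≤ e) (h : pos σ v = pos σ u + 2) :
    Real.exp (-e) * (e ^ 2 / 2) ≤
      (gam (Fintype.card P)).real {y | Xv σ y ∈ {x : P → ℝ | x v - x u < e}} ∧
    (gam (Fintype.card P)).real {y | Xv σ y ∈ {x : P → ℝ | x v - x u < e}} ≤ e ^ 2 / 2 := by
  obtain ⟨j, k, hjk, hy⟩ := Xv_two σ u v h
  have h1 : {y | Xv σ y ∈ {x : P → ℝ | x v - x u < e}} = {y | y j + y k < e} := by
    ext y
    simp only [Set.mem_ofPred_eq]
    rw [hy y]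
  rw [h1]
  exact gam_tri _ j k hjk e he

/-- Linear extension by linear extension (`XL_real`): `pos v < pos u`: probability `1`;
`pos v = pos u + 1`: `1 - exp (-e)`; `pos v = pos u + 2`: at most `e^2/2` (`gam_tri`);
`pos v ≥ pos u + 3`: at most `e^3` (`Xv_ge_three`, `gam_three`). -/
theorem XL_two_le (u v : P) (huv : u ≠ v) (e : ℝ) (he : 0 ≤ e) :
    (XL P).real {x | x v - x u < e} ≤
      lt v u + nxt u v 1 * (1 - Real.exp (-e)) + nxt u v 2 * (e ^ 2 / 2) + e ^ 3 := by
  rw [XL_real _ (xlb_meas u v e)]
  have hc : 0 ≤ 1 - Real.exp (-e) := by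
    have : Real.exp (-e) ≤ 1 := Real.exp_le_one_iff.mpr (by linarith)
    linarith
  have hc2 : 0 ≤ e ^ 2 / 2 := by positivity
  have hc3 : 0 ≤ e ^ 3 := by positivity
  have hR : lt v u + nxt u v 1 * (1 - Real.exp (-e)) + nxt u v 2 * (e ^ 2 / 2) + e ^ 3
      = Ex (fun σ : LE P => ind (pos σ v < pos σ u)
        + (1 - Real.exp (-e)) * ind (pos σ v = pos σ u + 1)
        + (e ^ 2 / 2) * ind (pos σ v = pos σ u + 2) + e ^ 3) := by
    rw [Ex_add, Ex_add, Ex_add, Ex_mul, Ex_mul, Ex_const, lt, nxt, nxt, Pr, Pr, Pr]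
    ring
  rw [hR]
  refine Ex_mono fun σ => ?_
  have hne : pos σ u ≠ pos σ v := pos_ne huv
  rcases lt_trichotomy (pos σ v) (pos σ u) with h | h | h
  · rw [ind_true h, ind_false (by omega), ind_false (by omega)]
    have := measureReal_le_one (μ := gam (Fintype.card P))
      (s := {y | Xv σ y ∈ {x : P → ℝ | x v - x u < e}})
    linarith
  · exact absurd h.symm hne
  · rcases Nat.lt_or_ge (pos σ v) (pos σ u + 3) with h3 | h3
    · rcases Nat.lt_or_ge (pos σ v) (pos σ u + 2) with h2 | h2
      · have h1 : pos σ v = pos σ u + 1 := by omega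
        rw [xlb_one σ u v e he h1, ind_false (by omega), ind_true h1, ind_false (by omega)]
        linarith
      · have h1 : pos σ v = pos σ u + 2 := by omega
        have := (xlb_two σ u v e he h1).2
        rw [ind_false (by omega), ind_false (by omega), ind_true h1]
        linarith
    · rw [ind_false (by omega), ind_false (by omega), ind_false (by omega)]
      obtain ⟨i, j, k, hij, hjk, hik, hy⟩ := Xv_ge_three σ u v h3
      have h4 := gam_three (Fintype.card P) i j k hij hjk hik e he
      have h5 : (gam (Fintype.card P)).real {y | Xv σ y ∈ {x : P → ℝ | x v - x u < e}}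
          ≤ (gam (Fintype.card P)).real {y | y i < e ∧ y j < e ∧ y k < e} := by
        apply xlb_mono
        filter_upwards [gam_pos (Fintype.card P)] with y hpos hmem
        obtain ⟨h6, h7, h8⟩ := hy y hpos
        have hmem' : Xv σ y v - Xv σ y u < e := hmem
        exact ⟨by linarith, by linarith, by linarith⟩
      linarith

/-- Lower bound, the same cases (`0` for `pos v ≥ pos u + 3`). -/
theorem XL_two_ge (u v : P) (s : ℝ) (hs : 0 ≤ s) :
    lt v u + nxt u v 1 * (1 - Real.exp (-s)) + nxt u v 2 * (Real.exp (-s) * (s ^ 2 / 2)) ≤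
      (XL P).real {x | x v - x u < s} := by
  rw [XL_real _ (xlb_meas u v s)]
  have hR : lt v u + nxt u v 1 * (1 - Real.exp (-s)) + nxt u v 2 * (Real.exp (-s) * (s ^ 2 / 2))
      = Ex (fun σ : LE P => ind (pos σ v < pos σ u)
        + (1 - Real.exp (-s)) * ind (pos σ v = pos σ u + 1)
        + (Real.exp (-s) * (s ^ 2 / 2)) * ind (pos σ v = pos σ u + 2)) := by
    rw [Ex_add, Ex_add, Ex_mul, Ex_mul, lt, nxt, nxt, Pr, Pr, Pr]
    ring
  rw [hR]
  refine Ex_mono fun σ => ?_
  have hnn : 0 ≤ (gam (Fintype.card P)).real {y | Xv σ y ∈ {x : P → ℝ | x v - x u < s}} :=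
    measureReal_nonneg
  rcases lt_trichotomy (pos σ v) (pos σ u) with h | h | h
  · rw [ind_true h, ind_false (by omega), ind_false (by omega)]
    have h5 : (gam (Fintype.card P)).real Set.univ
        ≤ (gam (Fintype.card P)).real {y | Xv σ y ∈ {x : P → ℝ | x v - x u < s}} := by
      apply xlb_mono
      filter_upwards [Xv_ae σ] with y hy _
      have := (hy v u).mpr h
      change Xv σ y v - Xv σ y u < s
      linarith
    rw [probReal_univ] at h5
    linarith
  · rw [ind_false (by omega), ind_false (by omega), ind_false (by omega)]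
    linarith
  · rcases Nat.lt_or_ge (pos σ v) (pos σ u + 3) with h3 | h3
    · rcases Nat.lt_or_ge (pos σ v) (pos σ u + 2) with h2 | h2
      · have h1 : pos σ v = pos σ u + 1 := by omega
        rw [xlb_one σ u v s hs h1, ind_false (by omega), ind_true h1, ind_false (by omega)]
        linarith
      · have h1 : pos σ v = pos σ u + 2 := by omega
        have := (xlb_two σ u v s hs h1).1
        rw [ind_false (by omega), ind_false (by omega), ind_true h1]
        linarith
    · rw [ind_false (by omega), ind_false (by omega), ind_false (by omega)]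
      linarith

end Pool.Agent.BFT
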