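import Mathlib
import Pool.Agent.Lib_MP_33fb9b_bft.MCons
import Pool.Agent.Lib_MP_33fb9b_bft.XLA
import Pool.Agent.Lib_MP_33fb9b_bft.XLB

set_option autoImplicit false

/-!
# Inequality (iii)
-/

namespace Pool.Agent.BFT

open MeasureTheory

variable {P : Type} [Fintype P] [PartialOrder P]

/-- elementary bounds for the exponential function -/
theorem ineq_iii_exp_le {x : ℝ} (hx : 0 ≤ x) : Real.exp (-x) ≤ 1 - x + x ^ 2 / 2 := by
  have h := Real.quadratic_le_exp_of_nonneg hx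
  have h1 : 0 < 1 + x + x ^ 2 / 2 := by positivity
  have h2 : Real.exp (-x) ≤ 1 / (1 + x + x ^ 2 / 2) := by
    rw [Real.exp_neg, ← one_div]
    exact one_div_le_one_div_of_le h1 h
  refine h2.trans ?_
  rw [div_le_iff₀ h1]
  nlinarith [sq_nonneg (x ^ 2)]

theorem ineq_iii_exp_ge {x : ℝ} (hx : 0 ≤ x) : 1 - x + x ^ 2 / 2 - x ^ 3 / 6 ≤ Real.exp (-x) := by
  have hd : ∀ y : ℝ, HasDerivAt (fun y => Real.exp (-y) - (1 - y + y ^ 2 / 2 - y ^ 3 / 6))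
      (-Real.exp (-y) - (-1 + y - y ^ 2 / 2)) y := by
    intro y
    have h1 : HasDerivAt (fun y : ℝ => Real.exp (-y)) (Real.exp (-y) * -1) y :=
      (Real.hasDerivAt_exp (-y)).comp y (hasDerivAt_neg y)
    have h2 : HasDerivAt (fun y : ℝ => 1 - y + y ^ 2 / 2 - y ^ 3 / 6)
        (0 - 1 + ((2 : ℕ) * y ^ (2 - 1)) / 2 - ((3 : ℕ) * y ^ (3 - 1)) / 6) y :=
      (((hasDerivAt_const y (1:ℝ)).sub (hasDerivAt_id y)).add
        ((hasDerivAt_pow 2 y).div_const 2)).sub ((hasDerivAt_pow 3 y).div_const 6)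
    refine (h1.sub h2).congr_deriv ?_
    norm_num
    ring
  have hmono : MonotoneOn (fun y => Real.exp (-y) - (1 - y + y ^ 2 / 2 - y ^ 3 / 6))
      (Set.Ici (0:ℝ)) := by
    apply monotoneOn_of_deriv_nonneg (convex_Ici 0)
    · exact fun y _ => (hd y).continuousAt.continuousWithinAt
    · exact fun y _ => (hd y).differentiableAt.differentiableWithinAt
    · intro y hy
      rw [interior_Ici] at hy
      rw [(hd y).deriv]
      have := ineq_iii_exp_le (x := y) (le_of_lt hy)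
      linarith
  have h := hmono (Set.mem_Ici.mpr le_rfl) (Set.mem_Ici.mpr hx) hx
  simp only at h
  norm_num at h
  linarith

theorem ineq_iii_aux {A t b e F1 F2 : ℝ} (hA : 0 < A) (hA1 : A ≤ 1) (ht0 : 0 ≤ t) (ht1 : t ≤ 1)
    (hb0 : 0 ≤ b) (hb1 : b ≤ 1) (he : 0 < e) (he1 : e ≤ 1) (hF1 : 0 ≤ F1)
    (h1 : A * F2 ≤ F1 ^ 2)
    (h2 : A + t * (1 - Real.exp (-(2 * e))) + b * (Real.exp (-(2 * e)) * ((2 * e) ^ 2 / 2)) ≤ F2)
    (h3 : F1 ≤ A + t * (1 - Real.exp (-e)) + b * (e ^ 2 / 2) + e ^ 3) :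
    A * (b - t) ≤ t ^ 2 + 20 * e := by
  have e1 : Real.exp (-(2 * e)) ≤ 1 - 2 * e + (2 * e) ^ 2 / 2 := ineq_iii_exp_le (by linarith)
  have e2 : 1 - 2 * e ≤ Real.exp (-(2 * e)) := by
    have := Real.add_one_le_exp (-(2 * e))
    linarith
  have e3 : 1 - e + e ^ 2 / 2 - e ^ 3 / 6 ≤ Real.exp (-e) := ineq_iii_exp_ge he.le
  have h2' : A + 2 * t * e - 2 * t * e ^ 2 + 2 * b * e ^ 2 - 4 * b * e ^ 3 ≤ F2 := by
    refine le_trans ?_ h2
    have g1 : t * (2 * e - 2 * e ^ 2) ≤ t * (1 - Real.exp (-(2 * e))) :=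
      mul_le_mul_of_nonneg_left (by linarith) ht0
    have g2 : b * ((1 - 2 * e) * ((2 * e) ^ 2 / 2)) ≤ b * (Real.exp (-(2 * e)) * ((2 * e) ^ 2 / 2)) :=
      mul_le_mul_of_nonneg_left (mul_le_mul_of_nonneg_right e2 (by positivity)) hb0
    nlinarith
  set p := (b - t) / 2 with hp
  set q := t / 6 + 1 with hq
  have h3' : F1 ≤ A + t * e + p * e ^ 2 + q * e ^ 3 := by
    refine h3.trans ?_
    have g1 : t * (1 - Real.exp (-e)) ≤ t * (e - e ^ 2 / 2 + e ^ 3 / 6) :=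
      mul_le_mul_of_nonneg_left (by linarith) ht0
    rw [hp, hq]
    nlinarith
  have h4 : F1 ^ 2 ≤ (A + t * e + p * e ^ 2 + q * e ^ 3) ^ 2 := pow_le_pow_left₀ hF1 h3' 2
  have hp1 : |p| ≤ 1 / 2 := by
    rw [abs_le, hp]
    constructor <;> linarith
  have hp2 := abs_le.mp hp1
  have hq1 : 1 ≤ q ∧ q ≤ 7 / 6 := by
    rw [hq]
    constructor <;> linarith
  have h5 : (A + t * e + p * e ^ 2 + q * e ^ 3) ^ 2 ≤
      A ^ 2 + 2 * A * t * e + (t ^ 2 + 2 * A * p) * e ^ 2 + 16 * e ^ 3 := by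
    have c1 : 2 * A * q + 2 * t * p ≤ 4 := by nlinarith
    have c2 : 2 * t * q + p ^ 2 ≤ 4 := by nlinarith
    have c3 : 2 * p * q ≤ 4 := by nlinarith
    have c4 : q ^ 2 ≤ 4 := by nlinarith
    have e3p : 0 < e ^ 3 := by positivity
    have m1 : e ^ 3 * (2 * A * q + 2 * t * p) ≤ e ^ 3 * 4 := mul_le_mul_of_nonneg_left c1 e3p.le
    have d4 : e ^ 4 ≤ e ^ 3 := pow_le_pow_of_le_one he.le he1 (by norm_num)
    have d5 : e ^ 5 ≤ e ^ 3 := pow_le_pow_of_le_one he.le he1 (by norm_num)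
    have d6 : e ^ 6 ≤ e ^ 3 := pow_le_pow_of_le_one he.le he1 (by norm_num)
    have m2 : e ^ 4 * (2 * t * q + p ^ 2) ≤ e ^ 4 * 4 := mul_le_mul_of_nonneg_left c2 (by positivity)
    have m3 : e ^ 5 * (2 * p * q) ≤ e ^ 5 * 4 := mul_le_mul_of_nonneg_left c3 (by positivity)
    have m4 : e ^ 6 * q ^ 2 ≤ e ^ 6 * 4 := mul_le_mul_of_nonneg_left c4 (by positivity)
    have hx : (A + t * e + p * e ^ 2 + q * e ^ 3) ^ 2 =
        A ^ 2 + 2 * A * t * e + (t ^ 2 + 2 * A * p) * e ^ 2 + e ^ 3 * (2 * A * q + 2 * t * p) +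
          e ^ 4 * (2 * t * q + p ^ 2) + e ^ 5 * (2 * p * q) + e ^ 6 * q ^ 2 := by ring
    rw [hx]
    linarith
  have h6 : A * (A + 2 * t * e - 2 * t * e ^ 2 + 2 * b * e ^ 2 - 4 * b * e ^ 3) ≤ A * F2 :=
    mul_le_mul_of_nonneg_left h2' hA.le
  have h7 : A * (b - t) * e ^ 2 ≤ (t ^ 2 + 20 * e) * e ^ 2 := by
    have h8 : 2 * A * p = A * (b - t) := by rw [hp]; ring
    rw [h8] at h5
    have h9 : A * b * e ^ 3 ≤ 1 * e ^ 3 :=
      mul_le_mul_of_nonneg_right (by nlinarith) (by positivity)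
    nlinarith
  exact le_of_mul_le_mul_right h7 (by positivity)

/-- `b ≤ t + t^2 / al` for `b = P(pos v = pos u + 2)`, `t = P(pos v = pos u + 1)`,
`al = P(v before u)`.
Proof. `F s = P(X_v - X_u < s)`; `F_lc` with `s = h = e`: `F 0 * F (2e) ≤ (F e)^2`, `F 0 = al` (`XL_lt`,
`XL_tie`), `F (2e) ≥ al + t (1 - exp (-2e)) + b exp (-2e) (2e)^2/2` (`XL_two_ge`), `F e ≤ al +
t (1 - exp (-e)) + b e^2/2 + e^3` (`XL_two_le`). With `1 - exp (-2e) ≥ 2e - 2e^2`,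
`1 - exp(-e) ≤ e - e^2/2 + e^3/6`, `exp (-2e) ≥ 1 - 2e`, expand to second order (`0 < e ≤ 1`, all of
`al, t, b` in `[0,1]`): `al (al + 2te - 2te^2 + 2be^2 - 4 e^3) ≤ (al + te - te^2/2 + be^2/2 + 2e^3)^2 ≤
al^2 + 2 al (te - te^2/2 + be^2/2) + t^2e^2 + C e^3`, so `al (b - t) e^2 ≤ t^2 e^2 + C' e^3`;
divide by `e^2` and let `e → 0`. -/
theorem ineq_iii (u v : P) (huv : u ≠ v) (h : 0 < lt v u) :
    nxt u v 2 ≤ nxt u v 1 + (nxt u v 1) ^ 2 / lt v u := by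
  have hA1 : lt v u ≤ 1 := lt_le_one v u
  have ht0 : 0 ≤ nxt u v 1 := Pr_nonneg _
  have ht1 : nxt u v 1 ≤ 1 := Pr_le_one _
  have hb0 : 0 ≤ nxt u v 2 := Pr_nonneg _
  have hb1 : nxt u v 2 ≤ 1 := Pr_le_one _
  have hF0 : (XL P).real {x | x v - x u < 0} = lt v u := by
    rw [← XL_lt u v]
    congr 1
    ext x
    simp [sub_neg]
  have key : ∀ e : ℝ, 0 < e → e ≤ 1 →
      lt v u * (nxt u v 2 - nxt u v 1) ≤ (nxt u v 1) ^ 2 + 20 * e := by
    intro e he he1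
    have h1 := F_lc u v e e he.le
    rw [sub_self, hF0, ← two_mul] at h1
    have h2 := XL_two_ge u v (2 * e) (by linarith)
    have h3 := XL_two_le u v huv e he.le
    have hF1 : 0 ≤ (XL P).real {x | x v - x u < e} := measureReal_nonneg
    generalize (XL P).real {x | x v - x u < e} = F1 at *
    generalize (XL P).real {x | x v - x u < 2 * e} = F2 at *
    generalize lt v u = A at *
    generalize nxt u v 1 = t at *
    generalize nxt u v 2 = b at *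
    exact ineq_iii_aux h hA1 ht0 ht1 hb0 hb1 he he1 hF1 h1 h2 h3
  have h4 : lt v u * (nxt u v 2 - nxt u v 1) ≤ (nxt u v 1) ^ 2 := by
    apply le_of_forall_pos_le_add
    intro ε hε
    have h5 := key (min 1 (ε / 20)) (by positivity) (min_le_left _ _)
    have h6 : min 1 (ε / 20) ≤ ε / 20 := min_le_right _ _
    linarith
  have h7 : nxt u v 2 - nxt u v 1 ≤ (nxt u v 1) ^ 2 / lt v u := by
    rw [le_div_iff₀ h]
    linarith [mul_comm (lt v u) (nxt u v 2 - nxt u v 1)]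
  linarith

end Pool.Agent.BFT
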