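import Mathlib
import Pool.Agent.Lib_MP_33fb9b_bft.SwA

set_option autoImplicit false

/-!
# Distance two and three
-/

namespace Pool.Agent.BFT

variable {P : Type} [Fintype P] [PartialOrder P]

/-- `τ` is obtained from `σ` by exchanging `a` and its immediate successor `b` -/
private def SwR (a b : P) (σ τ : LE P) : Prop :=
  pos σ b = pos σ a + 1 ∧ pos τ a = pos σ b ∧ pos τ b = pos σ a ∧
    ∀ w, w ≠ a → w ≠ b → pos τ w = pos σ w

private theorem SwR_ex {a b : P} (h1 : ¬ a ≤ b) (h2 : ¬ b ≤ a) {σ : LE P}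
    (h : pos σ b = pos σ a + 1) : ∃ τ, SwR a b σ τ := by
  obtain ⟨τ, t1, t2, t3⟩ := exists_swap a b h1 h2 σ h
  exact ⟨τ, h, t1, t2, t3⟩

private theorem SwR_inj {a b : P} {σ σ' τ : LE P} (h : SwR a b σ τ) (h' : SwR a b σ' τ) :
    σ = σ' := by
  obtain ⟨_, h2, h3, h4⟩ := h
  obtain ⟨_, g2, g3, g4⟩ := h'
  apply LE_ext
  intro w
  by_cases ha : w = a
  · subst ha; rw [← h3, ← g3]
  · by_cases hb : w = b
    · subst hb; rw [← h2, ← g2]
    · rw [← h4 w ha hb, ← g4 w ha hb]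

/-- `u` exchanged with its successor -/
private theorem SwR_fst {u : P} {σ σ' τ : LE P} (h : ∃ w, SwR u w σ τ) (h' : ∃ w, SwR u w σ' τ) :
    σ = σ' := by
  obtain ⟨w, h⟩ := h
  obtain ⟨w', h'⟩ := h'
  have e : w = w' := by
    apply pos_inj (σ := τ)
    have a1 := h.1
    have a2 := h.2.1
    have a3 := h.2.2.1
    have b1 := h'.1
    have b2 := h'.2.1
    have b3 := h'.2.2.1
    omega
  subst e
  exact SwR_inj h h'

/-- `v` exchanged with its predecessor -/
private theorem SwR_snd {v : P} {σ σ' τ : LE P} (h : ∃ w, SwR w v σ τ) (h' : ∃ w, SwR w v σ' τ) :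
    σ = σ' := by
  obtain ⟨w, h⟩ := h
  obtain ⟨w', h'⟩ := h'
  have e : w = w' := by
    apply pos_inj (σ := τ)
    have a1 := h.1
    have a2 := h.2.1
    have a3 := h.2.2.1
    have b1 := h'.1
    have b2 := h'.2.1
    have b3 := h'.2.2.1
    omega
  subst e
  exact SwR_inj h h'

private theorem Pr_le_rel {Q R : LE P → Prop} (F : LE P → LE P → Prop)
    (hF : ∀ σ, Q σ → ∃ τ, F σ τ ∧ R τ) (hu : ∀ σ σ' τ, F σ τ → F σ' τ → σ = σ') :
    Pr Q ≤ Pr R := by
  classical
  have hex : ∀ σ : LE P, ∃ τ : LE P, Q σ → F σ τ ∧ R τ := by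
    intro σ
    by_cases hq : Q σ
    · obtain ⟨τ, hτ⟩ := hF σ hq
      exact ⟨τ, fun _ => hτ⟩
    · exact ⟨σ, fun h => absurd h hq⟩
  choose f hf using hex
  refine Pr_le_of_inj f (fun σ hσ => (hf σ hσ).2) ?_
  intro σ τ hσ hτ he
  exact hu σ τ (f σ) (hf σ hσ).1 (by rw [he]; exact (hf τ hτ).1)

private theorem elem_at (σ : LE P) {i : ℕ} {v : P} (h : i < pos σ v) : ∃ w, pos σ w = i := by
  obtain ⟨w, hw⟩ := σ.1.surjective ⟨i, h.trans (pos_lt_card σ v)⟩
  exact ⟨w, congrArg (fun t : Fin _ => (t : ℕ)) hw⟩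

private theorem not_le_of_pos {σ : LE P} {a b : P} (h : pos σ a < pos σ b) : ¬ b ≤ a := by
  intro hc
  rcases hc.eq_or_lt with e | e
  · subst e; exact lt_irrefl _ h
  · have := pos_lt_of_lt σ e
    omega

private theorem ind_add_le {P : Type} [Fintype P] [PartialOrder P] {Q1 Q2 R1 R2 : LE P → Prop}
    (h : ∀ σ, ind (Q1 σ) + ind (Q2 σ) ≤ ind (R1 σ) + ind (R2 σ)) :
    Pr Q1 + Pr Q2 ≤ Pr R1 + Pr R2 := by
  unfold Pr
  rw [← Ex_add, ← Ex_add]
  exact Ex_mono h

/-- `b_2 ≤ b_1 + b_3` for incomparable `u, v`.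
Proof. Let `Q` be the set of linear extensions `u w v` (distance two). Since `u, v` are incomparable,
`w` is incomparable to `u` (then exchange `u, w`: `w u v`, distance one) or to `v` (exchange `w, v`:
`u v w`, distance one). Let `Q1` be the part with `w ∥ u`, `Q2` the part with `w > u`, `w ∥ v`. Both
maps are injective into `{distance 1}`. A linear extension `L = x u v y` in both images comes from
`u x v y` (so `x ∥ u`) and from `x u y v` (so `y ∥ v`); then `u x y v`, of distance three, is a linear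
extension (exchange `x, u` and `y, v` in `L`), and `L ↦ u x y v` is injective. So
`|Q1| + |Q2| ≤ |{distance 1}| + |intersection of the images| ≤ b_1 + b_3`. -/
theorem p2 (u v : P) (h1 : ¬ u ≤ v) (h2 : ¬ v ≤ u) : nxt u v 2 ≤ nxt u v 1 + nxt u v 3 := by
  -- the predicates
  let Q1 : LE P → Prop := fun σ => pos σ v = pos σ u + 2 ∧ ∃ w, pos σ w = pos σ u + 1 ∧ ¬ u ≤ w
  let Q2 : LE P → Prop := fun σ => pos σ v = pos σ u + 2 ∧ ∃ w, pos σ w = pos σ u + 1 ∧ ¬ w ≤ v
  let I1 : LE P → Prop := fun σ => pos σ v = pos σ u + 1 ∧ ∃ w, pos σ u = pos σ w + 1 ∧ ¬ u ≤ w ∧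
    ¬ w ≤ u
  let I2 : LE P → Prop := fun σ => pos σ v = pos σ u + 1 ∧ ∃ w, pos σ w = pos σ v + 1 ∧ ¬ w ≤ v ∧
    ¬ v ≤ w
  have s0 : nxt u v 2 ≤ Pr Q1 + Pr Q2 := by
    have : nxt u v 2 + Pr (fun _ : LE P => False) ≤ Pr Q1 + Pr Q2 := by
      refine ind_add_le fun σ => ?_
      rw [ind_false (q := False) id, add_zero]
      by_cases h : pos σ v = pos σ u + 2
      · obtain ⟨w, hw⟩ := elem_at σ (i := pos σ u + 1) (v := v) (by omega)
        rw [ind_true h]
        by_cases hc : u ≤ w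
        · have hq : Q2 σ := ⟨h, w, hw, fun hc' => h1 (hc.trans hc')⟩
          rw [ind_true hq]
          have := ind_nonneg (Q1 σ)
          linarith
        · have hq : Q1 σ := ⟨h, w, hw, hc⟩
          rw [ind_true hq]
          have := ind_nonneg (Q2 σ)
          linarith
      · rw [ind_false h]
        have := ind_nonneg (Q1 σ)
        have := ind_nonneg (Q2 σ)
        linarith
    have h0 : Pr (fun _ : LE P => False) = 0 := Pr_false fun _ => id
    linarith
  have s1 : Pr Q1 ≤ Pr I1 := by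
    refine Pr_le_rel (fun σ τ => ∃ w, SwR u w σ τ) ?_ (fun σ σ' τ => SwR_fst)
    rintro σ ⟨h, w, hw, hc⟩
    have hc' : ¬ w ≤ u := not_le_of_pos (σ := σ) (by omega)
    obtain ⟨τ, t⟩ := SwR_ex hc hc' hw
    refine ⟨τ, ⟨w, t⟩, ?_, w, ?_, hc, hc'⟩
    · have hvu : v ≠ u := fun e => h2 e.le
      have hvw : v ≠ w := by rintro rfl; omega
      have e1 := t.2.2.2 v hvu hvw
      have e2 := t.2.1
      omega
    · have e2 := t.2.1
      have e3 := t.2.2.1
      omega
  have s2 : Pr Q2 ≤ Pr I2 := by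
    refine Pr_le_rel (fun σ τ => ∃ w, SwR w v σ τ) ?_ (fun σ σ' τ => SwR_snd)
    rintro σ ⟨h, w, hw, hc⟩
    have hc' : ¬ v ≤ w := not_le_of_pos (σ := σ) (by omega)
    obtain ⟨τ, t⟩ := SwR_ex hc hc' (σ := σ) (by omega)
    refine ⟨τ, ⟨w, t⟩, ?_, w, ?_, hc, hc'⟩
    · have huv : u ≠ v := fun e => h1 e.le
      have huw : u ≠ w := by rintro rfl; omega
      have e1 := t.2.2.2 u huw huv
      have e2 := t.2.2.1
      omega
    · have e1 := t.1
      have e2 := t.2.1
      have e3 := t.2.2.1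
      omega
  have s3 : Pr I1 + Pr I2 ≤ nxt u v 1 + Pr (fun σ => I1 σ ∧ I2 σ) := by
    refine ind_add_le fun σ => ?_
    by_cases a : I1 σ
    · by_cases b : I2 σ
      · rw [ind_true a, ind_true b, ind_true a.1, ind_true (q := I1 σ ∧ I2 σ) ⟨a, b⟩]
      · rw [ind_true a, ind_false b, ind_true a.1, ind_false (q := I1 σ ∧ I2 σ) (fun h => b h.2)]
    · by_cases b : I2 σ
      · rw [ind_false a, ind_true b, ind_true b.1, ind_false (q := I1 σ ∧ I2 σ) (fun h => a h.1)]
        linarith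
      · rw [ind_false a, ind_false b, ind_false (q := I1 σ ∧ I2 σ) (fun h => a h.1)]
        have := ind_nonneg (pos σ v = pos σ u + 1)
        linarith
  have s4 : Pr (fun σ => I1 σ ∧ I2 σ) ≤ nxt u v 3 := by
    refine Pr_le_rel (fun σ τ => ∃ M, (∃ w, SwR w u σ M) ∧ ∃ w, SwR v w M τ) ?_ ?_
    · rintro σ ⟨⟨ha, x, hx, hx1, hx2⟩, -, y, hy, hy1, hy2⟩
      obtain ⟨M, m⟩ := SwR_ex hx2 hx1 hx
      have hvx : v ≠ x := by rintro rfl; omega
      have hvu : v ≠ u := fun e => h2 e.le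
      have hyx : y ≠ x := by rintro rfl; omega
      have hyu : y ≠ u := by rintro rfl; omega
      have mv := m.2.2.2 v hvx hvu
      have my := m.2.2.2 y hyx hyu
      obtain ⟨τ, t⟩ := SwR_ex (σ := M) hy2 hy1 (by omega)
      refine ⟨τ, ⟨M, ⟨x, m⟩, y, t⟩, ?_⟩
      have tu := t.2.2.2 u hvu.symm hyu.symm
      have e1 := t.2.1
      have e2 := m.2.1
      have e3 := m.2.2.1
      show pos τ v = pos τ u + 3
      omega
    · rintro σ σ' τ ⟨M, m1, m2⟩ ⟨M', m1', m2'⟩
      have e := SwR_fst m2 m2'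
      subst e
      exact SwR_snd m1 m1'
  linarith

/-- `b_3 ≤ 2 b_2` for incomparable `u, v`.
Proof. `L = u w1 w2 v`. (a) If `w1 ∥ u`: map to `w1 u w2 v`. (b) Otherwise `u < w1`; if `w2 ∥ v`: map to
`u w1 v w2`. (c) Otherwise `u < w1` and `w2 < v`; then `w1, w2` are incomparable and `w1 ∥ v`
(otherwise `u < v`); map to `u w2 v w1` (exchange `w1, w2`, then `w1, v`). Each map is injective into
`{distance 2}`. A target `x u w v y` has the possible preimages: (a) `u x w v y`; (b) `x u w y v`, only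
if `u < w`; (c) `x u y w v`, only if `w < v` (and `u < y`). (b) and (c) exclude each other since
`u < w < v` is impossible. So `|Q_b| + |Q_c| ≤ |{distance 2}|` (the images of (b), (c) are disjoint) and
`|Q_a| ≤ |{distance 2}|`. -/
theorem p5 (u v : P) (h1 : ¬ u ≤ v) (h2 : ¬ v ≤ u) : nxt u v 3 ≤ 2 * nxt u v 2 := by
  have hvu : v ≠ u := fun e => h2 e.le
  let Qa : LE P → Prop := fun σ => pos σ v = pos σ u + 3 ∧ ∃ w, pos σ w = pos σ u + 1 ∧ ¬ u ≤ w
  let Qb : LE P → Prop := fun σ => pos σ v = pos σ u + 3 ∧ ∃ w w', pos σ w = pos σ u + 1 ∧ u ≤ w ∧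
    pos σ w' = pos σ u + 2 ∧ ¬ w' ≤ v
  let Qc : LE P → Prop := fun σ => pos σ v = pos σ u + 3 ∧ ∃ w w', pos σ w = pos σ u + 1 ∧ u ≤ w ∧
    pos σ w' = pos σ u + 2 ∧ w' ≤ v
  let Ib : LE P → Prop := fun σ => pos σ v = pos σ u + 2 ∧ ∃ w, pos σ w = pos σ u + 1 ∧ u ≤ w
  let Ic : LE P → Prop := fun σ => pos σ v = pos σ u + 2 ∧ ∃ w, pos σ w = pos σ u + 1 ∧ w ≤ v
  have s0 : nxt u v 3 ≤ Pr Qa + (Pr Qb + Pr Qc) := by
    have e : Pr Qa + (Pr Qb + Pr Qc) = Ex (fun σ => ind (Qa σ) + (ind (Qb σ) + ind (Qc σ))) := by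
      rw [Ex_add, Ex_add]; rfl
    rw [e]
    refine Ex_mono fun σ => ?_
    have n1 := ind_nonneg (Qa σ)
    have n2 := ind_nonneg (Qb σ)
    have n3 := ind_nonneg (Qc σ)
    by_cases h : pos σ v = pos σ u + 3
    · obtain ⟨w, hw⟩ := elem_at σ (i := pos σ u + 1) (v := v) (by omega)
      obtain ⟨w', hw'⟩ := elem_at σ (i := pos σ u + 2) (v := v) (by omega)
      rw [ind_true h]
      by_cases hc : u ≤ w
      · by_cases hd : w' ≤ v
        · rw [ind_true (q := Qc σ) ⟨h, w, w', hw, hc, hw', hd⟩]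
          linarith
        · rw [ind_true (q := Qb σ) ⟨h, w, w', hw, hc, hw', hd⟩]
          linarith
      · rw [ind_true (q := Qa σ) ⟨h, w, hw, hc⟩]
        linarith
    · rw [ind_false h]
      linarith
  have sa : Pr Qa ≤ nxt u v 2 := by
    refine Pr_le_rel (fun σ τ => ∃ w, SwR u w σ τ) ?_ (fun σ σ' τ => SwR_fst)
    rintro σ ⟨h, w, hw, hc⟩
    have hc' : ¬ w ≤ u := not_le_of_pos (σ := σ) (by omega)
    obtain ⟨τ, t⟩ := SwR_ex hc hc' hw
    refine ⟨τ, ⟨w, t⟩, ?_⟩
    have hvw : v ≠ w := by rintro rfl; omega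
    have e1 := t.2.2.2 v hvu hvw
    have e2 := t.2.1
    show pos τ v = pos τ u + 2
    omega
  have sb : Pr Qb ≤ Pr Ib := by
    refine Pr_le_rel (fun σ τ => ∃ w, SwR w v σ τ) ?_ (fun σ σ' τ => SwR_snd)
    rintro σ ⟨h, w, w', hw, hc, hw', hd⟩
    have hd' : ¬ v ≤ w' := not_le_of_pos (σ := σ) (by omega)
    obtain ⟨τ, t⟩ := SwR_ex hd hd' (σ := σ) (by omega)
    have huw' : u ≠ w' := by rintro rfl; omega
    have hww' : w ≠ w' := by rintro rfl; omega
    have hwv : w ≠ v := by rintro rfl; omega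
    have e1 := t.2.2.2 u huw' hvu.symm
    have e2 := t.2.2.2 w hww' hwv
    have e3 := t.2.2.1
    refine ⟨τ, ⟨w', t⟩, ?_, w, ?_, hc⟩
    · omega
    · omega
  have sc : Pr Qc ≤ Pr Ic := by
    refine Pr_le_rel (fun σ τ => ∃ M, (∃ w w', pos σ w = pos σ u + 1 ∧ w ≠ u ∧ w' ≠ u ∧
      SwR w w' σ M) ∧ ∃ w, SwR w v M τ) ?_ ?_
    · rintro σ ⟨h, w, w', hw, hc, hw', hd⟩
      have huw : w ≠ u := by rintro rfl; omega
      have huw' : w' ≠ u := by rintro rfl; omega
      have hvw : v ≠ w := by rintro rfl; omega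
      have hvw' : v ≠ w' := by rintro rfl; omega
      have k1 : ¬ w ≤ w' := fun hh => h1 (hc.trans (hh.trans hd))
      have k2 : ¬ w' ≤ w := not_le_of_pos (σ := σ) (by omega)
      have k3 : ¬ w ≤ v := fun hh => h1 (hc.trans hh)
      have k4 : ¬ v ≤ w := not_le_of_pos (σ := σ) (by omega)
      obtain ⟨M, m⟩ := SwR_ex k1 k2 (σ := σ) (by omega)
      have mv := m.2.2.2 v hvw hvw'
      have mu := m.2.2.2 u huw.symm huw'.symm
      have m1 := m.2.1
      have m2 := m.2.2.1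
      obtain ⟨τ, t⟩ := SwR_ex k3 k4 (σ := M) (by omega)
      have tu := t.2.2.2 u huw.symm hvu.symm
      have tw' := t.2.2.2 w' (fun e => by rw [e] at hw'; omega) hvw'.symm
      have t1 := t.2.2.1
      refine ⟨τ, ⟨M, ⟨w, w', hw, huw, huw', m⟩, w, t⟩, ?_, w', ?_, hd⟩
      · omega
      · omega
    · rintro σ σ' τ ⟨M, ⟨w, w', hw, hwu, hwu', m⟩, m2⟩ ⟨M', ⟨x, x', hx, hxu, hxu', n⟩, n2⟩
      have e := SwR_snd m2 n2
      subst e
      have a1 := m.2.2.2 u hwu.symm hwu'.symm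
      have b1 := n.2.2.2 u hxu.symm hxu'.symm
      have e1 : w = x := by
        apply pos_inj (σ := M)
        have := m.1
        have := m.2.1
        have := n.1
        have := n.2.1
        omega
      have e2 : w' = x' := by
        apply pos_inj (σ := M)
        have := m.1
        have := m.2.2.1
        have := n.1
        have := n.2.2.1
        omega
      subst e1
      subst e2
      exact SwR_inj m n
  have sd : Pr Ib + Pr Ic ≤ nxt u v 2 := by
    have : Pr Ib + Pr Ic ≤ nxt u v 2 + Pr (fun _ : LE P => False) := by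
      refine ind_add_le fun σ => ?_
      rw [ind_false (q := False) id, add_zero]
      by_cases a : Ib σ
      · have b : ¬ Ic σ := by
          rintro ⟨-, w', hw', hd⟩
          obtain ⟨-, w, hw, hc⟩ := a
          have e : w = w' := pos_inj (σ := σ) (by omega)
          subst e
          exact h1 (hc.trans hd)
        rw [ind_true a, ind_false b, ind_true a.1, add_zero]
      · rw [ind_false a, zero_add]
        exact ind_mono fun b => b.1
    have h0 : Pr (fun _ : LE P => False) = 0 := Pr_false fun _ => id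
    linarith
  linarith

end Pool.Agent.BFT
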