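import Mathlib
import Pool.Agent.Lib_MP_33fb9b_bft.SwB

set_option autoImplicit false

/-!
# Lower bounds for `E (pos v - pos u)^+`
-/

namespace Pool.Agent.BFT

variable {P : Type} [Fintype P] [PartialOrder P]

/-- pointwise `(D)^+ ≥ 3 [D ≥ 1] - 2 [D = 1] - [D = 2]` -/
theorem plus_two (u v : P) : 3 * lt u v - 2 * nxt u v 1 - nxt u v 2 ≤ dd v u := by
  unfold lt nxt dd Pr
  rw [← Ex_mul, ← Ex_mul, ← Ex_sub, ← Ex_sub]
  apply Ex_mono
  intro σ
  have hm0 := le_max_right ((pos σ v : ℝ) - pos σ u) 0
  have hm1 := le_max_left ((pos σ v : ℝ) - pos σ u) 0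
  have n1 := ind_nonneg (pos σ v = pos σ u + 1)
  have n2 := ind_nonneg (pos σ v = pos σ u + 2)
  by_cases h : pos σ u < pos σ v
  · rw [ind_true h]
    by_cases h1 : pos σ v = pos σ u + 1
    · rw [ind_true h1]
      have : (pos σ v : ℝ) = pos σ u + 1 := by exact_mod_cast h1
      linarith
    · by_cases h2 : pos σ v = pos σ u + 2
      · rw [ind_true h2]
        have : (pos σ v : ℝ) = pos σ u + 2 := by exact_mod_cast h2
        linarith
      · have : (pos σ u : ℝ) + 3 ≤ pos σ v := by
          have h3 : pos σ u + 3 ≤ pos σ v := by omega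
          exact_mod_cast h3
        linarith
  · rw [ind_false h]
    linarith

/-- pointwise `(D)^+ ≥ 4 [D ≥ 1] - 3 [D = 1] - 2 [D = 2] - [D = 3]` -/
theorem plus_three (u v : P) :
    4 * lt u v - 3 * nxt u v 1 - 2 * nxt u v 2 - nxt u v 3 ≤ dd v u := by
  unfold lt nxt dd Pr
  rw [← Ex_mul, ← Ex_mul, ← Ex_mul, ← Ex_sub, ← Ex_sub, ← Ex_sub]
  apply Ex_mono
  intro σ
  have hm0 := le_max_right ((pos σ v : ℝ) - pos σ u) 0
  have hm1 := le_max_left ((pos σ v : ℝ) - pos σ u) 0
  have n1 := ind_nonneg (pos σ v = pos σ u + 1)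
  have n2 := ind_nonneg (pos σ v = pos σ u + 2)
  have n3 := ind_nonneg (pos σ v = pos σ u + 3)
  by_cases h : pos σ u < pos σ v
  · rw [ind_true h]
    by_cases h1 : pos σ v = pos σ u + 1
    · rw [ind_true h1]
      have : (pos σ v : ℝ) = pos σ u + 1 := by exact_mod_cast h1
      linarith
    · by_cases h2 : pos σ v = pos σ u + 2
      · rw [ind_true h2]
        have : (pos σ v : ℝ) = pos σ u + 2 := by exact_mod_cast h2
        linarith
      · by_cases h3 : pos σ v = pos σ u + 3
        · rw [ind_true h3]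
          have : (pos σ v : ℝ) = pos σ u + 3 := by exact_mod_cast h3
          linarith
        · have : (pos σ u : ℝ) + 4 ≤ pos σ v := by
            have h3 : pos σ u + 4 ≤ pos σ v := by omega
            exact_mod_cast h3
          linarith
  · rw [ind_false h]
    linarith

/-- the three distances are disjoint parts of `u before v` -/
private theorem three_le (u v : P) : nxt u v 1 + nxt u v 2 + nxt u v 3 ≤ lt u v := by
  unfold lt nxt Pr
  rw [← Ex_add, ← Ex_add]
  apply Ex_mono
  intro σ
  by_cases h1 : pos σ v = pos σ u + 1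
  · rw [ind_true h1, ind_false (q := pos σ v = pos σ u + 2) (by omega),
      ind_false (q := pos σ v = pos σ u + 3) (by omega), ind_true (by omega)]
    norm_num
  · rw [ind_false h1]
    by_cases h2 : pos σ v = pos σ u + 2
    · rw [ind_true h2, ind_false (q := pos σ v = pos σ u + 3) (by omega), ind_true (by omega)]
      norm_num
    · rw [ind_false h2]
      by_cases h3 : pos σ v = pos σ u + 3
      · rw [ind_true h3, ind_true (by omega)]
        norm_num
      · rw [ind_false h3]
        have := ind_nonneg (pos σ u < pos σ v)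
        linarith

/-- `E D^+ ≥ 2.5 G - 2 b_1` for incomparable elements: `G ≥ b_1 + b_2 + b_3 ≥ 2 b_2` by `p2`, and
`plus_two` -/
theorem plus_one (u v : P) (h1 : ¬ u ≤ v) (h2 : ¬ v ≤ u) :
    5 / 2 * lt u v - 2 * nxt u v 1 ≤ dd v u := by
  have a := plus_two u v
  have b := three_le u v
  have c := p2 u v h1 h2
  linarith

end Pool.Agent.BFT
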