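import Mathlib
import Pool.Agent.Lib_MP_33fb9b_bft.BBdef
import Pool.Agent.Lib_MP_33fb9b_bft.PairPlus
import Pool.Agent.Lib_MP_33fb9b_bft.IneqI
import Pool.Agent.Lib_MP_33fb9b_bft.IneqII
import Pool.Agent.Lib_MP_33fb9b_bft.IneqIII

set_option autoImplicit false

/-!
# The lower bound for the distance of a pair
-/

namespace Pool.Agent.BFT

variable {P : Type} [Fintype P] [PartialOrder P]

/-- `0 < nxt u v 1 ≤ lt v u` for incomparable elements (`adj_swap`, `adj_pos`) -/
theorem adj_le (u v : P) (h1 : ¬ u ≤ v) (h2 : ¬ v ≤ u) : nxt u v 1 ≤ lt v u := by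
  rw [adj_swap u v h1 h2]
  exact Pr_mono fun σ h => by omega

/-- Let `al = lt v u`, `t = nxt u v 1`, `k = t / al`, `G = lt u v = 1 - al`. `dd u v ≤ al^2/t = al/k`
(`ineq_i`, `adj_swap`), `ht v - ht u = dd v u - dd u v` (`dd_sub`), and `dd v u` is at least
`5/2 G - 2t` (`plus_one`), `3G - 2t - b_2 ≥ 3G - 3t - t^2/al` (`plus_two`, `ineq_iii`),
`al (ln(1/al) - 1 + al)/t` (`ineq_ii`), `4G - 3t - 2b_2 - b_3 ≥ 4G - 3t - 4b_2 ≥ 4G - 7t - 4t^2/al`
(`plus_three`, `p5`, `ineq_iii`). -/
theorem pair_low (u v : P) (h1 : ¬ u ≤ v) (h2 : ¬ v ≤ u) :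
    BB (lt v u) (nxt u v 1 / lt v u) ≤ ht v - ht u := by
  have huv : u ≠ v := fun e => h1 e.le
  have ht0 : 0 < nxt u v 1 := adj_pos u v h1 h2
  have hal : 0 < lt v u := lt_pos v u h2 h1
  have hG : lt u v = 1 - lt v u := by
    have := lt_add huv
    linarith
  have hi : nxt u v 1 * dd u v ≤ (lt v u) ^ 2 := by
    rw [adj_swap u v h1 h2]
    exact ineq_i u v huv
  have hii := ineq_ii u v huv hal
  have hiii := ineq_iii u v huv hal
  have q1 := plus_one u v h1 h2
  have q2 := plus_two u v
  have q3 := plus_three u v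
  have q5 := p5 u v h1 h2
  rw [← dd_sub u v]
  rw [hG] at q1 q2 q3
  set al := lt v u with hal'
  set t := nxt u v 1 with ht'
  set k := t / al with hk
  have htk : t = al * k := by
    rw [hk]; field_simp
  have hk0 : 0 < k := div_pos ht0 hal
  have hdd : dd u v ≤ al * (1 / k) := by
    rw [mul_one_div, le_div_iff₀ hk0]
    have : al * (k * dd u v) ≤ al * al := by
      calc al * (k * dd u v) = t * dd u v := by rw [htk]; ring
        _ ≤ al ^ 2 := hi
        _ = al * al := by ring
    have := le_of_mul_le_mul_left this hal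
    linarith
  have hb2 : nxt u v 2 ≤ al * k + al * k ^ 2 := by
    have : t ^ 2 / al = al * k ^ 2 := by
      rw [htk]; field_simp
    rw [this, htk] at hiii
    exact hiii
  unfold BB
  apply max_le
  · apply max_le
    · have e : 5 / 2 - al * (5 / 2 + 2 * k + 1 / k) = 5 / 2 * (1 - al) - 2 * (al * k) - al * (1 / k) := by
        ring
      rw [e, ← htk]
      linarith
    · have e : 3 - al * (3 + 3 * k + k ^ 2 + 1 / k) =
          3 * (1 - al) - 3 * (al * k) - al * k ^ 2 - al * (1 / k) := by
        ring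
      rw [e, ← htk]
      rw [← htk] at hb2
      linarith
  · apply max_le
    · have h3 : (Real.log (1 / al) - 1 + al) / k ≤ dd v u := by
        rw [div_le_iff₀ hk0]
        have : al * (Real.log (1 / al) - 1 + al) ≤ al * (dd v u * k) := by
          calc al * (Real.log (1 / al) - 1 + al) ≤ t * dd v u := hii
            _ = al * (dd v u * k) := by rw [htk]; ring
        exact le_of_mul_le_mul_left this hal
      have e : (Real.log (1 / al) - 1) / k = (Real.log (1 / al) - 1 + al) / k - al * (1 / k) := by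
        ring
      rw [e]
      linarith
    · have e : 4 - al * (4 + 7 * k + 4 * k ^ 2 + 1 / k) =
          4 * (1 - al) - 7 * (al * k) - 4 * (al * k ^ 2) - al * (1 / k) := by
        ring
      rw [e, ← htk]
      rw [← htk] at hb2
      linarith

end Pool.Agent.BFT
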