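import Mathlib
import Pool.Agent.Lib_MP_33fb9b_bft.PairLow
import Pool.Agent.Lib_MP_33fb9b_bft.NumB

set_option autoImplicit false

/-!
# Triples with exactly one comparable neighbouring pair
-/

namespace Pool.Agent.BFT

variable {P : Type} [Fintype P] [PartialOrder P]

/-- additivity of probabilities for the two complementary events used here -/
private theorem TypeB_split (A B C : LE P → Prop) (h : ∀ σ, A σ ↔ (B σ ∨ C σ))
    (hd : ∀ σ, ¬ (B σ ∧ C σ)) : Pr A = Pr B + Pr C := by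
  unfold Pr
  rw [← Ex_add]
  apply Ex_congr
  intro σ
  by_cases hB : B σ
  · have hC : ¬ C σ := fun hC => hd σ ⟨hB, hC⟩
    rw [ind_true hB, ind_false hC, ind_true ((h σ).2 (Or.inl hB))]; norm_num
  · by_cases hC : C σ
    · rw [ind_false hB, ind_true hC, ind_true ((h σ).2 (Or.inr hC))]; norm_num
    · rw [ind_false hB, ind_false hC, ind_false (fun hA => ((h σ).1 hA).elim hB hC)]; norm_num

/-- the distance of a comparable pair is at least one plus the probability that a third element is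
between -/
private theorem TypeB_dist (x y z : P) (hxy : x < y) :
    1 + Pr (fun σ : LE P => pos σ x < pos σ z ∧ pos σ z < pos σ y) ≤ ht y - ht x := by
  unfold ht Pr
  rw [← Ex_sub]
  have h1 : (1 : ℝ) + Ex (fun σ : LE P => ind (pos σ x < pos σ z ∧ pos σ z < pos σ y)) =
      Ex (fun σ : LE P => 1 + ind (pos σ x < pos σ z ∧ pos σ z < pos σ y)) := by
    rw [Ex_add, Ex_const]
  rw [h1]
  apply Ex_mono
  intro σ
  have h2 := pos_lt_of_lt σ hxy
  by_cases hz : pos σ x < pos σ z ∧ pos σ z < pos σ y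
  · rw [ind_true hz]
    have h3 : pos σ x + 2 ≤ pos σ y := by omega
    have h4 : ((pos σ x : ℝ)) + 2 ≤ pos σ y := by exact_mod_cast h3
    linarith
  · rw [ind_false hz]
    have h3 : pos σ x + 1 ≤ pos σ y := by omega
    have h4 : ((pos σ x : ℝ)) + 1 ≤ pos σ y := by exact_mod_cast h3
    linarith

private theorem TypeB_k (u v : P) (h1 : ¬ u ≤ v) (h2 : ¬ v ≤ u) :
    0 < lt v u ∧ 0 < nxt u v 1 / lt v u ∧ nxt u v 1 / lt v u ≤ 1 ∧
      lt v u * (nxt u v 1 / lt v u) = nxt u v 1 := by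
  have ha := lt_pos v u h2 h1
  have hb := adj_pos u v h1 h2
  have hc := adj_le u v h1 h2
  refine ⟨ha, div_pos hb ha, (div_le_one ha).2 hc, ?_⟩
  field_simp

private theorem TypeB_base (u v : P) (h1 : ¬ u ≤ v) (h2 : ¬ v ≤ u) (h : lt v u ≤ 0.277) :
    0.9765 ≤ ht v - ht u := by
  obtain ⟨ha, hk, hk1, -⟩ := TypeB_k u v h1 h2
  have h3 := BB_near _ _ ha h hk hk1
  have h4 := pair_low u v h1 h2
  have h5 : 0 ≤ min (lt v u * (1 - nxt u v 1 / lt v u)) 0.076 := by
    apply le_min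
    · exact mul_nonneg ha.le (by linarith)
    · norm_num
  linarith

private theorem TypeB_quarter (u v : P) (h1 : ¬ u ≤ v) (h2 : ¬ v ≤ u) (h : lt v u ≤ 1 / 4) :
    1.0125 ≤ ht v - ht u := by
  obtain ⟨ha, hk, hk1, -⟩ := TypeB_k u v h1 h2
  exact (BB_quarter _ _ ha h hk hk1).trans (pair_low u v h1 h2)

private theorem TypeB_small (u v : P) (h1 : ¬ u ≤ v) (h2 : ¬ v ≤ u) (h : lt v u ≤ 0.277)
    (h3 : nxt u v 1 ≤ 0.036) : 2.0125 ≤ ht v - ht u := by
  obtain ⟨ha, hk, hk1, he⟩ := TypeB_k u v h1 h2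
  exact (BB_small _ _ ha h hk hk1 (by rw [he]; exact h3)).trans (pair_low u v h1 h2)

/-- `x < y`, `y ∥ z`. Proof. `E(pos y - pos x) ≥ 1 + P(x<z<y)` (pointwise), `P(x<z<y) = P(z<y) - P(z<x) =:
s`, and `ht z - ht y ≥ BB (lt z y) (..) ≥ 0.9765` (`pair_low`, `BB_near`). So `ht z - ht x ≥ 1.9765 + s`.
If `s ≥ 0.036` done. Let `s < 0.036`. If `x ≤ z` then `lt z x = 0`, `lt z y = s < 1/4` and
`BB_quarter` gives `ht z - ht x ≥ 1 + 1.0125`. If `x ∥ z` (`z ≤ x` is impossible, `lt z x ≤ 0.277`):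
`nxt x z 1 ≤ P(x<z<y) = s < 0.036` (if `z` is immediately after `x` then `y`, which is after `x`, is after
`z`), so `pair_low x z` and `BB_small` with `a = lt z x`, `k = nxt x z 1 / a`. -/
theorem type_b (x y z : P) (hxy : x < y) (h3 : ¬ y ≤ z) (h4 : ¬ z ≤ y)
    (q2 : lt z y ≤ 0.277) (q3 : lt z x ≤ 0.277) : 2.0125 ≤ ht z - ht x := by
  have hzx : z ≠ x := fun h => h4 (h ▸ hxy.le)
  have hzy : z ≠ y := fun h => h4 h.le
  have e1 := TypeB_dist x y z hxy
  have e2 := TypeB_base y z h3 h4 q2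
  have e3 : lt z y = lt z x + Pr (fun σ : LE P => pos σ x < pos σ z ∧ pos σ z < pos σ y) := by
    apply TypeB_split
    · intro σ
      have h5 := pos_lt_of_lt σ hxy
      have h6 := pos_ne (σ := σ) hzx
      have h7 := pos_ne (σ := σ) hzy
      omega
    · intro σ
      omega
  have e4 : nxt x z 1 ≤ Pr (fun σ : LE P => pos σ x < pos σ z ∧ pos σ z < pos σ y) := by
    apply Pr_mono
    intro σ h
    have h5 := pos_lt_of_lt σ hxy
    have h6 := pos_ne (σ := σ) hzx
    have h7 := pos_ne (σ := σ) hzy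
    omega
  generalize Pr (fun σ : LE P => pos σ x < pos σ z ∧ pos σ z < pos σ y) = s at *
  rcases le_total 0.036 s with hs | hs
  · linarith
  · by_cases hxz : x ≤ z
    · have h5 : lt z x = 0 := lt_of_gt (lt_of_le_of_ne hxz (Ne.symm hzx))
      have h6 := TypeB_quarter y z h3 h4 (by rw [e3, h5]; linarith)
      have h7 : 0 ≤ lt z y := lt_nonneg _ _
      rw [e3, h5] at h7
      linarith
    · have hzx' : ¬ z ≤ x := fun h => h4 (h.trans hxy.le)
      exact TypeB_small x z hxz hzx' q3 (e4.trans hs)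

/-- `x ∥ y`, `y < z`: the mirror image. `E(pos z - pos y) ≥ 1 + P(y<x<z)`, `P(y<x<z) = P(y<x) - P(z<x)`,
`nxt x z 1 ≤ P(y<x<z)`. -/
theorem type_b' (x y z : P) (hyz : y < z) (h1 : ¬ x ≤ y) (h2 : ¬ y ≤ x)
    (q1 : lt y x ≤ 0.277) (q3 : lt z x ≤ 0.277) : 2.0125 ≤ ht z - ht x := by
  have hzx : z ≠ x := fun h => h2 (h ▸ hyz.le)
  have hyx : y ≠ x := fun h => h2 h.le
  have e1 := TypeB_dist y z x hyz
  have e2 := TypeB_base x y h1 h2 q1
  have e3 : lt y x = lt z x + Pr (fun σ : LE P => pos σ y < pos σ x ∧ pos σ x < pos σ z) := by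
    apply TypeB_split
    · intro σ
      have h5 := pos_lt_of_lt σ hyz
      have h6 := pos_ne (σ := σ) hzx
      have h7 := pos_ne (σ := σ) hyx
      omega
    · intro σ
      omega
  have e4 : nxt x z 1 ≤ Pr (fun σ : LE P => pos σ y < pos σ x ∧ pos σ x < pos σ z) := by
    apply Pr_mono
    intro σ h
    have h5 := pos_lt_of_lt σ hyz
    have h6 := pos_ne (σ := σ) hzx
    have h7 := pos_ne (σ := σ) hyx
    omega
  generalize Pr (fun σ : LE P => pos σ y < pos σ x ∧ pos σ x < pos σ z) = s at *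
  rcases le_total 0.036 s with hs | hs
  · linarith
  · by_cases hxz : x ≤ z
    · have h5 : lt z x = 0 := lt_of_gt (lt_of_le_of_ne hxz (Ne.symm hzx))
      have h6 := TypeB_quarter x y h1 h2 (by rw [e3, h5]; linarith)
      have h7 : 0 ≤ lt y x := lt_nonneg _ _
      rw [e3, h5] at h7
      linarith
    · have hzx' : ¬ z ≤ x := fun h => h2 (hyz.le.trans h)
      exact TypeB_small x z hxz hzx' q3 (e4.trans hs)

end Pool.Agent.BFT
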