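import Mathlib
import Pool.Agent.Lib_MP_33fb9b_bft.SwA

set_option autoImplicit false

/-!
# Triples
-/

namespace Pool.Agent.BFT

private theorem swc_tri (X Y Z : ℕ) :
    4 * ind (X < Y ∧ Y < Z) + ind (X < Z ∧ ¬ (X < Y ∧ Y < Z)) + ind (X = Y + 1 ∧ Z = X + 2)
      + ind (Z = X + 2 ∧ Y = Z + 1) - 2 * ind (Y = X + 1 ∧ Z = Y + 1)
      - ind (Y = X + 1 ∧ Z = Y + 2) - ind (Y = X + 2 ∧ Z = Y + 1)
      ≤ max ((Z : ℝ) - X) 0 := by
  classical
  have h : (4 * (if (X < Y ∧ Y < Z) then 1 else 0) + (if (X < Z ∧ ¬ (X < Y ∧ Y < Z)) then 1 else 0)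
      + (if (X = Y + 1 ∧ Z = X + 2) then 1 else 0)
      + (if (Z = X + 2 ∧ Y = Z + 1) then 1 else 0)
      - 2 * (if (Y = X + 1 ∧ Z = Y + 1) then 1 else 0)
      - (if (Y = X + 1 ∧ Z = Y + 2) then 1 else 0)
      - (if (Y = X + 2 ∧ Z = Y + 1) then 1 else 0) : ℤ) ≤ max ((Z : ℤ) - X) 0 := by
    rcases le_total (Z : ℤ) X with h | h
    · rw [max_eq_right (by omega)]
      split_ifs <;> omega
    · rw [max_eq_left (by omega)]
      split_ifs <;> omega
  have h2 := (Int.cast_le (R := ℝ)).mpr h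
  push_cast at h2
  unfold ind
  refine le_trans (le_of_eq ?_) h2
  congr!

private theorem swc_two (X Y Z : ℕ) :
    ind (Y < Z ∧ Z < X) + ind (Z < Y ∧ Y < X) - ind (X = Y + 1 ∧ Z < Y)
      ≤ ind (Y < X) - ind (X = Y + 1) := by
  unfold ind
  split_ifs <;> first | (exfalso; omega) | norm_num

private theorem swc_two' (X Y Z : ℕ) :
    ind (Z < X ∧ X < Y) + ind (Z < Y ∧ Y < X) - ind (Y = Z + 1 ∧ Y < X)
      ≤ ind (Z < Y) - ind (Y = Z + 1) := by
  unfold ind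
  split_ifs <;> first | (exfalso; omega) | norm_num

private theorem swc_w (X Y Z : ℕ) :
    ind (Y < Z ∧ Z < X) ≤ ind (Y < X) - ind (X = Y + 1) := by
  unfold ind
  split_ifs <;> first | (exfalso; omega) | norm_num

variable {P : Type} [Fintype P] [PartialOrder P]

/-- `x ∥ y`, `y ∥ z`: `E (pos z - pos x)^+ ≥ 4 P(x<y<z) + P(x<z, y not between) - 2 F11`.
Proof. With `F11 = P(x y z consecutive)`, `F12 = P(pos y = pos x + 1, pos z = pos y + 2)`,
`F21 = P(pos y = pos x + 2, pos z = pos y + 1)`: pointwise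
`(pos z - pos x)^+ ≥ 4 [x<y<z] - 2 [F11] - [F12] - [F21] + [x<z, y not between] +
[y<x, pos z = pos x + 2, pos x = pos y + 1] + [z<y, x<z, pos z = pos x + 2, pos y = pos z + 1]` (the last
two events are contained in `{x<z, y not between}` and there the difference is `2`), and the last two
probabilities are at least `F12` (exchange `x, y` in `x y . z`) and `F21` (exchange `y, z` in `x . y z`),
by `Pr_swap_le`. -/
theorem tri_lem (x y z : P) (h1 : ¬ x ≤ y) (h2 : ¬ y ≤ x) (h3 : ¬ y ≤ z) (h4 : ¬ z ≤ y) :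
    4 * Pr (fun σ : LE P => pos σ x < pos σ y ∧ pos σ y < pos σ z) +
      (lt x z - Pr (fun σ : LE P => pos σ x < pos σ y ∧ pos σ y < pos σ z)) -
      2 * Pr (fun σ : LE P => pos σ y = pos σ x + 1 ∧ pos σ z = pos σ y + 1) ≤ dd z x := by
  have key : 4 * Pr (fun σ : LE P => pos σ x < pos σ y ∧ pos σ y < pos σ z)
      + Pr (fun σ : LE P => pos σ x < pos σ z ∧ ¬ (pos σ x < pos σ y ∧ pos σ y < pos σ z))
      + Pr (fun σ : LE P => pos σ x = pos σ y + 1 ∧ pos σ z = pos σ x + 2)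
      + Pr (fun σ : LE P => pos σ z = pos σ x + 2 ∧ pos σ y = pos σ z + 1)
      - 2 * Pr (fun σ : LE P => pos σ y = pos σ x + 1 ∧ pos σ z = pos σ y + 1)
      - Pr (fun σ : LE P => pos σ y = pos σ x + 1 ∧ pos σ z = pos σ y + 2)
      - Pr (fun σ : LE P => pos σ y = pos σ x + 2 ∧ pos σ z = pos σ y + 1) ≤ dd z x := by
    unfold dd Pr
    rw [← Ex_mul, ← Ex_mul, ← Ex_add, ← Ex_add, ← Ex_add, ← Ex_sub, ← Ex_sub, ← Ex_sub]
    exact Ex_mono fun σ => swc_tri _ _ _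
  have hB : lt x z - Pr (fun σ : LE P => pos σ x < pos σ y ∧ pos σ y < pos σ z)
      ≤ Pr (fun σ : LE P => pos σ x < pos σ z ∧ ¬ (pos σ x < pos σ y ∧ pos σ y < pos σ z)) := by
    unfold lt Pr
    rw [← Ex_sub]
    refine Ex_mono fun σ => ?_
    unfold ind
    split_ifs <;> first | (exfalso; omega) | norm_num
  have hC1 : Pr (fun σ : LE P => pos σ y = pos σ x + 1 ∧ pos σ z = pos σ y + 2)
      ≤ Pr (fun σ : LE P => pos σ x = pos σ y + 1 ∧ pos σ z = pos σ x + 2) := by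
    refine Pr_swap_le x y h1 h2 _ _ (fun σ h => h.1) ?_
    intro σ τ hQ ha hb hw
    have hzx : z ≠ x := by
      rintro rfl
      omega
    have hzy : z ≠ y := by
      rintro rfl
      omega
    have hz := hw z hzx hzy
    omega
  have hC2 : Pr (fun σ : LE P => pos σ y = pos σ x + 2 ∧ pos σ z = pos σ y + 1)
      ≤ Pr (fun σ : LE P => pos σ z = pos σ x + 2 ∧ pos σ y = pos σ z + 1) := by
    refine Pr_swap_le y z h3 h4 _ _ (fun σ h => h.2) ?_
    intro σ τ hQ ha hb hw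
    have hxy : x ≠ y := by
      rintro rfl
      omega
    have hxz : x ≠ z := by
      rintro rfl
      omega
    have hx := hw x hxy hxz
    omega
  linarith

/-- For `x ∥ y` (any `z` different from both): `P(y<z<x) + P(z<y<x) - P(z<x<y) ≤ P(y<x) - P(y x adjacent)`.
The events `y<z<x` and `z<y<x, y x not adjacent` are disjoint parts of `y<x, not adjacent`, and
`P(z<y<x, y x adjacent) ≤ P(z<x<y)` by exchanging `y, x` (`Pr_swap_le`). -/
theorem two_x (x y z : P) (h1 : ¬ x ≤ y) (h2 : ¬ y ≤ x) (hxz : x ≠ z) (hyz : y ≠ z) :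
    Pr (fun σ : LE P => pos σ y < pos σ z ∧ pos σ z < pos σ x) +
      Pr (fun σ : LE P => pos σ z < pos σ y ∧ pos σ y < pos σ x) -
      Pr (fun σ : LE P => pos σ z < pos σ x ∧ pos σ x < pos σ y) ≤ lt y x - nxt y x 1 := by
  have key : Pr (fun σ : LE P => pos σ y < pos σ z ∧ pos σ z < pos σ x) +
      Pr (fun σ : LE P => pos σ z < pos σ y ∧ pos σ y < pos σ x) -
      Pr (fun σ : LE P => pos σ x = pos σ y + 1 ∧ pos σ z < pos σ y) ≤ lt y x - nxt y x 1 := by
    unfold lt nxt Pr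
    rw [← Ex_add, ← Ex_sub, ← Ex_sub]
    exact Ex_mono fun σ => swc_two _ _ _
  have hC : Pr (fun σ : LE P => pos σ x = pos σ y + 1 ∧ pos σ z < pos σ y)
      ≤ Pr (fun σ : LE P => pos σ z < pos σ x ∧ pos σ x < pos σ y) := by
    refine Pr_swap_le y x h2 h1 _ _ (fun σ h => h.1) ?_
    intro σ τ hQ ha hb hw
    have hz := hw z (Ne.symm hyz) (Ne.symm hxz)
    omega
  linarith

/-- `P(y<z<x) ≤ P(y<x) - P(y x adjacent)`: disjoint parts of `y<x` -/
theorem two_w (x y z : P) :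
    Pr (fun σ : LE P => pos σ y < pos σ z ∧ pos σ z < pos σ x) ≤ lt y x - nxt y x 1 := by
  unfold lt nxt Pr
  rw [← Ex_sub]
  exact Ex_mono fun σ => swc_w _ _ _

/-- the mirror image of `two_x`: for `y ∥ z`:
`P(z<x<y) + P(z<y<x) - P(y<z<x) ≤ P(z<y) - P(z y adjacent)` -/
theorem two_x' (x y z : P) (h3 : ¬ y ≤ z) (h4 : ¬ z ≤ y) (hxz : x ≠ z) (hxy : x ≠ y) :
    Pr (fun σ : LE P => pos σ z < pos σ x ∧ pos σ x < pos σ y) +
      Pr (fun σ : LE P => pos σ z < pos σ y ∧ pos σ y < pos σ x) -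
      Pr (fun σ : LE P => pos σ y < pos σ z ∧ pos σ z < pos σ x) ≤ lt z y - nxt z y 1 := by
  have key : Pr (fun σ : LE P => pos σ z < pos σ x ∧ pos σ x < pos σ y) +
      Pr (fun σ : LE P => pos σ z < pos σ y ∧ pos σ y < pos σ x) -
      Pr (fun σ : LE P => pos σ y = pos σ z + 1 ∧ pos σ y < pos σ x) ≤ lt z y - nxt z y 1 := by
    unfold lt nxt Pr
    rw [← Ex_add, ← Ex_sub, ← Ex_sub]
    exact Ex_mono fun σ => swc_two' _ _ _
  have hC : Pr (fun σ : LE P => pos σ y = pos σ z + 1 ∧ pos σ y < pos σ x)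
      ≤ Pr (fun σ : LE P => pos σ y < pos σ z ∧ pos σ z < pos σ x) := by
    refine Pr_swap_le z y h4 h3 _ _ (fun σ h => h.1) ?_
    intro σ τ hQ ha hb hw
    have hx := hw x hxz hxy
    omega
  linarith

/-- `P(x immediately after z) ≤ P(y<z<x) + P(z<x<y)` for `y` different from both -/
theorem d1_le (x y z : P) (hxy : x ≠ y) (hyz : y ≠ z) :
    nxt z x 1 ≤ Pr (fun σ : LE P => pos σ y < pos σ z ∧ pos σ z < pos σ x) +
      Pr (fun σ : LE P => pos σ z < pos σ x ∧ pos σ x < pos σ y) := by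
  unfold nxt Pr
  rw [← Ex_add]
  refine Ex_mono fun σ => ?_
  have ha := pos_ne (σ := σ) hxy
  have hb := pos_ne (σ := σ) hyz
  unfold ind
  split_ifs <;> first | (exfalso; omega) | norm_num

end Pool.Agent.BFT
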