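import Mathlib
import Pool.Agent.Lib_MP_33fb9b_bft.PairLow
import Pool.Agent.Lib_MP_33fb9b_bft.NumB
import Pool.Agent.Lib_MP_33fb9b_bft.SwC

set_option autoImplicit false

/-!
# Antichains
-/

namespace Pool.Agent.BFT

variable {P : Type} [Fintype P] [PartialOrder P]

/-- the data of a pair -/
private theorem typed_pair (u v : P) (h1 : ¬ u ≤ v) (h2 : ¬ v ≤ u) :
    0 < lt v u ∧ 0 < nxt u v 1 / lt v u ∧ nxt u v 1 / lt v u ≤ 1 ∧
      lt v u * (nxt u v 1 / lt v u) = nxt u v 1 := by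
  have ha : 0 < nxt u v 1 := adj_pos u v h1 h2
  have hb : nxt u v 1 ≤ lt v u := adj_le u v h1 h2
  have hc : 0 < lt v u := lt_of_lt_of_le ha hb
  refine ⟨hc, div_pos ha hc, ?_, ?_⟩
  · rw [div_le_one hc]
    exact hb
  · rw [mul_div_cancel₀ _ hc.ne']

/-- Antichain. Proof (helper54). `al = lt y x`, `be = lt z y`, `ga = lt z x`, `A = nxt y x 1 = nxt x y 1`,
`A' = nxt z y 1`, `d1 = nxt z x 1` (`adj_swap`), `t1 = P(y<z<x)`, `t2 = P(z<x<y)`, `t3 = P(z<y<x)`, so
`ga = t1 + t2 + t3`. Suppose `ht z - ht x < 2.0125`. `ht z - ht x = (ht y - ht x) + (ht z - ht y) ≥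
BB al (A/al) + BB be (A'/be)` (`pair_low`). By `BB_near` both terms are `≥ 0.9765`, so both are
`< 1.036` and by `BB_far` `al - A < 0.076`, `be - A' < 0.076`; by `BB_near` again
`0.65 (al - A + be - A') < 0.0595`, so `w := (al - A) + (be - A') < 0.0916`. By `two_x`, `two_w`, `two_x'` and
`two_w y z x`: `al - A ≥ t1 + max (t3 - t2) 0`, `be - A' ≥ t2 + max (t3 - t1) 0`, so `w ≥ t1 + t2` and
`w ≥ 2 t3`, hence `ga ≤ 1.5 w ≤ 0.1374`, and `d1 ≤ t1 + t2 ≤ w < 0.0916` (`d1_le`). Now `pair_low x z` and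
`BB_anti_chain` with `a = ga`, `k = d1/ga` give `ht z - ht x ≥ 2.0125`. -/
theorem type_d (x y z : P) (h1 : ¬ x ≤ y) (h2 : ¬ y ≤ x) (h3 : ¬ y ≤ z) (h4 : ¬ z ≤ y)
    (h5 : ¬ x ≤ z) (h6 : ¬ z ≤ x) (q1 : lt y x ≤ 0.277) (q2 : lt z y ≤ 0.277)
    (q3 : lt z x ≤ 0.277) : 2.0125 ≤ ht z - ht x := by
  by_contra hcon
  push Not at hcon
  have hxy : x ≠ y := fun h => h1 (h ▸ le_refl _)
  have hxz : x ≠ z := fun h => h5 (h ▸ le_refl _)
  have hyz : y ≠ z := fun h => h3 (h ▸ le_refl _)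
  obtain ⟨a1, a2, a3, a4⟩ := typed_pair x y h1 h2
  obtain ⟨b1, b2, b3, b4⟩ := typed_pair y z h3 h4
  obtain ⟨c1, c2, c3, c4⟩ := typed_pair x z h5 h6
  have p1 := pair_low x y h1 h2
  have p2' := pair_low y z h3 h4
  have p3 := pair_low x z h5 h6
  have s1 := adj_swap x y h1 h2
  have s2 := adj_swap y z h3 h4
  have s3 := adj_swap x z h5 h6
  have n1 := BB_near _ _ a1 q1 a2 a3
  have n2 := BB_near _ _ b1 q2 b2 b3
  have e1 : lt y x * (1 - nxt x y 1 / lt y x) = lt y x - nxt x y 1 := by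
    rw [mul_sub, a4, mul_one]
  have e2 : lt z y * (1 - nxt y z 1 / lt z y) = lt z y - nxt y z 1 := by
    rw [mul_sub, b4, mul_one]
  rw [e1] at n1
  rw [e2] at n2
  have g1 : 0 ≤ lt y x - nxt x y 1 := by
    have := adj_le x y h1 h2
    linarith
  have g2 : 0 ≤ lt z y - nxt y z 1 := by
    have := adj_le y z h3 h4
    linarith
  have m1 : 0 ≤ min (lt y x - nxt x y 1) 0.076 := le_min g1 (by norm_num)
  have m2 : 0 ≤ min (lt z y - nxt y z 1) 0.076 := le_min g2 (by norm_num)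
  have l1 : (0.9765 : ℝ) ≤ BB (lt y x) (nxt x y 1 / lt y x) := by
    have := mul_nonneg (by norm_num : (0:ℝ) ≤ 0.65) m1
    linarith
  have l2 : (0.9765 : ℝ) ≤ BB (lt z y) (nxt y z 1 / lt z y) := by
    have := mul_nonneg (by norm_num : (0:ℝ) ≤ 0.65) m2
    linarith
  have f1 : lt y x - nxt x y 1 < 0.076 := by
    by_contra hc
    push Not at hc
    have := BB_far _ _ a1 q1 a2 a3 (by rw [e1]; exact hc)
    norm_num at *
    linarith
  have f2 : lt z y - nxt y z 1 < 0.076 := by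
    by_contra hc
    push Not at hc
    have := BB_far _ _ b1 q2 b2 b3 (by rw [e2]; exact hc)
    norm_num at *
    linarith
  rw [min_eq_left f1.le] at n1
  rw [min_eq_left f2.le] at n2
  have w : (lt y x - nxt x y 1) + (lt z y - nxt y z 1) < 0.0916 := by
    norm_num at *
    linarith
  have t1 := two_x x y z h1 h2 hxz hyz
  have t2 := two_w x y z
  have t3 := two_x' x y z h3 h4 hxz hxy
  have t4 := two_w y z x
  have t5 := d1_le x y z hxy hyz
  rw [← s1] at t1 t2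
  rw [← s2] at t3 t4
  rw [← s3] at t5
  set T1 := Pr (fun σ : LE P => pos σ y < pos σ z ∧ pos σ z < pos σ x) with hT1
  set T2 := Pr (fun σ : LE P => pos σ z < pos σ x ∧ pos σ x < pos σ y) with hT2
  set T3 := Pr (fun σ : LE P => pos σ z < pos σ y ∧ pos σ y < pos σ x) with hT3
  have hg : lt z x ≤ T1 + T2 + T3 := by
    rw [hT1, hT2, hT3]
    unfold lt Pr
    rw [← Ex_add, ← Ex_add]
    refine Ex_mono fun σ => ?_
    have ha := pos_ne (σ := σ) hxy
    have hb := pos_ne (σ := σ) hyz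
    unfold ind
    split_ifs <;> first | (exfalso; omega) | norm_num
  have hga : lt z x ≤ 0.1374 := by
    norm_num at *
    linarith
  have hd1 : lt z x * (nxt x z 1 / lt z x) ≤ 0.0916 := by
    rw [c4]
    norm_num at *
    linarith
  have := BB_anti_chain _ _ c1 hga c2 c3 hd1
  linarith

end Pool.Agent.BFT
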