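import Mathlib
import Pool.Agent.Lib_MP_33fb9b_bft.CArr
import Pool.Agent.Lib_MP_33fb9b_bft.CNum
import Pool.Agent.Lib_MP_33fb9b_bft.CHt
import Pool.Agent.Lib_MP_33fb9b_bft.CMaj
import Pool.Agent.Lib_MP_33fb9b_bft.CEdge
import Pool.Agent.Lib_MP_33fb9b_bft.CBreak
import Pool.Agent.Lib_MP_33fb9b_bft.SwA
import Pool.Agent.Lib_MP_33fb9b_bft.Corner
import Pool.Agent.Lib_MP_33fb9b_bft.TypeB
import Pool.Agent.Lib_MP_33fb9b_bft.TypeD

set_option autoImplicit false

/-!
# Every finite poset which is not a chain has balance constant at least `0.277`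
-/

namespace Pool.Agent.BFT

open Pool.Agent.Gap

variable {P : Type} [Fintype P] [PartialOrder P]

/-- `F11 * (1 - q - r) ≤ R * C` -/
theorem CMain_corner (x y z : P) (hxz : x < z) (h1 : ¬ x ≤ y) (h2 : ¬ y ≤ x) (h3 : ¬ y ≤ z)
    (h4 : ¬ z ≤ y) :
    Pr (F11 x y z) * (1 - lt y x - lt z y) ≤ nxt x y 1 * nxt y z 1 := by
  have h := corner x y z
  rw [mid_eq x y z hxz h1 h2 h3 h4] at h
  refine h.trans ?_
  apply mul_le_mul
  · exact Pr_mono fun σ hσ => hσ.1
  · exact Pr_mono fun σ hσ => hσ.2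
  · exact Pr_nonneg _
  · exact Pr_nonneg _

theorem CMain_nxt_le (x y : P) : nxt y x 1 ≤ lt y x := Pr_mono fun σ hσ => by omega

/-- the data of a triple of type A1 -/
theorem CMain_data (x y z : P) (hxz : x < z) (h1 : ¬ x ≤ y) (h2 : ¬ y ≤ x) (h3 : ¬ y ≤ z)
    (h4 : ¬ z ≤ y) :
    nxt x y 1 ≤ lt y x ∧ nxt y z 1 ≤ lt z y ∧ 0 ≤ nxt x y 1 ∧ 0 ≤ nxt y z 1 := by
  refine ⟨?_, ?_, Pr_nonneg _, Pr_nonneg _⟩
  · rw [adj_swap x y h1 h2]; exact CMain_nxt_le x y
  · rw [adj_swap y z h3 h4]; exact CMain_nxt_le y z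

theorem CMain_low (x y z : P) (hxz : x < z) (h1 : ¬ x ≤ y) (h2 : ¬ y ≤ x) (h3 : ¬ y ≤ z)
    (h4 : ¬ z ≤ y) (hq : lt y x ≤ 0.277) (hr : lt z y ≤ 0.277) :
    2 - 0.0061 ≤ ht z - ht x ∧ 2 + 0.277 - 0.0061 ≤ ht z - ht x + lt y x ∧
      2 + 0.277 - 0.0061 ≤ ht z - ht x + lt z y := by
  have hd := CMain_data x y z hxz h1 h2 h3 h4
  refine num_low (lt y x) (lt z y) (Pr (F11 x y z)) (ht z - ht x) (lt_nonneg _ _) (lt_nonneg _ _)
    hq hr ?_ ?_
  · exact (CMain_corner x y z hxz h1 h2 h3 h4).trans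
      (mul_le_mul hd.1 hd.2.1 hd.2.2.2 (lt_nonneg _ _))
  · have h := tri_strong x y z hxz h1 h2 h3 h4
    have a1 := Pr_nonneg (F13 x y z)
    have a2 := Pr_nonneg (F31 x y z)
    have a3 := Pr_nonneg (Fg x y z)
    linarith

theorem CMain_edge_low (x y z : P) (hxz : x < z) (h1 : ¬ x ≤ y) (h2 : ¬ y ≤ x) (h3 : ¬ y ≤ z)
    (h4 : ¬ z ≤ y) (hq : lt y x ≤ 0.277) (hr : lt z y ≤ 0.277)
    (hw : ∀ w, w ≠ x → w ≠ y → ¬ w < z) : 2.0125 ≤ ht z - ht x := by
  have hd := CMain_data x y z hxz h1 h2 h3 h4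
  have he := edge_low x y z h3 hw
  rw [← adj_swap y z h3 h4] at he
  refine num_edge (lt y x) (lt z y) (nxt x y 1) (nxt y z 1) (Pr (F11 x y z)) (Pr (F21 x y z))
    (Pr (F31 x y z)) (ht z - ht x) (lt_nonneg _ _) (lt_nonneg _ _) hq hr hd.1 hd.2.2.2
    (Pr_nonneg _) (Pr_nonneg _) (Pr_nonneg _) (CMain_corner x y z hxz h1 h2 h3 h4)
    (col_eq x y z hxz h2 h4) he ?_
  have h := tri_strong x y z hxz h1 h2 h3 h4
  have a1 := Pr_nonneg (F13 x y z)
  have a3 := Pr_nonneg (Fg x y z)
  linarith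

theorem CMain_edge_high (x y z : P) (hxz : x < z) (h1 : ¬ x ≤ y) (h2 : ¬ y ≤ x) (h3 : ¬ y ≤ z)
    (h4 : ¬ z ≤ y) (hq : lt y x ≤ 0.277) (hr : lt z y ≤ 0.277)
    (hw : ∀ w, w ≠ y → w ≠ z → ¬ x < w) : 2.0125 ≤ ht z - ht x := by
  have hd := CMain_data x y z hxz h1 h2 h3 h4
  have he := edge_high x y z h1 hw
  rw [← adj_swap x y h1 h2] at he
  have hc := CMain_corner x y z hxz h1 h2 h3 h4
  refine num_edge (lt z y) (lt y x) (nxt y z 1) (nxt x y 1) (Pr (F11 x y z)) (Pr (F12 x y z))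
    (Pr (F13 x y z)) (ht z - ht x) (lt_nonneg _ _) (lt_nonneg _ _) hr hq hd.2.1 hd.2.2.1
    (Pr_nonneg _) (Pr_nonneg _) (Pr_nonneg _) ?_
    (row_eq x y z hxz h2 h4) he ?_
  · calc Pr (F11 x y z) * (1 - lt z y - lt y x) = Pr (F11 x y z) * (1 - lt y x - lt z y) := by ring
      _ ≤ nxt x y 1 * nxt y z 1 := hc
      _ = nxt y z 1 * nxt x y 1 := by ring
  · have h := tri_strong x y z hxz h1 h2 h3 h4
    have a1 := Pr_nonneg (F31 x y z)
    have a3 := Pr_nonneg (Fg x y z)
    linarith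

theorem CMain_break (x y z v : P) (hxz : x < z) (hyv : y < v) (h1 : ¬ x ≤ y) (h2 : ¬ y ≤ x)
    (h3 : ¬ y ≤ z) (h4 : ¬ z ≤ y) (h5 : ¬ z ≤ v) (h6 : ¬ v ≤ z) (hxv : ¬ x ≤ v)
    (hq : lt y x ≤ 0.277) (hr : lt z y ≤ 0.277) (hr' : lt v z ≤ 0.277) :
    2.0125 ≤ ht z - ht x ∨ 2.0125 ≤ ht v - ht y := by
  have hd := CMain_data x y z hxz h1 h2 h3 h4
  have hd' := CMain_data y z v hyv h3 h4 h5 h6
  have hb := break_le x y z v hxz hyv h1 h2 h5 hxv
  rw [← adj_swap x y h1 h2] at hb
  refine num_break (lt y x) (lt z y) (nxt x y 1) (nxt y z 1) (Pr (F11 x y z)) (Pr (F13 x y z))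
    (Pr (Fg x y z)) (ht z - ht x) (lt z y) (lt v z) (nxt y z 1) (nxt z v 1) (Pr (F11 y z v))
    (Pr (F21 y z v)) (Pr (F31 y z v)) (ht v - ht y) (lt_nonneg _ _) (lt_nonneg _ _) hq hr
    hd.2.2.1 hd.1 hd.2.2.2 hd.2.1 (Pr_nonneg _) (Pr_nonneg _) (Pr_nonneg _)
    (CMain_corner x y z hxz h1 h2 h3 h4) ?_ (lt_nonneg _ _) (lt_nonneg _ _) hr hr' hd'.1
    hd'.2.2.2 hd'.2.1 (Pr_nonneg _) (Pr_nonneg _) (Pr_nonneg _)
    (CMain_corner y z v hyv h3 h4 h5 h6) (col_eq y z v hyv h4 h6) ?_ hb
  · have h := tri_strong x y z hxz h1 h2 h3 h4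
    have a1 := Pr_nonneg (F31 x y z)
    linarith
  · have h := tri_strong y z v hyv h3 h4 h5 h6
    have a1 := Pr_nonneg (F13 y z v)
    have a3 := Pr_nonneg (Fg y z v)
    linarith

theorem CMain_chain (x y z : P) (h1 : x < y) (h2 : y < z) : 2 ≤ ht z - ht x := by
  unfold ht
  rw [← Ex_sub]
  have : Ex (fun _ : LE P => (2 : ℝ)) ≤ Ex (fun σ : LE P => (pos σ z : ℝ) - pos σ x) := by
    apply Ex_mono
    intro σ
    have a := pos_lt_of_lt σ h1
    have b := pos_lt_of_lt σ h2
    have c : pos σ x + 2 ≤ pos σ z := by omega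
    have d : ((pos σ x + 2 : ℕ) : ℝ) ≤ pos σ z := by exact_mod_cast c
    push_cast at d
    linarith
  rwa [Ex_const] at this

/-- the formula for `e k` along an enumeration by natural numbers -/
theorem CMain_e (n : ℕ) (f : Fin n ≃ P) (g : ℕ → P) (hg : ∀ k : Fin n, g k = f k) (k : ℕ)
    (hk : k < n) : ht (g k) - k = ∑ j ∈ Finset.Ico (k + 1) n, lt (g j) (g k) -
      ∑ i ∈ Finset.range k, lt (g k) (g i) := by
  have h := ht_enum n f ⟨k, hk⟩
  have h1 : g k = f ⟨k, hk⟩ := hg ⟨k, hk⟩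
  rw [h1, h]
  congr 1
  · apply Finset.sum_bij (fun (j : Fin n) _ => (j : ℕ))
    · intro j hj
      simp only [Finset.mem_filter, Finset.mem_univ, true_and] at hj
      rw [Finset.mem_Ico]
      exact ⟨hj, j.2⟩
    · intro i _ j _ hij
      exact Fin.ext hij
    · intro j hj
      rw [Finset.mem_Ico] at hj
      refine ⟨⟨j, hj.2⟩, ?_, rfl⟩
      simp only [Finset.mem_filter, Finset.mem_univ, true_and]
      exact hj.1
    · intro j _
      rw [hg j]
  · apply Finset.sum_bij (fun (j : Fin n) _ => (j : ℕ))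
    · intro j hj
      simp only [Finset.mem_filter, Finset.mem_univ, true_and] at hj
      rw [Finset.mem_range]
      exact hj
    · intro i _ j _ hij
      exact Fin.ext hij
    · intro j hj
      rw [Finset.mem_range] at hj
      refine ⟨⟨j, hj.trans hk⟩, ?_, rfl⟩
      simp only [Finset.mem_filter, Finset.mem_univ, true_and]
      exact hj
    · intro j _
      rw [hg j]

/-- the core: unbalanced posets are chains -/
theorem CMain_core (h : ∀ u v : P, u ≠ v → lt u v < 0.277 ∨ lt v u < 0.277) (u v : P) :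
    u ≤ v ∨ v ≤ u := by
  classical
  obtain ⟨f, hf⟩ := majority (P := P) 0.277 (by norm_num) h
  by_contra hcon
  rw [not_or] at hcon
  have hne : u ≠ v := by rintro rfl; exact hcon.1 le_rfl
  -- at least two elements
  have hn2 : 2 ≤ Fintype.card P := by
    have : 1 < Fintype.card P := Fintype.one_lt_card_iff.mpr ⟨u, v, hne⟩
    omega
  obtain ⟨n, hn⟩ : ∃ n, n = Fintype.card P := ⟨_, rfl⟩
  rw [← hn] at hn2
  obtain ⟨f', hf'⟩ : ∃ f' : Fin n ≃ P, ∀ i j, i < j → lt (f' j) (f' i) < 0.277 := by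
    subst hn
    exact ⟨f, hf⟩
  obtain ⟨g, hg⟩ : ∃ g : ℕ → P, ∀ k : Fin n, g k = f' k := by
    refine ⟨fun k => if hk : k < n then f' ⟨k, hk⟩ else u, ?_⟩
    intro k
    simp
  have hlt : ∀ i j, i < j → j < n → lt (g j) (g i) < 0.277 := by
    intro i j hij hj
    have h1 := hg ⟨j, hj⟩
    have h2 := hg ⟨i, hij.trans hj⟩
    simp only at h1 h2
    rw [h1, h2]
    exact hf' _ _ hij
  have hnle : ∀ i j, i < j → j < n → ¬ g j ≤ g i := by
    intro i j hij hj hle
    rcases hle.eq_or_lt with he | hl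
    · have h1 := hg ⟨j, hj⟩
      have h2 := hg ⟨i, hij.trans hj⟩
      simp only at h1 h2
      rw [h1, h2] at he
      have := f'.injective he
      rw [Fin.mk.injEq] at this
      omega
    · have := hlt i j hij hj
      rw [lt_of_lt hl] at this
      norm_num at this
  have hne' : ∀ i j, i < j → j < n → g i ≠ g j := by
    intro i j hij hj he
    exact hnle i j hij hj he.ge
  have hsurj : ∀ w : P, ∃ i, i < n ∧ g i = w := by
    intro w
    refine ⟨f'.symm w, (f'.symm w).2, ?_⟩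
    rw [hg]
    simp
  -- the types
  let T : ℕ → Ty := fun k =>
    if g k < g (k + 1) ∧ g (k + 1) < g (k + 2) then Ty.ch
    else if ¬ g k ≤ g (k + 1) ∧ ¬ g (k + 1) ≤ g (k + 2) ∧ g k < g (k + 2) ∧
      ht (g (k + 2)) - ht (g k) < 2.0125 then Ty.aa else Ty.df
  have hTch : ∀ k, T k = Ty.ch → g k < g (k + 1) ∧ g (k + 1) < g (k + 2) := by
    intro k hk
    by_contra hc
    simp only [T, if_neg hc] at hk
    split_ifs at hk
  have hTaa : ∀ k, T k = Ty.aa → ¬ g k ≤ g (k + 1) ∧ ¬ g (k + 1) ≤ g (k + 2) ∧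
      g k < g (k + 2) ∧ ht (g (k + 2)) - ht (g k) < 2.0125 := by
    intro k hk
    simp only [T] at hk
    split_ifs at hk with h1 h2
    exact h2
  have hTdf : ∀ k, k + 2 < n → T k = Ty.df → 2.0125 ≤ ht (g (k + 2)) - ht (g k) := by
    intro k hkn hk
    simp only [T] at hk
    split_ifs at hk with h1 h2
    have n1 := hnle k (k + 1) (by omega) (by omega)
    have n2 := hnle (k + 1) (k + 2) (by omega) (by omega)
    have n3 := hnle k (k + 2) (by omega) (by omega)
    have q1 := (hlt k (k + 1) (by omega) (by omega)).le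
    have q2 := (hlt (k + 1) (k + 2) (by omega) (by omega)).le
    have q3 := (hlt k (k + 2) (by omega) (by omega)).le
    by_cases c1 : g k ≤ g (k + 1)
    · have c1' : g k < g (k + 1) := lt_of_le_not_ge c1 n1
      by_cases c2 : g (k + 1) ≤ g (k + 2)
      · exact absurd ⟨c1', lt_of_le_not_ge c2 n2⟩ h1
      · exact type_b _ _ _ c1' c2 n2 q2 q3
    · by_cases c2 : g (k + 1) ≤ g (k + 2)
      · exact type_b' _ _ _ (lt_of_le_not_ge c2 n2) c1 n1 q1 q3
      · by_cases c3 : g k ≤ g (k + 2)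
        · by_contra hlt'
          exact h2 ⟨c1, c2, lt_of_le_not_ge c3 n3, not_le.mp hlt'⟩
        · exact type_d _ _ _ c1 n1 c2 n2 c3 n3 q1 q2 q3
  have hch := array_thm n (fun i j => lt (g j) (g i)) 0.277 0.0061 0.0125 (by norm_num)
    (by norm_num) (by norm_num) (fun i j _ _ => lt_nonneg _ _) (fun i j hij hj => (hlt i j hij hj).le)
    (fun k => ht (g k) - k) (fun k hk => CMain_e n f' g hg k hk) T
    (by
      intro k hk hT
      have := hTdf k hk hT
      push_cast
      linarith)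
    (by
      intro k hk hT
      have hc := hTch k hT
      have := CMain_chain _ _ _ hc.1 hc.2
      push_cast
      linarith)
    (by
      intro k hk hT
      have ha := hTaa k hT
      have n1 := hnle k (k + 1) (by omega) (by omega)
      have n2 := hnle (k + 1) (k + 2) (by omega) (by omega)
      have q1 := (hlt k (k + 1) (by omega) (by omega)).le
      have q2 := (hlt (k + 1) (k + 2) (by omega) (by omega)).le
      have := CMain_low _ _ _ ha.2.2.1 ha.1 n1 ha.2.1 n2 q1 q2
      push_cast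
      refine ⟨by linarith [this.1], by linarith [this.2.1], by linarith [this.2.2]⟩)
    (by
      intro k hk hT
      have ha := hTaa k hT
      refine ⟨lt_of_gt ha.2.2.1, ?_, ?_⟩
      · intro j _ _
        exact Pr_mono fun σ hσ => hσ.trans (pos_lt_of_lt σ ha.2.2.1)
      · intro i _
        exact Pr_mono fun σ hσ => (pos_lt_of_lt σ ha.2.2.1).trans hσ)
    (by
      intro k _ hT hT'
      exact (hTaa _ hT').1 (hTch k hT).2.le)
    (by
      intro k _ hT hT'
      exact (hTaa k hT).2.1 (hTch _ hT').1.le)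
    (by
      intro hn3 hT
      have ha := hTaa 0 hT
      have n1 := hnle 0 1 (by omega) (by omega)
      have n2 := hnle 1 2 (by omega) (by omega)
      have q1 := (hlt 0 1 (by omega) (by omega)).le
      have q2 := (hlt 1 2 (by omega) (by omega)).le
      have := CMain_edge_low _ _ _ ha.2.2.1 ha.1 n1 ha.2.1 n2 q1 q2 (by
        intro w hw0 hw1 hw
        obtain ⟨i, hi, rfl⟩ := hsurj w
        have i0 : i ≠ 0 := by rintro rfl; exact hw0 rfl
        have i1 : i ≠ 1 := by rintro rfl; exact hw1 rfl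
        rcases Nat.lt_or_ge 2 i with h | h
        · exact hnle 2 i h hi hw.le
        · obtain rfl : i = 2 := by omega
          exact lt_irrefl _ hw)
      exact absurd ha.2.2.2 (not_lt.mpr this))
    (by
      intro k hk hT
      have ha := hTaa k hT
      have n1 := hnle k (k + 1) (by omega) (by omega)
      have n2 := hnle (k + 1) (k + 2) (by omega) (by omega)
      have q1 := (hlt k (k + 1) (by omega) (by omega)).le
      have q2 := (hlt (k + 1) (k + 2) (by omega) (by omega)).le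
      have := CMain_edge_high _ _ _ ha.2.2.1 ha.1 n1 ha.2.1 n2 q1 q2 (by
        intro w hw0 hw1 hw
        obtain ⟨i, hi, rfl⟩ := hsurj w
        have i0 : i ≠ k + 1 := by rintro rfl; exact hw0 rfl
        have i1 : i ≠ k + 2 := by rintro rfl; exact hw1 rfl
        rcases Nat.lt_or_ge i k with h | h
        · exact hnle i k h (by omega) hw.le
        · obtain rfl : i = k := by omega
          exact lt_irrefl _ hw)
      exact absurd ha.2.2.2 (not_lt.mpr this))
    (by
      intro k hk hT hT'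
      have ha := hTaa k hT
      have ha' := hTaa (k + 1) hT'
      have n1 := hnle k (k + 1) (by omega) (by omega)
      have n2 := hnle (k + 1) (k + 2) (by omega) (by omega)
      have n3 := hnle (k + 2) (k + 3) (by omega) (by omega)
      have n4 := hnle k (k + 3) (by omega) (by omega)
      have q1 := (hlt k (k + 1) (by omega) (by omega)).le
      have q2 := (hlt (k + 1) (k + 2) (by omega) (by omega)).le
      have q3 := (hlt (k + 2) (k + 3) (by omega) (by omega)).le
      by_contra hc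
      have hxv : ¬ g k ≤ g (k + 3) := by
        intro hle
        exact hc (lt_of_gt (lt_of_le_not_ge hle n4))
      rcases CMain_break (g k) (g (k + 1)) (g (k + 2)) (g (k + 3)) ha.2.2.1 ha'.2.2.1 ha.1 n1
        ha.2.1 n2 ha'.2.1 n3 hxv q1 q2 q3 with h | h
      · exact absurd ha.2.2.2 (not_lt.mpr h)
      · exact absurd ha'.2.2.2 (not_lt.mpr h))
  -- consecutive elements are comparable
  have hstep : ∀ k, k + 1 < n → g k < g (k + 1) := by
    intro k hk
    rcases Nat.lt_or_ge (k + 2) n with h | h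
    · exact (hTch k (hch k h)).1
    · rcases Nat.eq_zero_or_pos k with rfl | hk0
      · -- two elements
        have hn2' : n = 2 := by omega
        by_contra hc
        have n1 := hnle 0 1 (by omega) (by omega)
        have hnl : ¬ g 0 ≤ g (0 + 1) := fun hle => hc (lt_of_le_not_ge hle n1)
        have e1 := adj_swap (g 0) (g 1) hnl n1
        have hne01 := hne' 0 1 (by omega) (by omega)
        have e2 : lt (g 0) (g 1) ≤ nxt (g 0) (g 1) 1 := Pr_mono fun σ hσ => by
          have a1 := pos_lt_card σ (g 0)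
          have a2 := pos_lt_card σ (g 1)
          rw [← hn, hn2'] at a1 a2
          omega
        have e3 := CMain_nxt_le (g 0) (g 1)
        have e4 := lt_add hne01
        have e5 := hlt 0 1 (by omega) (by omega)
        linarith
      · obtain ⟨l, rfl⟩ : ∃ l, k = l + 1 := ⟨k - 1, by omega⟩
        exact (hTch l (hch l (by omega))).2
  have hmono : ∀ i j, i < j → j < n → g i < g j := by
    intro i j hij
    induction j with
    | zero => omega
    | succ j ih =>
      intro hj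
      rcases Nat.lt_or_ge i j with h | h
      · exact (ih h (by omega)).trans (hstep j hj)
      · obtain rfl : i = j := by omega
        exact hstep i hj
  obtain ⟨i, hi, rfl⟩ := hsurj u
  obtain ⟨j, hj, rfl⟩ := hsurj v
  rcases Nat.lt_trichotomy i j with h | h | h
  · exact hcon.1 (hmono i j h hj).le
  · subst h; exact hcon.1 le_rfl
  · exact hcon.2 (hmono j i h hi).le

/-- **Main theorem**: every finite poset which is not a chain has balance constant `≥ 0.277`. -/
theorem main_bound (P : Type) [Fintype P] [PartialOrder P] (hP : ∃ x y : P, ¬ x ≤ y ∧ ¬ y ≤ x) :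
    (0.277 : ℝ) ≤ balance P := by
  by_contra hcon
  rw [not_le] at hcon
  obtain ⟨x, y, h1, h2⟩ := hP
  have key : ∀ u v : P, u ≠ v → lt u v < 0.277 ∨ lt v u < 0.277 := by
    intro u v _
    have hb : min (prob P u v) (prob P v u) ≤ balance P :=
      le_ciSup (f := fun q : P × P => min (prob P q.1 q.2) (prob P q.2 q.1))
        (Set.finite_range _).bddAbove (u, v)
    rw [prob_eq_lt, prob_eq_lt] at hb
    have := lt_of_le_of_lt hb hcon
    rwa [min_lt_iff] at this
  rcases CMain_core key x y with h | h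
  · exact h1 h
  · exact h2 h

end Pool.Agent.BFT
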